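import Pool.Agent.Helper79.G.Base

/-!
# MP_e98778_an (full), module G: plane algebra for flips

`dt z w` = scalar product, `sq z = dt z z`. For a dart `e` of a triangulation: `ar T e` = twice the
area of its triangle, `dd T e` = scalar product of the two sides at the corner opposite to `e`
(so `dd / ar` is the cotangent of the opposite angle). `LD T e`: the edge `e` is locally Delaunay.
-/

set_option autoImplicit false

open Pool.Agent.Helper87.LS Pool.Agent.Helper79.G

namespace Pool.Agent.Helper58.TF

/-- Scalar product of plane vectors. -/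
def dt (z w : ℂ) : ℝ := z.re * w.re + z.im * w.im

/-- Square of the length. -/
def sq (z : ℂ) : ℝ := dt z z

theorem sq_eq (z : ℂ) : sq z = ‖z‖ ^ 2 := by
  rw [Complex.sq_norm, Complex.normSq_apply]; rfl

theorem sq_nonneg' (z : ℂ) : 0 ≤ sq z := by
  rw [sq_eq]; positivity

theorem sq_neg (z : ℂ) : sq (-z) = sq z := by
  simp [sq, dt]

/-- Lagrange identity. -/
theorem lagrange (z w : ℂ) : dt z w ^ 2 + cr z w ^ 2 = sq z * sq w := by
  simp only [dt, cr, sq]; ring

variable {p q r q' r' : ℂ}

/-- For a closed triangle `p + q + r = 0`: twice the area from the corner opposite to `p`. -/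
theorem cr_qr (h : p + q + r = 0) : cr q r = cr p q := by
  have : r = -p - q := by linear_combination h
  subst this
  simp only [cr, Complex.sub_re, Complex.sub_im, Complex.neg_re, Complex.neg_im]; ring

theorem cr_rp (h : p + q + r = 0) : cr r p = cr p q := by
  have : r = -p - q := by linear_combination h
  subst this
  simp only [cr, Complex.sub_re, Complex.sub_im, Complex.neg_re, Complex.neg_im]; ring

/-- Law of cosines. -/
theorem cosines (h : p + q + r = 0) : sq p = sq q + sq r - 2 * (-dt r q) := by
  have : p = -q - r := by linear_combination h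
  subst this
  simp only [sq, dt, Complex.sub_re, Complex.sub_im, Complex.neg_re, Complex.neg_im]; ring

/-- `D ^ 2 + tau ^ 2 = |q|^2 |r|^2`. -/
theorem lag_tri (h : p + q + r = 0) : (-dt r q) ^ 2 + cr p q ^ 2 = sq q * sq r := by
  rw [← cr_qr h]
  have := lagrange q r
  simp only [dt, cr, sq] at *
  nlinarith [this]

/-- The sum of the areas of the two triangles does not change in a flip. -/
theorem area_flip (h : p + q + r = 0) (h' : -p + q' + r' = 0) :
    cr p q + cr (-p) q' = cr r q' + cr r' q := by
  have e1 : r = -p - q := by linear_combination h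
  have e2 : r' = p - q' := by linear_combination h'
  subst e1 e2
  simp only [cr, Complex.sub_re, Complex.sub_im, Complex.neg_re, Complex.neg_im]; ring

/-- `(cot + cot') A B Sg = |cc'|^2 A B - |ab|^2 C D`. -/
theorem cot_flip (h : p + q + r = 0) (h' : -p + q' + r' = 0) :
    (-dt r q * cr (-p) q' + -dt r' q' * cr p q) * (cr p q + cr (-p) q') =
      sq (r + q') * (cr p q * cr (-p) q') - sq p * (cr r q' * cr r' q) := by
  have e1 : r = -p - q := by linear_combination h
  have e2 : r' = p - q' := by linear_combination h'
  subst e1 e2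
  simp only [sq, dt, cr, Complex.sub_re, Complex.sub_im, Complex.neg_re, Complex.neg_im,
    Complex.add_re, Complex.add_im]
  ring

/-- An edge which is not locally Delaunay can be flipped. -/
theorem flippable_of (h : p + q + r = 0) (h' : -p + q' + r' = 0) (hA : 0 < cr p q)
    (hB : 0 < cr (-p) q') (hD : -dt r q * cr (-p) q' + -dt r' q' * cr p q < 0) :
    0 < cr r q' ∧ 0 < cr r' q := by
  have h1 := cot_flip h h'
  have h2 := area_flip h h'
  have h3 : 0 ≤ sq (r + q') * (cr p q * cr (-p) q') :=
    mul_nonneg (sq_nonneg' _) (by positivity)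
  have h4 : (-dt r q * cr (-p) q' + -dt r' q' * cr p q) * (cr p q + cr (-p) q') < 0 :=
    mul_neg_of_neg_of_pos hD (by linarith)
  have h5 : 0 < sq p * (cr r q' * cr r' q) := by linarith
  have h6 : 0 < cr r q' * cr r' q := by
    by_contra hc
    push Not at hc
    have := mul_nonpos_of_nonneg_of_nonpos (sq_nonneg' p) hc
    linarith
  rcases (mul_pos_iff.mp h6) with h7 | h7
  · exact h7
  · exfalso; linarith [h7.1, h7.2]

/-- The harmonic index decreases in the flip of an edge which is not locally Delaunay. -/
theorem index_flip (h : p + q + r = 0) (h' : -p + q' + r' = 0) (hA : 0 < cr p q)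
    (hB : 0 < cr (-p) q') (hC : 0 < cr r q') (hD : 0 < cr r' q) :
    (sq p + sq q + sq r) / cr p q + (sq p + sq q' + sq r') / cr (-p) q' -
      ((sq (r + q') + sq r + sq q') / cr r q' + (sq (r + q') + sq q + sq r') / cr r' q) =
    -(-dt r q / cr p q + -dt r' q' / cr (-p) q') *
      (2 * ((cr p q + cr (-p) q') ^ 2 - cr p q * cr (-p) q' - cr r q' * cr r' q) /
        (cr r q' * cr r' q)) := by
  have e1 : r = -p - q := by linear_combination h
  have e2 : r' = p - q' := by linear_combination h'
  subst e1 e2
  rw [← sub_eq_zero]
  have hA' := hA.ne'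
  have hB' := hB.ne'
  have hC' := hC.ne'
  have hD' := hD.ne'
  field_simp
  simp only [sq, dt, cr, Complex.sub_re, Complex.sub_im, Complex.neg_re, Complex.neg_im,
    Complex.add_re, Complex.add_im]
  ring

end Pool.Agent.Helper58.TF
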