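import Pool.Agent.Helper58.TF.Alg

/-!
# MP_e98778_an (full), module G: locally Delaunay triangulations

(T) If all edges are `≥ ε` and locally Delaunay then all edges are `≤ R` and all triangles have
doubled area `≥ a0(ε, R, number of darts)`.

(C) If the darts outside `E` are long and locally Delaunay and the darts of `E` are short, every
triangle with a dart outside `E` has exactly one dart in `E`.

Both are proved by walking across the longest side of a flat triangle: the longest sides increase
strictly, so the walk has fewer steps than there are darts.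
-/

set_option autoImplicit false

open Pool.Agent.Helper87.LS Pool.Agent.Helper79.G

namespace Pool.Agent.Helper58.TF

/-- A walk on a finite set along which `f` increases strictly has fewer than `card` steps. -/
theorem chain_false {H : Type} [Fintype H] (P : ℕ → H → Prop) (f : H → ℝ) (h0 : H) (hP : P 0 h0)
    (step : ∀ i, i < Fintype.card H → ∀ h, P i h → ∃ h', P (i + 1) h' ∧ f h < f h') : False := by
  classical
  have key : ∀ i, i ≤ Fintype.card H → ∃ h, P i h ∧ i ≤ (Finset.univ.filter fun x => f x < f h).card := by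
    intro i
    induction i with
    | zero => intro _; exact ⟨h0, hP, Nat.zero_le _⟩
    | succ i ih =>
      intro hi
      obtain ⟨h, h1, h2⟩ := ih (by omega)
      obtain ⟨h', h3, h4⟩ := step i (by omega) h h1
      refine ⟨h', h3, ?_⟩
      have hsub : insert h (Finset.univ.filter fun x => f x < f h) ⊆
          (Finset.univ.filter fun x => f x < f h') := by
        intro x hx
        rw [Finset.mem_insert] at hx
        rw [Finset.mem_filter]
        refine ⟨Finset.mem_univ _, ?_⟩
        rcases hx with hx | hx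
        · rw [hx]; exact h4
        · rw [Finset.mem_filter] at hx; exact hx.2.trans h4
      have hc := Finset.card_le_card hsub
      rw [Finset.card_insert_of_notMem (by simp)] at hc
      omega
  obtain ⟨h, _, h2⟩ := key _ le_rfl
  have h3 : (Finset.univ.filter fun x => f x < f h) ⊂ Finset.univ := by
    refine (Finset.ssubset_iff_of_subset (Finset.subset_univ _)).mpr ⟨h, Finset.mem_univ _, by simp⟩
  have := Finset.card_lt_card h3
  rw [Finset.card_univ] at this
  omega

variable {H : Type} (T : Tri H)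

/-- Twice the area of the triangle of `h`. -/
def ar (h : H) : ℝ := cr (T.vec h) (T.vec (T.next h))

/-- Scalar product of the sides at the corner opposite to `h`. -/
def dd (h : H) : ℝ := -dt (T.vec (T.prev h)) (T.vec (T.next h))

/-- The edge `e` is locally Delaunay: `cot + cot' ≥ 0`. -/
def LocDel (e : H) : Prop := 0 ≤ dd T e * ar T (T.opp e) + dd T (T.opp e) * ar T e

/-- `h` is a longest side of its triangle. -/
def IsLong (h : H) : Prop :=
  sq (T.vec (T.next h)) ≤ sq (T.vec h) ∧ sq (T.vec (T.prev h)) ≤ sq (T.vec h)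

variable {T}

theorem next_prev (h : H) : T.next (T.prev h) = h := T.next3 h

theorem prev_next (h : H) : T.prev (T.next h) = h := T.next3 h

theorem next_next (h : H) : T.next (T.next h) = T.prev h := rfl

theorem prev_prev (h : H) : T.prev (T.prev h) = T.next h := by
  unfold Tri.prev; rw [T.next3]

theorem closed' (h : H) : T.vec h + T.vec (T.next h) + T.vec (T.prev h) = 0 := T.closed h

theorem ar_pos (h : H) : 0 < ar T h := T.pos h

theorem ar_next (h : H) : ar T (T.next h) = ar T h := cr_qr (closed' h)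

theorem ar_prev (h : H) : ar T (T.prev h) = ar T h := by
  have := ar_next (T := T) (T.prev h)
  rw [next_prev] at this
  exact this.symm

theorem cos_law (h : H) :
    sq (T.vec h) = sq (T.vec (T.next h)) + sq (T.vec (T.prev h)) - 2 * dd T h :=
  cosines (closed' h)

theorem lag (h : H) :
    dd T h ^ 2 + ar T h ^ 2 = sq (T.vec (T.next h)) * sq (T.vec (T.prev h)) :=
  lag_tri (closed' h)

/-- The scalar products at the two ends of `next h`. -/
theorem dd_prev (h : H) : dd T (T.prev h) = sq (T.vec (T.next h)) - dd T h := by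
  have h1 := cos_law (T := T) h
  have h2 := cos_law (T := T) (T.prev h)
  rw [next_prev, prev_prev] at h2
  linarith

theorem dd_next (h : H) : dd T (T.next h) = sq (T.vec (T.prev h)) - dd T h := by
  have h1 := cos_law (T := T) h
  have h2 := cos_law (T := T) (T.next h)
  rw [prev_next, next_next] at h2
  linarith

theorem sq_opp (h : H) : sq (T.vec (T.opp h)) = sq (T.vec h) := by rw [T.vec_opp, sq_neg]

/-- In every triangle there is a longest side. -/
theorem exists_long (h : H) : ∃ g, (g = h ∨ g = T.next h ∨ g = T.prev h) ∧ IsLong T g := by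
  rcases le_total (sq (T.vec (T.next h))) (sq (T.vec h)) with h1 | h1
  · rcases le_total (sq (T.vec (T.prev h))) (sq (T.vec h)) with h2 | h2
    · exact ⟨h, Or.inl rfl, h1, h2⟩
    · refine ⟨T.prev h, Or.inr (Or.inr rfl), ?_, ?_⟩
      · rw [next_prev]; exact h2
      · rw [prev_prev]; exact h1.trans h2
  · rcases le_total (sq (T.vec (T.prev h))) (sq (T.vec (T.next h))) with h2 | h2
    · refine ⟨T.next h, Or.inr (Or.inl rfl), ?_, ?_⟩
      · rw [next_next]; exact h2
      · rw [prev_next]; exact h1
    · refine ⟨T.prev h, Or.inr (Or.inr rfl), ?_, ?_⟩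
      · rw [next_prev]; exact h1.trans h2
      · rw [prev_prev]; exact h2

/-- If `h` is a longest side, `2 dd ≤` the square of each of the two other sides. -/
theorem IsLong.two_dd_le {h : H} (hl : IsLong T h) :
    2 * dd T h ≤ sq (T.vec (T.next h)) ∧ 2 * dd T h ≤ sq (T.vec (T.prev h)) := by
  have h1 := cos_law (T := T) h
  constructor <;> linarith [hl.1, hl.2]

/-- If `h` is a longest side and the opposite angle is not obtuse, the triangle is fat. -/
theorem IsLong.fat {h : H} (hl : IsLong T h) (hd : 0 ≤ dd T h) :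
    3 * (sq (T.vec (T.next h)) * sq (T.vec (T.prev h))) ≤ 4 * ar T h ^ 2 := by
  have h1 := lag (T := T) h
  have h2 := hl.two_dd_le
  nlinarith [mul_le_mul h2.1 h2.2 (by linarith) (sq_nonneg' _)]

/-- If the longest side `h` has both other sides `≥ e` (squares) and the area is tiny, the angle
opposite to `h` is obtuse, with a lower bound. -/
theorem IsLong.obtuse {h : H} (hl : IsLong T h) {e : ℝ} (he : 0 ≤ e)
    (h1 : e ≤ sq (T.vec (T.next h))) (h2 : e ≤ sq (T.vec (T.prev h)))
    (ha : 4 * ar T h ^ 2 < 3 * e ^ 2) : dd T h < 0 ∧ e ^ 2 - ar T h ^ 2 ≤ dd T h ^ 2 := by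
  have h3 : e ^ 2 ≤ sq (T.vec (T.next h)) * sq (T.vec (T.prev h)) := by
    nlinarith [mul_le_mul h1 h2 he (sq_nonneg' _)]
  refine ⟨?_, ?_⟩
  · by_contra hc
    push Not at hc
    have := hl.fat hc
    linarith
  · have := lag (T := T) h
    linarith

/-- **(T), first half.** All edges `≥ ε`, locally Delaunay, doubled areas `≤ A`: all edges satisfy
`3 ε² |h|² ≤ 8 A²`. -/
theorem edge_bound [Fintype H] {ε A : ℝ} (hε : 0 < ε) (hmin : ∀ h, ε ^ 2 ≤ sq (T.vec h))
    (hA : ∀ h, ar T h ≤ A) (hdel : ∀ h, LocDel T h) (h : H) :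
    3 * ε ^ 2 * sq (T.vec h) ≤ 8 * A ^ 2 := by
  obtain ⟨m, -, hm⟩ := Finset.exists_max_image Finset.univ (fun x => sq (T.vec x)) ⟨h, Finset.mem_univ _⟩
  have hm' : ∀ x, sq (T.vec x) ≤ sq (T.vec m) := fun x => hm x (Finset.mem_univ _)
  have key : ∀ g, sq (T.vec g) = sq (T.vec m) → 0 ≤ dd T g → 3 * ε ^ 2 * sq (T.vec m) ≤ 8 * A ^ 2 := by
    intro g hg hd
    have hl : IsLong T g := ⟨by rw [hg]; exact hm' _, by rw [hg]; exact hm' _⟩
    have h1 := hl.fat hd
    have h2 := cos_law (T := T) g
    have h3 := hmin (T.next g)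
    have h4 := hmin (T.prev g)
    have h5 : 0 < ar T g := ar_pos g
    have h6 : ar T g ^ 2 ≤ A ^ 2 := by nlinarith [hA g]
    have h7 : ε ^ 2 * sq (T.vec m) ≤ 2 * (sq (T.vec (T.next g)) * sq (T.vec (T.prev g))) := by
      have h8 : sq (T.vec m) ≤ sq (T.vec (T.next g)) + sq (T.vec (T.prev g)) := by linarith
      have h9 := mul_le_mul_of_nonneg_left h8 (by positivity : 0 ≤ ε ^ 2)
      have h10 := mul_le_mul_of_nonneg_left h4 (sq_nonneg' (T.vec (T.next g)))
      have h11 := mul_le_mul_of_nonneg_right h3 (sq_nonneg' (T.vec (T.prev g)))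
      nlinarith
    nlinarith
  have hfin : 3 * ε ^ 2 * sq (T.vec m) ≤ 8 * A ^ 2 := by
    have hd := hdel m
    unfold LocDel at hd
    rcases le_or_gt 0 (dd T m) with h1 | h1
    · exact key m rfl h1
    · rcases le_or_gt 0 (dd T (T.opp m)) with h2 | h2
      · exact key (T.opp m) (sq_opp m) h2
      · exfalso
        have := mul_neg_of_neg_of_pos h1 (ar_pos (T := T) (T.opp m))
        have := mul_neg_of_neg_of_pos h2 (ar_pos (T := T) m)
        linarith
  have := mul_le_mul_of_nonneg_left (hm' h) (by positivity : 0 ≤ 3 * ε ^ 2)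
  linarith

/-- **(T), second half.** All edges in `[ε, R]`, locally Delaunay: the doubled areas are
`≥ (ε² / 2) (ε² / (2 R²)) ^ card H`. -/
theorem area_bound [Fintype H] {ε R : ℝ} (hε : 0 < ε) (hmin : ∀ h, ε ^ 2 ≤ sq (T.vec h))
    (hmax : ∀ h, sq (T.vec h) ≤ R ^ 2) (hdel : ∀ h, LocDel T h) (h : H) :
    ε ^ 2 / 2 * (ε ^ 2 / (2 * R ^ 2)) ^ Fintype.card H ≤ ar T h := by
  have hR2 : ε ^ 2 ≤ R ^ 2 := (hmin h).trans (hmax h)
  have hε2 : 0 < ε ^ 2 := by positivity
  have hR2' : 0 < R ^ 2 := by linarith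
  set M : ℝ := 2 * R ^ 2 / ε ^ 2 with hM
  have hM1 : 1 ≤ M := by rw [hM, le_div_iff₀ hε2]; linarith
  have hMinv : ε ^ 2 / (2 * R ^ 2) = M⁻¹ := by rw [hM, inv_div]
  rw [hMinv]
  by_contra hc
  push Not at hc
  set N := Fintype.card H with hN
  have hMN : 0 < M ^ N := by positivity
  have hc' : ar T h * M ^ N < ε ^ 2 / 2 := by
    rw [inv_pow, ← div_eq_mul_inv, lt_div_iff₀ hMN] at hc
    exact hc
  obtain ⟨g0, hg0, hg0l⟩ := exists_long (T := T) h
  have har0 : ar T g0 = ar T h := by
    rcases hg0 with rfl | rfl | rfl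
    · rfl
    · exact ar_next h
    · exact ar_prev h
  refine chain_false (P := fun i g => IsLong T g ∧ ar T g ≤ ar T h * M ^ i)
    (f := fun g => sq (T.vec g)) g0 ⟨hg0l, by rw [har0]; simp⟩ ?_
  rintro i hi g ⟨hgl, hga⟩
  have hMi : ar T h * M ^ i ≤ ar T h * M ^ N :=
    mul_le_mul_of_nonneg_left (pow_le_pow_right₀ hM1 hi.le) (ar_pos h).le
  have hMi1 : ar T h * M ^ (i + 1) ≤ ar T h * M ^ N :=
    mul_le_mul_of_nonneg_left (pow_le_pow_right₀ hM1 hi) (ar_pos h).le
  have hsmall : ∀ x, ar T x < ε ^ 2 / 2 → 4 * ar T x ^ 2 < 3 * (ε ^ 2) ^ 2 := by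
    intro x hx
    have := ar_pos (T := T) x
    nlinarith
  have hgs : ar T g < ε ^ 2 / 2 := by linarith
  obtain ⟨hneg, hlow⟩ := hgl.obtuse hε2.le (hmin _) (hmin _) (hsmall g hgs)
  have hDg : dd T g ≤ -(ε ^ 2 / 2) := by
    have := ar_pos (T := T) g
    by_contra hcc
    push Not at hcc
    nlinarith
  have hd := hdel g
  unfold LocDel at hd
  have hag := ar_pos (T := T) g
  have hao := ar_pos (T := T) (T.opp g)
  -- the neighbour
  have h1 : ε ^ 2 / 2 * ar T (T.opp g) ≤ dd T (T.opp g) * ar T g := by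
    have := mul_le_mul_of_nonneg_right hDg hao.le
    linarith
  have hDo : 0 < dd T (T.opp g) := by
    by_contra hcc
    push Not at hcc
    have := mul_nonpos_of_nonpos_of_nonneg hcc hag.le
    have : 0 < ε ^ 2 / 2 * ar T (T.opp g) := by positivity
    linarith
  have hDR : dd T (T.opp g) ≤ R ^ 2 := by
    have h2 := lag (T := T) (T.opp g)
    have h3 := mul_le_mul (hmax (T.next (T.opp g))) (hmax (T.prev (T.opp g))) (sq_nonneg' _) hR2'.le
    nlinarith [sq_nonneg (ar T (T.opp g))]
  have hao' : ar T (T.opp g) ≤ ar T h * M ^ (i + 1) := by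
    have h2 : ε ^ 2 / 2 * ar T (T.opp g) ≤ R ^ 2 * ar T g :=
      h1.trans (mul_le_mul_of_nonneg_right hDR hag.le)
    have h3 : ar T (T.opp g) ≤ M * ar T g := by
      rw [hM, div_mul_eq_mul_div, le_div_iff₀ hε2]
      linarith
    calc ar T (T.opp g) ≤ M * ar T g := h3
      _ ≤ M * (ar T h * M ^ i) := mul_le_mul_of_nonneg_left hga (by linarith)
      _ = ar T h * M ^ (i + 1) := by ring
  have hos : ar T (T.opp g) < ε ^ 2 / 2 := by linarith
  obtain ⟨k, hk, hkl⟩ := exists_long (T := T) (T.opp g)
  have hak : ar T k = ar T (T.opp g) := by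
    rcases hk with rfl | rfl | rfl
    · rfl
    · exact ar_next _
    · exact ar_prev _
  have hkneg := (hkl.obtuse hε2.le (hmin _) (hmin _) (hsmall k (by rw [hak]; exact hos))).1
  refine ⟨k, ⟨hkl, by rw [hak]; exact hao'⟩, ?_⟩
  show sq (T.vec g) < sq (T.vec k)
  rw [← sq_opp (T := T) g]
  rcases hk with rfl | rfl | rfl
  · exfalso; linarith
  · have h2 := cos_law (T := T) (T.next (T.opp g))
    rw [prev_next] at h2
    have := sq_nonneg' (T.vec (T.next (T.next (T.opp g))))
    linarith
  · have h2 := cos_law (T := T) (T.prev (T.opp g))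
    rw [next_prev] at h2
    have := sq_nonneg' (T.vec (T.prev (T.prev (T.opp g))))
    linarith

end Pool.Agent.Helper58.TF
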