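import Pool.Agent.Helper58.TF.Min
import Pool.Agent.Helper86.TF.Ell

/-!
# MP_e98778_an (full), module G, block TF-G-GG: a gap after a bounded matrix

Induction on the number of edges outside `E`. Thresholds: `l N = l₀`, `l j = l (j+1)² / L ≤ l (j+1)`.
Start: `g` contracts the direction of `T.vec e₀` by the factor `lam ≤ 1` with `lam * K ≤ l 0` (and
expands the orthogonal direction by `1 / lam`): `E = {e₀, opp e₀}`, `Z = T`.
Step: all darts `h ∈ E` of `Z` (at least `2 (j+1)` of them) have `‖g (Z.vec h)‖ ≤ l j`. If the last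
condition fails, some `Z'` with `Reach E Z Z'` has a dart `h ∉ E` with `‖g (Z'.vec h)‖ ≤ L` (the darts
in `E` keep their vectors: induction on `Reach`, `flipVec_ne`; `opp` is constant: `reach_opp`).
Compose `g` with the map that contracts the direction of `g (Z'.vec h)` by `√(l j / L) ≤ 1` and
expands the orthogonal direction by the inverse: all darts of `E ∪ {h, opp h}` are
`≤ √(l j * L) = l (j+1)`. `Reach ∅ T Z'`: `Reach E Z Z'` implies `Reach ∅ Z Z'`, transitivity.
If all darts were in `E`: `∑ h, ar h` (unchanged: `sum_ar_reach`, `cr_map`) would be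
`≤ N l₀² < a` (`abs_cr_le`), so there is always a dart outside `E` and the process ends after at
most `N` steps. `G` = product of the finitely many expansion factors `1 / lam`, `√(L / l j)`,
it depends only on `N, K, l₀, L`.
-/

set_option autoImplicit false

open Pool.Agent.Helper87.LS Pool.Agent.Helper79.G Pool.Agent.Helper72.TF

namespace Pool.Agent.Helper58.TF

private theorem h60_norm_sq (z : ℂ) : ‖z‖ ^ 2 = z.re ^ 2 + z.im ^ 2 := by
  rw [← Complex.normSq_eq_norm_sq, Complex.normSq_apply]; ring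

/-- The linear map with eigenvalue `s` in the direction of `(p, q)` and `t` orthogonal to it. -/
private def h60_lin (p q s t : ℝ) (h1 : p ^ 2 + q ^ 2 = 1) (h2 : s * t = 1) : ℂ ≃ₗ[ℝ] ℂ where
  toFun z := ⟨s * (p * z.re + q * z.im) * p - t * (p * z.im - q * z.re) * q,
    s * (p * z.re + q * z.im) * q + t * (p * z.im - q * z.re) * p⟩
  invFun z := ⟨t * (p * z.re + q * z.im) * p - s * (p * z.im - q * z.re) * q,
    t * (p * z.re + q * z.im) * q + s * (p * z.im - q * z.re) * p⟩
  map_add' := by intro z w; apply Complex.ext <;> simp <;> ring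
  map_smul' := by intro c z; apply Complex.ext <;> simp <;> ring
  left_inv := by
    intro z
    have e1 : p * (s * (p * z.re + q * z.im) * p - t * (p * z.im - q * z.re) * q) +
        q * (s * (p * z.re + q * z.im) * q + t * (p * z.im - q * z.re) * p) =
        s * (p * z.re + q * z.im) := by
      linear_combination (s * (p * z.re + q * z.im)) * h1
    have e2 : p * (s * (p * z.re + q * z.im) * q + t * (p * z.im - q * z.re) * p) -
        q * (s * (p * z.re + q * z.im) * p - t * (p * z.im - q * z.re) * q) =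
        t * (p * z.im - q * z.re) := by
      linear_combination (t * (p * z.im - q * z.re)) * h1
    apply Complex.ext
    · simp only
      rw [e1, e2]
      linear_combination ((p * z.re + q * z.im) * p - (p * z.im - q * z.re) * q) * h2 + z.re * h1
    · simp only
      rw [e1, e2]
      linear_combination ((p * z.re + q * z.im) * q + (p * z.im - q * z.re) * p) * h2 + z.im * h1
  right_inv := by
    intro z
    have e1 : p * (t * (p * z.re + q * z.im) * p - s * (p * z.im - q * z.re) * q) +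
        q * (t * (p * z.re + q * z.im) * q + s * (p * z.im - q * z.re) * p) =
        t * (p * z.re + q * z.im) := by
      linear_combination (t * (p * z.re + q * z.im)) * h1
    have e2 : p * (t * (p * z.re + q * z.im) * q + s * (p * z.im - q * z.re) * p) -
        q * (t * (p * z.re + q * z.im) * p - s * (p * z.im - q * z.re) * q) =
        s * (p * z.im - q * z.re) := by
      linear_combination (s * (p * z.im - q * z.re)) * h1
    apply Complex.ext
    · simp only
      rw [e1, e2]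
      linear_combination ((p * z.re + q * z.im) * p - (p * z.im - q * z.re) * q) * h2 + z.re * h1
    · simp only
      rw [e1, e2]
      linear_combination ((p * z.re + q * z.im) * q + (p * z.im - q * z.re) * p) * h2 + z.im * h1

private theorem h60_lin_bound {p q s t : ℝ} (h1 : p ^ 2 + q ^ 2 = 1) (hs : 0 < s) (ht : 0 < t)
    {M : ℝ} (hsM : s ≤ M) (htM : t ≤ M) (z w : ℂ)
    (hr : w.re = s * (p * z.re + q * z.im) * p - t * (p * z.im - q * z.re) * q)
    (hi : w.im = s * (p * z.re + q * z.im) * q + t * (p * z.im - q * z.re) * p) :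
    ‖w‖ ≤ M * ‖z‖ := by
  have hM : 0 < M := hs.trans_le hsM
  apply le_of_sq_le_sq _ (by positivity)
  rw [mul_pow, h60_norm_sq, h60_norm_sq, hr, hi]
  set D := p * z.re + q * z.im with hD
  set C := p * z.im - q * z.re with hC
  have e1 : (s * D * p - t * C * q) ^ 2 + (s * D * q + t * C * p) ^ 2 = s ^ 2 * D ^ 2 + t ^ 2 * C ^ 2 := by
    linear_combination (s ^ 2 * D ^ 2 + t ^ 2 * C ^ 2) * h1
  have e2 : z.re ^ 2 + z.im ^ 2 = D ^ 2 + C ^ 2 := by
    rw [hD, hC]
    linear_combination (-(z.re ^ 2 + z.im ^ 2)) * h1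
  rw [e1, e2, mul_add]
  have h3 : s ^ 2 ≤ M ^ 2 := pow_le_pow_left₀ hs.le hsM 2
  have h4 : t ^ 2 ≤ M ^ 2 := pow_le_pow_left₀ ht.le htM 2
  exact add_le_add (mul_le_mul_of_nonneg_right h3 (sq_nonneg _))
    (mul_le_mul_of_nonneg_right h4 (sq_nonneg _))

private theorem h60_contract {u : ℂ} (hu : u ≠ 0) {c : ℝ} (hc : 0 < c) (hc1 : c ≤ 1) :
    ∃ (k : ℂ ≃ₗ[ℝ] ℂ) (_ : LinearMap.det (k : ℂ →ₗ[ℝ] ℂ) = 1),
      (∀ z, ‖k z‖ ≤ (1 / c) * ‖z‖) ∧ (∀ z, ‖k.symm z‖ ≤ (1 / c) * ‖z‖) ∧ ‖k u‖ = c * ‖u‖ := by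
  have hn : 0 < ‖u‖ := norm_pos_iff.2 hu
  have h0 := h60_norm_sq u
  set p := u.re / ‖u‖ with hp
  set q := u.im / ‖u‖ with hq
  have hpr : u.re = ‖u‖ * p := by rw [hp]; field_simp
  have hqi : u.im = ‖u‖ * q := by rw [hq]; field_simp
  have h1 : p ^ 2 + q ^ 2 = 1 := by
    rw [hp, hq, div_pow, div_pow, ← add_div, ← h0]
    exact div_self (by positivity)
  have h2 : c * (1 / c) = 1 := by field_simp
  have hc2 : c ≤ 1 / c := hc1.trans (by rw [le_div_iff₀ hc]; linarith)
  refine ⟨h60_lin p q c (1 / c) h1 h2, ?_, ?_, ?_, ?_⟩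
  · have h := cr_map (h60_lin p q c (1 / c) h1 h2) 1 Complex.I
    have h3 : cr 1 Complex.I = 1 := by simp [cr]
    rw [h3, mul_one] at h
    rw [← h]
    have e1 : h60_lin p q c (1 / c) h1 h2 1 =
        ⟨c * (p * 1 + q * 0) * p - (1 / c) * (p * 0 - q * 1) * q,
          c * (p * 1 + q * 0) * q + (1 / c) * (p * 0 - q * 1) * p⟩ := rfl
    have e2 : h60_lin p q c (1 / c) h1 h2 Complex.I =
        ⟨c * (p * 0 + q * 1) * p - (1 / c) * (p * 1 - q * 0) * q,
          c * (p * 0 + q * 1) * q + (1 / c) * (p * 1 - q * 0) * p⟩ := rfl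
    rw [e1, e2]
    simp only [cr]
    linear_combination ((p ^ 2 + q ^ 2) ^ 2) * h2 + (p ^ 2 + q ^ 2 + 1) * h1
  · intro z
    exact h60_lin_bound h1 hc (by positivity) hc2 le_rfl z _ rfl rfl
  · intro z
    exact h60_lin_bound h1 (s := 1 / c) (t := c) (by positivity) hc le_rfl hc2 z _ rfl rfl
  · have e1 : h60_lin p q c (1 / c) h1 h2 u = c • u := by
      apply Complex.ext
      · change c * (p * u.re + q * u.im) * p - (1 / c) * (p * u.im - q * u.re) * q = _
        rw [Complex.real_smul, Complex.re_ofReal_mul]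
        rw [hpr, hqi]
        linear_combination (c * ‖u‖ * p) * h1
      · change c * (p * u.re + q * u.im) * q + (1 / c) * (p * u.im - q * u.re) * p = _
        rw [Complex.real_smul, Complex.im_ofReal_mul]
        rw [hpr, hqi]
        linear_combination (c * ‖u‖ * q) * h1
    rw [e1, norm_smul, Real.norm_eq_abs, abs_of_pos hc]

private theorem h60_reach_mono {H : Type} {E E' : Set H} (hE : E' ⊆ E) {T Z : Tri H}
    (h : Reach E T Z) : Reach E' T Z := by
  induction h with
  | refl => exact Reach.refl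
  | flip e he h1 h2 _ ih => exact Reach.flip e he (fun h => h1 (hE h)) (fun h => h2 (hE h)) ih

private theorem h60_reach_trans {H : Type} {E : Set H} {T Z Z' : Tri H}
    (h : Reach E T Z) (h' : Reach E Z Z') : Reach E T Z' := by
  induction h' with
  | refl => exact h
  | flip e he h1 h2 _ ih => exact Reach.flip e he h1 h2 ih

private theorem h60_reach_vec {H : Type} {E : Set H} {Z Z' : Tri H} (h : Reach E Z Z') {x : H}
    (hx : x ∈ E) : Z'.vec x = Z.vec x := by
  induction h with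
  | refl => rfl
  | @flip T' e he h1 h2 _ ih =>
    have h3 : (T'.flip e he).vec x = T'.vec x :=
      T'.flipVec_ne (fun h => h1 (h ▸ hx)) (fun h => h2 (h ▸ hx))
    rw [h3, ih]

/-- The thresholds. -/
private noncomputable def h60_thr (l₀ L : ℝ) : ℕ → ℝ
  | 0 => l₀
  | r + 1 => h60_thr l₀ L r ^ 2 / L

private theorem h60_thr_pos {l₀ L : ℝ} (hl : 0 < l₀) (hlL : l₀ ≤ L) (r : ℕ) :
    0 < h60_thr l₀ L r ∧ h60_thr l₀ L r ≤ l₀ := by
  have hL : 0 < L := hl.trans_le hlL
  induction r with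
  | zero => exact ⟨hl, le_rfl⟩
  | succ r ih =>
    refine ⟨?_, ?_⟩
    · have := ih.1
      show 0 < h60_thr l₀ L r ^ 2 / L
      positivity
    · show h60_thr l₀ L r ^ 2 / L ≤ l₀
      rw [div_le_iff₀ hL]
      nlinarith [ih.1, ih.2]

private def h60_Good (l₀ L G : ℝ) {H : Type} (T : Tri H) : Prop :=
  ∃ (g : ℂ ≃ₗ[ℝ] ℂ) (_ : LinearMap.det (g : ℂ →ₗ[ℝ] ℂ) = 1) (E : Set H) (Z : Tri H),
    (∀ z, ‖g z‖ ≤ G * ‖z‖) ∧ (∀ z, ‖g.symm z‖ ≤ G * ‖z‖) ∧ Reach ∅ T Z ∧
    Tri.IsEdgeSet Z E ∧ (∀ h ∈ E, ‖g (Z.vec h)‖ ≤ l₀) ∧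
    ∀ Z', Reach E Z Z' → ∀ h, h ∉ E → L < ‖g (Z'.vec h)‖

private theorem h60_Good_mono {l₀ L G G' : ℝ} (hG : G ≤ G') {H : Type} {T : Tri H}
    (h : h60_Good l₀ L G T) : h60_Good l₀ L G' T := by
  obtain ⟨g, hg, E, Z, h1, h2, h3, h4, h5, h6⟩ := h
  exact ⟨g, hg, E, Z, fun z => (h1 z).trans (mul_le_mul_of_nonneg_right hG (norm_nonneg z)),
    fun z => (h2 z).trans (mul_le_mul_of_nonneg_right hG (norm_nonneg z)), h3, h4, h5, h6⟩

private def h60_Pre (N : ℕ) (l G : ℝ) (r : ℕ) {H : Type} (T : Tri H) : Prop :=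
  ∃ (g : ℂ ≃ₗ[ℝ] ℂ) (_ : LinearMap.det (g : ℂ →ₗ[ℝ] ℂ) = 1) (E : Set H) (Z : Tri H),
    (∀ z, ‖g z‖ ≤ G * ‖z‖) ∧ (∀ z, ‖g.symm z‖ ≤ G * ‖z‖) ∧ Reach ∅ T Z ∧
    Tri.IsEdgeSet Z E ∧ (∀ h ∈ E, ‖g (Z.vec h)‖ ≤ l) ∧ N ≤ r + E.ncard

private theorem h60_cr_le (u w : ℂ) : cr u w ≤ ‖u‖ * ‖w‖ := by
  apply le_of_sq_le_sq _ (by positivity)
  rw [mul_pow, h60_norm_sq, h60_norm_sq]
  unfold cr
  nlinarith [sq_nonneg (u.re * w.re + u.im * w.im)]

private theorem h60_step (N : ℕ) {l₀ L a : ℝ} (hl : 0 < l₀) (hlL : l₀ ≤ L)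
    (ha : N * l₀ ^ 2 < a) (r : ℕ) : ∀ G : ℝ, 0 < G → ∃ G' : ℝ, 0 < G' ∧
      ∀ (H : Type) [Fintype H] (T : Tri H), Fintype.card H = N → a ≤ ∑ h, ar T h →
        h60_Pre N (h60_thr l₀ L r) G r T → h60_Good l₀ L G' T := by
  have hL : 0 < L := hl.trans_le hlL
  induction r with
  | zero =>
    intro G hG
    refine ⟨G, hG, ?_⟩
    intro H _ T hN haT hP
    exfalso
    obtain ⟨g, hg, E, Z, -, -, h3, -, h5, h6⟩ := hP
    have hE : E = Set.univ := by
      apply Set.eq_of_subset_of_ncard_le (Set.subset_univ _)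
      rw [Set.ncard_univ, Nat.card_eq_fintype_card, hN]
      omega
    have h7 : ∀ h, ar Z h ≤ l₀ ^ 2 := by
      intro h
      have e1 := cr_map g (Z.vec h) (Z.vec (Z.next h))
      rw [hg, one_mul] at e1
      unfold ar
      rw [← e1]
      refine (h60_cr_le _ _).trans ?_
      have b1 : ‖g (Z.vec h)‖ ≤ l₀ := h5 h (by rw [hE]; trivial)
      have b2 : ‖g (Z.vec (Z.next h))‖ ≤ l₀ := h5 _ (by rw [hE]; trivial)
      rw [pow_two]
      exact mul_le_mul b1 b2 (norm_nonneg _) hl.le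
    have h8 : ∑ h, ar Z h ≤ N * l₀ ^ 2 := by
      refine (Finset.sum_le_sum fun h _ => h7 h).trans ?_
      rw [Finset.sum_const, Finset.card_univ, hN, nsmul_eq_mul]
    rw [sum_ar_reach h3] at h8
    linarith
  | succ r ih =>
    intro G hG
    obtain ⟨ht0, htl⟩ := h60_thr_pos hl hlL r
    obtain ⟨hs0, hsl⟩ := h60_thr_pos hl hlL (r + 1)
    set c : ℝ := h60_thr l₀ L r / L with hc
    have hc0 : 0 < c := by positivity
    have hc1 : c ≤ 1 := by rw [hc, div_le_one hL]; linarith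
    have hcL : c * L = h60_thr l₀ L r := by rw [hc]; field_simp
    have hcs : 1 / c * h60_thr l₀ L (r + 1) = h60_thr l₀ L r := by
      have : h60_thr l₀ L (r + 1) = h60_thr l₀ L r ^ 2 / L := rfl
      rw [this, hc]; field_simp
    obtain ⟨G', hG', hI⟩ := ih ((1 / c) * G) (by positivity)
    refine ⟨max G G', lt_max_of_lt_left hG, ?_⟩
    intro H _ T hN haT hP
    obtain ⟨g, hg, E, Z, h1, h2, h3, h4, h5, h6⟩ := hP
    by_cases hgap : ∀ Z', Reach E Z Z' → ∀ h, h ∉ E → L < ‖g (Z'.vec h)‖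
    · exact h60_Good_mono (le_max_left _ _)
        ⟨g, hg, E, Z, h1, h2, h3, h4, fun h hh => (h5 h hh).trans hsl, hgap⟩
    · push Not at hgap
      obtain ⟨Z', hR, h, hh, hle⟩ := hgap
      have hu : g (Z'.vec h) ≠ 0 := by
        intro h0
        exact Z'.vec_ne_zero h (g.map_eq_zero_iff.1 h0)
      obtain ⟨k, hk, k1, k2, k3⟩ := h60_contract hu hc0 hc1
      refine h60_Good_mono (le_max_right _ _) (hI H T hN haT
        ⟨g.trans k, ?_, insert h (insert (Z'.opp h) E), Z', ?_, ?_, ?_, ?_, ?_, ?_⟩)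
      · rw [LinearEquiv.coe_trans, LinearMap.det_comp, hk, hg, one_mul]
      · intro z
        have e1 : (g.trans k) z = k (g z) := rfl
        rw [e1, mul_assoc]
        exact (k1 _).trans (mul_le_mul_of_nonneg_left (h1 z) (by positivity))
      · intro z
        have e1 : (g.trans k).symm z = g.symm (k.symm z) := rfl
        rw [e1]
        refine (h2 _).trans ((mul_le_mul_of_nonneg_left (k2 z) hG.le).trans (le_of_eq ?_))
        ring
      · exact h60_reach_trans h3 (h60_reach_mono (Set.empty_subset _) hR)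
      · intro x
        have ho : Z'.opp = Z.opp := reach_opp hR
        have h4x := h4 x
        simp only [Set.mem_insert_iff]
        constructor
        · rintro (rfl | rfl | hx)
          · exact Or.inr (Or.inl rfl)
          · exact Or.inl (Z'.opp2 h)
          · exact Or.inr (Or.inr (by rw [ho]; exact h4x.1 hx))
        · rintro (hx | hx | hx)
          · exact Or.inr (Or.inl (by rw [← hx, Z'.opp2]))
          · exact Or.inl (Z'.opp.injective hx)
          · exact Or.inr (Or.inr (h4x.2 (by rw [← ho]; exact hx)))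
      · intro x hx
        have e1 : (g.trans k) (Z'.vec x) = k (g (Z'.vec x)) := rfl
        have hkey : ‖k (g (Z'.vec h))‖ ≤ h60_thr l₀ L r := by
          rw [k3, ← hcL]
          exact mul_le_mul_of_nonneg_left hle hc0.le
        rw [e1]
        simp only [Set.mem_insert_iff] at hx
        rcases hx with rfl | rfl | hx
        · exact hkey
        · rw [Z'.vec_opp, map_neg, map_neg, norm_neg]
          exact hkey
        · rw [h60_reach_vec hR hx, ← hcs]
          exact (k1 _).trans (mul_le_mul_of_nonneg_left (h5 x hx) (by positivity))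
      · have e1 : (insert h E).ncard = E.ncard + 1 := Set.ncard_insert_of_notMem hh (Set.toFinite _)
        have e2 : (insert h E).ncard ≤ (insert h (insert (Z'.opp h) E)).ncard :=
          Set.ncard_le_ncard (Set.insert_subset_insert (Set.subset_insert _ _)) (Set.toFinite _)
        omega

theorem exists_gap (N : ℕ) {K l₀ L a : ℝ} (hK : 0 < K) (hl : 0 < l₀) (hlL : l₀ ≤ L)
    (ha : N * l₀ ^ 2 < a) : ∃ G : ℝ, 0 < G ∧ ∀ (H : Type) [Fintype H] (T : Tri H) (e₀ : H),
      Fintype.card H = N → ‖T.vec e₀‖ ≤ K → a ≤ ∑ h, Pool.Agent.Helper58.TF.ar T h →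
      ∃ (g : ℂ ≃ₗ[ℝ] ℂ) (_ : LinearMap.det (g : ℂ →ₗ[ℝ] ℂ) = 1) (E : Set H) (Z : Tri H),
        (∀ z, ‖g z‖ ≤ G * ‖z‖) ∧ (∀ z, ‖g.symm z‖ ≤ G * ‖z‖) ∧ Reach ∅ T Z ∧
        Tri.IsEdgeSet Z E ∧ (∀ h ∈ E, ‖g (Z.vec h)‖ ≤ l₀) ∧
        ∀ Z', Reach E Z Z' → ∀ h, h ∉ E → L < ‖g (Z'.vec h)‖ := by
  obtain ⟨ht0, htl⟩ := h60_thr_pos hl hlL N
  set c : ℝ := min 1 (h60_thr l₀ L N / K) with hc
  have hc0 : 0 < c := lt_min one_pos (by positivity)
  have hc1 : c ≤ 1 := min_le_left _ _
  have hcK : c * K ≤ h60_thr l₀ L N := by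
    have : c ≤ h60_thr l₀ L N / K := min_le_right _ _
    rwa [le_div_iff₀ hK] at this
  obtain ⟨G', hG', hI⟩ := h60_step N hl hlL ha N (1 / c) (by positivity)
  refine ⟨G', hG', ?_⟩
  intro H _ T e₀ hN hT haT
  obtain ⟨k, hk, k1, k2, k3⟩ := h60_contract (T.vec_ne_zero e₀) hc0 hc1
  have hkey : ‖k (T.vec e₀)‖ ≤ h60_thr l₀ L N := by
    rw [k3]
    exact (mul_le_mul_of_nonneg_left hT hc0.le).trans hcK
  refine hI H T hN haT ⟨k, hk, {e₀, T.opp e₀}, T, k1, k2, Reach.refl, ?_, ?_, Nat.le_add_right _ _⟩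
  · intro x
    simp only [Set.mem_insert_iff, Set.mem_singleton_iff]
    constructor
    · rintro (rfl | rfl)
      · exact Or.inr rfl
      · exact Or.inl (T.opp2 e₀)
    · rintro (hx | hx)
      · exact Or.inr (by rw [← hx, T.opp2])
      · exact Or.inl (T.opp.injective hx)
  · intro x hx
    simp only [Set.mem_insert_iff, Set.mem_singleton_iff] at hx
    rcases hx with rfl | rfl
    · exact hkey
    · rw [T.vec_opp, map_neg, norm_neg]
      exact hkey

end Pool.Agent.Helper58.TF
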