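import Pool.Agent.Helper58.TF.StripG
import Pool.Agent.Helper58.TF.GapG
import Pool.Agent.Helper72.TF.BI
import Pool.Agent.Helper19.TF.CylA

/-!
# MP_e98778_an (full), module G: every fat surface has a cylinder (CYL)
-/

set_option autoImplicit false

open MeasureTheory Set Pool.Agent.Helper87.LS Pool.Agent.Helper79.G Pool.Agent.Helper72.TF
  Pool.Agent.Helper86.TF

namespace Pool.Agent.Helper58.TF

theorem reach_mono {H : Type} {E E' : Set H} (hE : E ⊆ E') {T Z : Tri H} (h : Reach E' T Z) :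
    Reach E T Z := by
  induction h with
  | refl => exact Reach.refl
  | flip e he h1 h2 _ ih => exact Reach.flip e he (fun h => h1 (hE h)) (fun h => h2 (hE h)) ih

theorem reach_trans {H : Type} {E : Set H} {T Z W : Tri H} (h1 : Reach E T Z) (h2 : Reach E Z W) :
    Reach E T W := by
  induction h2 with
  | refl => exact h1
  | flip e he h3 h4 _ ih => exact Reach.flip e he h3 h4 ih

/-- Darts in `E` keep their vectors. -/
theorem reach_vec {H : Type} {E : Set H} {T Z : Tri H} (h : Reach E T Z) {k : H} (hk : k ∈ E) :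
    Z.vec k = T.vec k := by
  induction h with
  | refl => rfl
  | @flip T' e he h1 h2 _ ih =>
    rw [← ih]
    exact T'.flipVec_ne (fun h => h1 (h ▸ hk)) (fun h => h2 (h ▸ hk))

theorem cyl_mono {S : Surf} {w : ℂ} {a b : ℝ} (hab : a ≤ b) (h : Pool.Agent.TF.I.Cyl S w b) :
    Pool.Agent.TF.I.Cyl S w a := by
  obtain ⟨ζ, h1, h2, h3⟩ := h
  refine ⟨ζ, h1, fun c d hc hcd hd => h2 c d hc hcd (hd.trans hab), fun V => ?_⟩
  filter_upwards [h3 V] with x hx k1 k2 k3 k4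
  exact hx k1 (k2.trans_le hab) k3 (k4.trans_le hab)

theorem ar_ofSurf (Y : Surf) (h : Fin Y.n × Fin 3) :
    Pool.Agent.Helper58.TF.ar (ofSurf Y) h = Y.area2 h.1 := Y.cr_vec_succ h.1 h.2

/-- **CYL**: a fat surface has a cylinder of bounded length and area bounded below. -/
theorem cyl_fat (n : ℕ) (K : ℝ) : ∃ G a : ℝ, 0 < G ∧ 0 < a ∧ ∀ Y : Surf, Y.n = n → Connected Y →
    (∀ e, ‖Y.vec e‖ ≤ K) → (∀ i, 1 / K ≤ Y.area2 i) →
      ∃ w : ℂ, w ≠ 0 ∧ ‖w‖ ≤ G ∧ Pool.Agent.TF.I.Cyl Y w a := by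
  classical
  rcases le_or_gt K 0 with hK | hK
  · refine ⟨1, 1, one_pos, one_pos, fun Y _ _ h1 _ => ?_⟩
    exfalso
    have h2 := Y.vec_ne_zero (⟨0, Y.pos⟩, 0)
    have h3 := norm_pos_iff.mpr h2
    linarith [h1 (⟨0, Y.pos⟩, 0)]
  rcases Nat.eq_zero_or_pos n with hn | hn
  · refine ⟨1, 1, one_pos, one_pos, fun Y hY _ _ _ => ?_⟩
    exfalso
    have := Y.pos
    omega
  set N : ℕ := 3 * n with hN
  have hN1 : (1 : ℝ) ≤ N := by
    have : 1 ≤ N := by omega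
    exact_mod_cast this
  have hN0 : (0 : ℝ) < N := by linarith
  set l₀ : ℝ := min (3 * K / 10) (1 / (4 * N * (K + 1))) with hl₀
  have hl0 : 0 < l₀ := lt_min (by positivity) (by positivity)
  set L : ℝ := 3 * N * K with hL
  have hL0 : 0 < L := by positivity
  have hl1 : l₀ ≤ 3 * K / 10 := min_le_left _ _
  have hl2 : l₀ ≤ 1 / (4 * N * (K + 1)) := min_le_right _ _
  have hlL : l₀ ≤ L := by
    refine hl1.trans ?_
    rw [hL]; nlinarith
  have hNl : N * l₀ ≤ 1 / (4 * (K + 1)) := by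
    calc N * l₀ ≤ N * (1 / (4 * N * (K + 1))) := mul_le_mul_of_nonneg_left hl2 hN0.le
      _ = 1 / (4 * (K + 1)) := by field_simp
  have hNl2 : (N * l₀) ^ 2 ≤ 1 / (16 * K) := by
    have h1 : (N * l₀) ^ 2 ≤ (1 / (4 * (K + 1))) ^ 2 := pow_le_pow_left₀ (by positivity) hNl 2
    refine h1.trans ?_
    rw [div_pow, one_pow, div_le_div_iff₀ (by positivity) (by positivity)]
    nlinarith
  have hl3 : l₀ ^ 2 < 1 / K := by
    have h1 : l₀ ^ 2 ≤ (N * l₀) ^ 2 := by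
      apply pow_le_pow_left₀ hl0.le
      nlinarith
    have h2 : 1 / (16 * K) < 1 / K := by
      apply one_div_lt_one_div_of_lt hK; linarith
    linarith
  have ha : N * l₀ ^ 2 < N / K := by
    rw [div_eq_mul_one_div]
    exact mul_lt_mul_of_pos_left hl3 hN0
  obtain ⟨G, hG, hgap⟩ := exists_gap N (K := K) (l₀ := l₀) (L := L) (a := N / K) hK hl0 hlL ha
  refine ⟨G * (N * l₀), 1 / (4 * K), by positivity, by positivity, ?_⟩
  intro Y hYn _ hYK hYa
  have hcard : Fintype.card (Fin Y.n × Fin 3) = N := by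
    rw [Fintype.card_prod, Fintype.card_fin, Fintype.card_fin, hYn, hN]; ring
  have hne : Nonempty (Fin Y.n × Fin 3) := ⟨(⟨0, Y.pos⟩, 0)⟩
  have hsum1 : (N : ℝ) / K ≤ ∑ h, Pool.Agent.Helper58.TF.ar (ofSurf Y) h := by
    have h1 : ∑ _h : Fin Y.n × Fin 3, (1 / K) ≤ ∑ h, Pool.Agent.Helper58.TF.ar (ofSurf Y) h :=
      Finset.sum_le_sum fun h _ => by rw [ar_ofSurf]; exact hYa _
    rw [Finset.sum_const, Finset.card_univ, hcard, nsmul_eq_mul] at h1
    rw [div_eq_mul_one_div]; exact h1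
  have hsum2 : ∑ h, Pool.Agent.Helper58.TF.ar (ofSurf Y) h ≤ N * K ^ 2 := by
    have h1 : ∑ h, Pool.Agent.Helper58.TF.ar (ofSurf Y) h ≤ ∑ _h : Fin Y.n × Fin 3, K ^ 2 :=
      Finset.sum_le_sum fun h _ => by
        refine (le_abs_self _).trans ((abs_cr_le _ _).trans ?_)
        have a1 := hYK h
        have a2 : ‖(ofSurf Y).vec ((ofSurf Y).next h)‖ ≤ K := hYK _
        calc _ ≤ K * K := mul_le_mul a1 a2 (norm_nonneg _) hK.le
          _ = K ^ 2 := by ring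
    rw [Finset.sum_const, Finset.card_univ, hcard, nsmul_eq_mul] at h1
    exact h1
  obtain ⟨g, hg, E, Z, hg1, hg2, hreach, hES, hshort, hlong⟩ :=
    hgap (Fin Y.n × Fin 3) (ofSurf Y) (⟨0, Y.pos⟩, 0) hcard (hYK _) hsum1
  obtain ⟨Z1, hZ1, hdel⟩ := exists_locDel (act Z g hg) E
  obtain ⟨Z2, hZ2, rfl⟩ := reach_act' g hg hZ1
  have hopp : Z2.opp = Z.opp := reach_opp hZ2
  have hEZ1 : Tri.IsEdgeSet (act Z2 g hg) E := by
    intro h
    show h ∈ E ↔ Z2.opp h ∈ E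
    rw [hopp]; exact hES h
  have hsh : ∀ h ∈ E, ‖(act Z2 g hg).vec h‖ ≤ l₀ := by
    intro h hh
    show ‖g (Z2.vec h)‖ ≤ l₀
    rw [reach_vec hZ2 hh]
    exact hshort h hh
  have hlg : ∀ h, h ∉ E → L < ‖(act Z2 g hg).vec h‖ := fun h hh => hlong Z2 hZ2 h hh
  have hsumZ : ∑ h, Pool.Agent.Helper58.TF.ar (act Z2 g hg) h =
      ∑ h, Pool.Agent.Helper58.TF.ar (ofSurf Y) h := by
    have h1 : ∑ h, Pool.Agent.Helper58.TF.ar (act Z2 g hg) h =
        ∑ h, Pool.Agent.Helper58.TF.ar Z2 h := Finset.sum_congr rfl fun h _ => by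
      show cr (g _) (g _) = _
      rw [cr_map, hg, one_mul]; rfl
    rw [h1, sum_ar_reach hZ2, sum_ar_reach hreach]
  have hAr : ∀ h, 8 * Pool.Agent.Helper58.TF.ar (act Z2 g hg) h ≤ L ^ 2 := by
    intro h
    have h1 := three_ar_le (act Z2 g hg) h
    rw [hsumZ] at h1
    have h2 : L ^ 2 = 9 * (N * N) * K ^ 2 := by rw [hL]; ring
    have h3 : (N : ℝ) * K ^ 2 ≤ N * N * K ^ 2 := by
      apply mul_le_mul_of_nonneg_right _ (by positivity)
      nlinarith
    nlinarith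
  have hone : OneE (act Z2 g hg) E := by
    refine ⟨hEZ1, fun h hh => ?_⟩
    refine one_short (E := E) hEZ1 hl0.le (L := L) ?_ ?_ hL0 ?_ hAr ?_ h hh
    · intro h hh
      rw [sq_eq]; exact pow_le_pow_left₀ (norm_nonneg _) (hsh h hh) 2
    · intro h hh
      rw [sq_eq]; exact pow_lt_pow_left₀ (hlg h hh) hL0.le (by norm_num)
    · rw [hcard, hL]
      have := mul_le_mul_of_nonneg_left hl1 (by positivity : (0 : ℝ) ≤ 10 * N)
      linarith
    · intro e he
      apply hdel e he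
      show Z.opp e ∉ E
      exact fun hc => he ((hES e).mpr hc)
  -- realisation
  obtain ⟨S1, σ, hσ⟩ := exists_surf (act Z2 g hg)
  set E1 : Set (Fin S1.n × Fin 3) := {k | σ.symm k ∈ E} with hE1
  have hn' : ∀ k, σ.symm ((ofSurf S1).next k) = (act Z2 g hg).next (σ.symm k) := by
    intro k
    rw [Equiv.symm_apply_eq, hσ.next, Equiv.apply_symm_apply]
  have ho' : ∀ k, σ.symm ((ofSurf S1).opp k) = (act Z2 g hg).opp (σ.symm k) := by
    intro k
    rw [Equiv.symm_apply_eq, hσ.opp, Equiv.apply_symm_apply]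
  have hv' : ∀ k, (ofSurf S1).vec k = (act Z2 g hg).vec (σ.symm k) := by
    intro k
    have := hσ.vec (σ.symm k)
    rwa [Equiv.apply_symm_apply] at this
  have hp' : ∀ k, σ.symm ((ofSurf S1).prev k) = (act Z2 g hg).prev (σ.symm k) := by
    intro k
    unfold Tri.prev
    rw [hn', hn']
  have hone1 : OneE (ofSurf S1) E1 := by
    refine ⟨fun k => ?_, fun k hk => ?_⟩
    · show σ.symm k ∈ E ↔ σ.symm ((ofSurf S1).opp k) ∈ E
      rw [ho']; exact hEZ1 _
    · have := hone.2 (σ.symm k) hk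
      rw [← hn', ← hp'] at this
      exact this
  have hcard1 : Fintype.card (Fin S1.n × Fin 3) = N := by
    rw [← Fintype.card_congr σ, hcard]
  have hsh1 : ∀ k ∈ E1, ‖S1.vec k‖ ≤ l₀ := by
    intro k hk
    have h1 : S1.vec k = (act Z2 g hg).vec (σ.symm k) := hv' k
    rw [h1]; exact hsh _ hk
  -- a fat triangle outside `E`
  obtain ⟨h1, hh1⟩ : ∃ h, 1 / K ≤ Pool.Agent.Helper58.TF.ar (act Z2 g hg) h := by
    by_contra hc
    push Not at hc
    have h2 : ∑ h, Pool.Agent.Helper58.TF.ar (act Z2 g hg) h <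
        ∑ _h : Fin Y.n × Fin 3, (1 / K) :=
      Finset.sum_lt_sum_of_nonempty Finset.univ_nonempty fun h _ => hc h
    rw [Finset.sum_const, Finset.card_univ, hcard, nsmul_eq_mul, hsumZ] at h2
    rw [div_eq_mul_one_div] at hsum1
    linarith
  have hnotE : h1 ∉ E ∨ (act Z2 g hg).next h1 ∉ E := by
    by_contra hc
    push Not at hc
    have h2 : Pool.Agent.Helper58.TF.ar (act Z2 g hg) h1 ≤ l₀ * l₀ := by
      refine (le_abs_self _).trans ((abs_cr_le _ _).trans ?_)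
      exact mul_le_mul (hsh _ hc.1) (hsh _ hc.2) (norm_nonneg _) hl0.le
    nlinarith
  obtain ⟨h0, hh0, har0⟩ : ∃ h0, h0 ∉ E ∧ 1 / K ≤ Pool.Agent.Helper58.TF.ar (act Z2 g hg) h0 := by
    rcases hnotE with h2 | h2
    · exact ⟨h1, h2, hh1⟩
    · exact ⟨_, h2, by rw [ar_next]; exact hh1⟩
  have har1 : 1 / K ≤ Pool.Agent.Helper58.TF.ar (ofSurf S1) (σ h0) := by
    have : Pool.Agent.Helper58.TF.ar (ofSurf S1) (σ h0) =
        Pool.Agent.Helper58.TF.ar (act Z2 g hg) h0 := by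
      unfold Pool.Agent.Helper58.TF.ar
      rw [← hσ.next, hσ.vec, hσ.vec]
    rw [this]; exact har0
  have h5 : 5 * (N * l₀) ^ 2 ≤ 5 / (16 * K) := by
    have : 5 / (16 * K) = 5 * (1 / (16 * K)) := by ring
    rw [this]; linarith
  have h6 : 5 / (16 * K) < 1 / K := by
    rw [div_lt_div_iff₀ (by positivity) hK]; linarith
  obtain ⟨X, hX1, hX2⟩ := exists_strip S1 hone1 hl0.le hsh1 (σ h0)
    (by show σ.symm (σ h0) ∉ E; rw [Equiv.symm_apply_apply]; exact hh0) har1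
    (by rw [hcard1]; linarith)
  rw [hcard1] at hX1 hX2
  have hX3 : 1 / (4 * K) ≤ X.hi - X.lo := by
    refine le_trans ?_ hX2
    have h7 : 1 / (4 * K) ≤ (1 / K - 5 / (16 * K)) / 2 := by
      have : (1 / K - 5 / (16 * K)) / 2 = 11 / (32 * K) := by field_simp; ring
      rw [this, div_le_div_iff₀ (by positivity) (by positivity)]
      linarith
    linarith
  have hw : X.w ≠ 0 := by
    intro h0
    have := X.hv 0
    rw [h0] at this
    simp [cr] at this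
  have hiso : LinIso Y S1 g := linIso_of_reach Y S1
    (reach_trans hreach (reach_mono (Set.empty_subset _) hZ2)) g hg σ hσ
  refine ⟨g.symm X.w, ?_, ?_, ?_⟩
  · intro h0
    exact hw (by simpa using h0)
  · exact (hg2 _).trans (mul_le_mul_of_nonneg_left hX1 hG.le)
  · exact Pool.Agent.TF.I.cyl_map hg hiso (cyl_mono hX3 X.cyl)

/-- CYL in the form of helper19's `mod_I`. -/
theorem cyl_all (n : ℕ) : ∀ K : ℝ, ∃ G a : ℝ, 0 < a ∧ ∀ Y : Surf, Y.n = n → Connected Y →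
    (∀ e, ‖Y.vec e‖ ≤ K) → (∀ i, 1 / K ≤ Y.area2 i) →
      ∃ w : ℂ, w ≠ 0 ∧ ‖w‖ ≤ G ∧ Pool.Agent.TF.I.Cyl Y w a := by
  intro K
  obtain ⟨G, a, _, ha, h⟩ := cyl_fat n K
  exact ⟨G, a, ha, h⟩

/-- CYL in the form of helper72's Skel: a set of points on closed geodesics. -/
theorem cyl_straight (n : ℕ) (K : ℝ) : ∃ G a : ℝ, 0 < a ∧ ∀ Y : Surf, Y.n = n → Connected Y →
    (∀ e, ‖Y.vec e‖ ≤ K) → (∀ i, 1 / K ≤ Y.area2 i) →
      ∃ w : ℂ, w ≠ 0 ∧ ‖w‖ ≤ G ∧ a ≤ Y.μ.real {x | Y.Straight w x x} := by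
  obtain ⟨G, a, hG, ha, h⟩ := cyl_fat n K
  refine ⟨G, a, ha, fun Y h1 h2 h3 h4 => ?_⟩
  obtain ⟨w, hw0, hwG, ζ, hζ, hm, hF⟩ := h Y h1 h2 h3 h4
  refine ⟨w, hw0, hwG, ?_⟩
  have hm1 := hm 0 a le_rfl ha.le le_rfl
  rw [sub_zero] at hm1
  have hsub : {x | 0 < ζ x ∧ ζ x < a} ≤ᵐ[Y.μ] {x | Y.Straight w x x} := by
    have hD : ∀ᵐ x ∂Y.μ, x ∈ Y.D := ae_restrict_mem Y.measurableSet_D
    filter_upwards [hF 0, Y.ae_straight w, hD] with x hx hs hxD hxz
    obtain ⟨p1, p2⟩ := hxz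
    have hc0 : cr w 0 = 0 := by simp [cr]
    have h5 := (hx p1 p2 (by rw [hc0, add_zero]; exact p1) (by rw [hc0, add_zero]; exact p2)).1
    rw [zero_add] at h5
    have h6 : Y.F 0 x = x := by
      obtain ⟨i, hi⟩ := Set.mem_iUnion.mp hxD
      have := Surf.Straight.hop (Y.hop_inside (v := 0) hi (by rw [add_zero]; exact hi))
      rw [add_zero] at this
      exact Surf.F_eq this
    rw [h5, h6] at hs
    exact hs
  have hfin : Y.μ {x | Y.Straight w x x} ≠ ⊤ := by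
    have : Y.μ {x | Y.Straight w x x} ≤ Y.μ univ := measure_mono (Set.subset_univ _)
    refine (this.trans_lt ?_).ne
    rw [Surf.μ, Measure.restrict_apply_univ]
    exact Y.volume_D_lt_top
  rw [← hm1]
  exact ENNReal.toReal_mono hfin (measure_mono_ae hsub)

end Pool.Agent.Helper58.TF
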