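import Pool.Agent.Helper58.TF.Strip
import Pool.Agent.Helper87.LS.AeS
import Pool.Agent.Helper87.LS.Plane
import Pool.Agent.Helper19.TF.Defs

/-!
# MP_e98778_an (full), module G: a strip is a cylinder

`StripD.cyl`: a developed strip with core vector `w` and band `(lo, hi)` gives
`Cyl Y w (hi - lo)` (the form of helper19's Defs).
-/

set_option autoImplicit false

open MeasureTheory Set Pool.Agent.Helper87.LS

namespace Pool.Agent.Helper58.TF

/-- Area of a parallelogram in the coordinates `w, v`. -/
theorem par_vol {w v : ℂ} (h : 0 < cr w v) (p : ℂ) {b1 b2 : ℝ} :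
    volume {z : ℂ | 0 < cr (z - p) v ∧ cr (z - p - w) v < 0 ∧ b1 < cr w z ∧ cr w z < b2} =
      ENNReal.ofReal (b2 - b1) := by
  set D := cr w v with hD
  let L : ℂ →ₗ[ℝ] ℂ :=
    { toFun := fun z => z.re • w + z.im • v
      map_add' := by intro x y; simp only [Complex.add_re, Complex.add_im, add_smul]; ring
      map_smul' := by
        intro r x
        simp only [Complex.smul_re, Complex.smul_im, smul_eq_mul, RingHom.id_apply, smul_add,
          mul_smul] }
  have hL : ∀ z, L z = z.re • w + z.im • v := fun z => rfl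
  have hdet : LinearMap.det L = D := by
    rw [det_eq_cr97, hL, hL]
    simp [hD]
  set β1 := (b1 - cr w p) / D with h1
  set β2 := (b2 - cr w p) / D with h2
  have hset : {z : ℂ | 0 < cr (z - p) v ∧ cr (z - p - w) v < 0 ∧ b1 < cr w z ∧ cr w z < b2} =
      (fun y => p + y) '' (L '' (Complex.measurableEquivRealProd ⁻¹' (Ioo 0 1 ×ˢ Ioo β1 β2))) := by
    ext z
    simp only [Set.mem_image, exists_exists_and_eq_and, Set.mem_preimage]
    constructor
    · rintro ⟨g1, g2, g3, g4⟩
      refine ⟨⟨cr (z - p) v / D, cr w (z - p) / D⟩, ?_, ?_⟩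
      · rw [Complex.measurableEquivRealProd_apply, Set.mem_prod]
        refine ⟨⟨div_pos g1 h, ?_⟩, ?_, ?_⟩
        · rw [div_lt_one h]
          have : cr (z - p - w) v = cr (z - p) v - D := by
            rw [hD]; simp only [cr, Complex.sub_re, Complex.sub_im]; ring
          linarith
        · simp only
          rw [h1, div_lt_div_iff_of_pos_right h, cr_sub_right]; linarith
        · simp only
          rw [h2, div_lt_div_iff_of_pos_right h, cr_sub_right]; linarith
      · rw [hL]
        have hD0 : D ≠ 0 := h.ne'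
        apply Complex.ext
        · simp only [Complex.add_re, Complex.smul_re, smul_eq_mul]
          field_simp
          rw [hD]
          simp only [cr, Complex.sub_re, Complex.sub_im]
          ring
        · simp only [Complex.add_im, Complex.smul_im, smul_eq_mul]
          field_simp
          rw [hD]
          simp only [cr, Complex.sub_re, Complex.sub_im]
          ring
    · rintro ⟨y, hy, rfl⟩
      rw [Complex.measurableEquivRealProd_apply, Set.mem_prod] at hy
      obtain ⟨⟨y1, y2⟩, y3, y4⟩ := hy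
      simp only at y1 y2 y3 y4
      have e1 : cr (p + L y - p) v = y.re * D := by
        rw [hL, hD]; simp only [cr, Complex.sub_re, Complex.sub_im, Complex.add_re, Complex.add_im,
          Complex.smul_re, Complex.smul_im, smul_eq_mul]; ring
      have e2 : cr (p + L y - p - w) v = (y.re - 1) * D := by
        rw [hL, hD]; simp only [cr, Complex.sub_re, Complex.sub_im, Complex.add_re, Complex.add_im,
          Complex.smul_re, Complex.smul_im, smul_eq_mul]; ring
      have e3 : cr w (p + L y) = cr w p + y.im * D := by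
        rw [hL, hD]; simp only [cr, Complex.add_re, Complex.add_im,
          Complex.smul_re, Complex.smul_im, smul_eq_mul]; ring
      rw [h1, div_lt_iff₀ h] at y3
      rw [h2, lt_div_iff₀ h] at y4
      refine ⟨?_, ?_, ?_, ?_⟩
      · rw [e1]; positivity
      · rw [e2]; exact mul_neg_of_neg_of_pos (by linarith) h
      · rw [e3]; linarith
      · rw [e3]; linarith
  rw [hset, Set.image_add_left, measure_preimage_add, Measure.addHaar_image_linearMap, hdet,
    Complex.volume_preserving_equiv_real_prod.measure_preimage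
      (measurableSet_Ioo.prod measurableSet_Ioo).nullMeasurableSet,
    Measure.volume_eq_prod, Measure.prod_prod, Real.volume_Ioo, Real.volume_Ioo, abs_of_pos h,
    sub_zero, ENNReal.ofReal_one, one_mul, ← ENNReal.ofReal_mul h.le]
  congr 1
  rw [h1, h2]
  field_simp
  ring

namespace StripD

variable {Y : Surf} (X : StripD Y)

theorem per_d' (i k : ℤ) : X.d (i + k * X.m) = X.d i := by
  induction k using Int.induction_on generalizing i with
  | zero => simp
  | succ k ih =>
    have e : i + (k + 1) * (X.m : ℤ) = i + k * X.m + X.m := by ring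
    rw [e, X.per_d, ih]
  | pred k ih =>
    have e : i + -k * (X.m : ℤ) = i + (-k - 1) * (X.m : ℤ) + X.m := by ring
    have := ih i
    rw [e, X.per_d] at this
    exact this

theorem per_p' (i k : ℤ) : X.p (i + k * X.m) = X.p i + k * X.w := by
  induction k using Int.induction_on generalizing i with
  | zero => simp
  | succ k ih =>
    have e : i + (k + 1) * (X.m : ℤ) = i + k * X.m + X.m := by ring
    rw [e, X.per_p, ih]
    push_cast; ring
  | pred k ih =>
    have e : i + -k * (X.m : ℤ) = i + (-k - 1) * (X.m : ℤ) + X.m := by ring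
    have := ih i
    rw [e, X.per_p] at this
    push_cast at this ⊢
    linear_combination this

theorem sg_shift (i k : ℤ) (z : ℂ) : X.sg (i + k * X.m) (z + k * X.w) = X.sg i z := by
  unfold sg v
  rw [X.per_p', X.per_d']
  congr 1; ring

theorem band_shift (z : ℂ) (k : ℤ) : z + k * X.w ∈ X.band ↔ z ∈ X.band := by
  have e : cr X.w (z + k * X.w) = cr X.w z := by
    have : ((k : ℤ) : ℂ) = ((k : ℝ) : ℂ) := by push_cast; rfl
    rw [this, cr_add_right, cr_mul_right, cr_self]; ring
  unfold band
  rw [Set.mem_setOf_eq, Set.mem_setOf_eq, e]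

theorem cell_shift {i : ℤ} {z : ℂ} (k : ℤ) (h : z ∈ X.cell i) :
    z + k * X.w ∈ X.cell (i + k * X.m) := by
  obtain ⟨h1, h2, h3⟩ := h
  refine ⟨(X.band_shift z k).mpr h1, ?_, ?_⟩
  · have e : i + k * (X.m : ℤ) - 1 = (i - 1) + k * X.m := by ring
    rw [e, X.sg_shift]; exact h2
  · rw [X.sg_shift]; exact h3

theorem dev_shift (i k : ℤ) (z : ℂ) : X.dev (i + k * X.m) (z + k * X.w) = X.dev i z := by
  unfold dev
  rw [X.per_p', X.per_d']
  ring

theorem sg_up' {i j : ℤ} {z : ℂ} (hz : z ∈ X.band) (hij : i ≤ j) (h : X.sg i z < 0) :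
    X.sg j z < 0 := by
  obtain ⟨n, rfl⟩ := Int.le.dest hij
  clear hij
  induction n with
  | zero => simpa using h
  | succ n ih =>
    have := X.sg_succ hz ih.le
    push_cast
    rw [← add_assoc]
    exact this

theorem sg_mul (i k : ℤ) (z : ℂ) : X.sg (i + k * X.m) z = X.sg i z - k * cr X.w (X.v i) := by
  have h := X.sg_shift i k (z - k * X.w)
  rw [sub_add_cancel] at h
  rw [h]
  unfold sg
  have : ((k : ℤ) : ℂ) = ((k : ℝ) : ℂ) := by push_cast; rfl
  rw [this]
  simp only [cr, Complex.sub_re, Complex.sub_im, Complex.re_ofReal_mul, Complex.im_ofReal_mul]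
  ring

/-- Every point of the band which is not on an edge line lies in a cell. -/
theorem exists_cell {z : ℂ} (hz : z ∈ X.band) (h0 : ∀ j, X.sg j z ≠ 0) : ∃ i, z ∈ X.cell i := by
  have hv := X.hv 0
  have hm : 0 < X.m := X.hm
  -- some index with negative value
  obtain ⟨k, hk⟩ : ∃ k : ℕ, X.sg 0 z < k * cr X.w (X.v 0) := by
    obtain ⟨k, hk⟩ := exists_nat_gt (X.sg 0 z / cr X.w (X.v 0))
    exact ⟨k, (div_lt_iff₀ hv).mp hk⟩
  obtain ⟨l, hl⟩ : ∃ l : ℕ, -X.sg 0 z < l * cr X.w (X.v 0) := by
    obtain ⟨k, hk⟩ := exists_nat_gt (-X.sg 0 z / cr X.w (X.v 0))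
    exact ⟨k, (div_lt_iff₀ hv).mp hk⟩
  have hneg : X.sg (0 + (k : ℤ) * X.m) z < 0 := by
    rw [X.sg_mul]; push_cast; linarith
  have hpos : 0 < X.sg (0 + (-(l : ℤ)) * X.m) z := by
    rw [X.sg_mul]; push_cast; linarith
  obtain ⟨i, hi1, hi2⟩ := Int.exists_greatest_of_bdd (P := fun i => 0 < X.sg i z)
    ⟨0 + (k : ℤ) * X.m, fun i hi => by
      by_contra hc
      push Not at hc
      have := X.sg_up' hz hc.le hneg
      linarith⟩ ⟨_, hpos⟩
  refine ⟨i + 1, hz, ?_, ?_⟩
  · rw [add_sub_cancel_right]; exact hi1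
  · rcases lt_trichotomy (X.sg (i + 1) z) 0 with h | h | h
    · exact h
    · exact absurd h (h0 _)
    · have := hi2 _ h
      omega

theorem cell_disjoint {i j : ℤ} (hij : i < j) {z : ℂ} (hi : z ∈ X.cell i) (hj : z ∈ X.cell j) :
    False := by
  have h1 := X.sg_down' hj.1 (by omega : i ≤ j - 1) hj.2.1
  linarith [hi.2.2]

/-- A point of the triangle of `d i` whose developed position is in the band is in the cell. -/
theorem tri_cell {i : ℤ} {x : ℂ} (hx : x ∈ tri (Y.P (X.d i).1))
    (hb : x - Y.P (X.d i).1 (X.d i).2 + X.p i ∈ X.band) :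
    x - Y.P (X.d i).1 (X.d i).2 + X.p i ∈ X.cell i := by
  refine ⟨hb, ?_, ?_⟩
  · obtain ⟨j, rfl⟩ : ∃ j, i = j + 1 := ⟨i - 1, by ring⟩
    rw [add_sub_cancel_right]
    have hg : Y.vec (Y.glue (X.d j)) = -X.v j := Y.vec_glue _
    have hd1 : (X.d (j + 1)).1 = (Y.glue (X.d j)).1 := by
      rcases X.step j with ⟨h, -⟩ | ⟨h, -⟩ <;> rw [h]
    have h2 : 0 < Y.ell (Y.glue (X.d j)) x := by
      rw [hd1] at hx
      exact hx (Y.glue (X.d j)).2
    have e : X.sg j (x - Y.P (X.d (j + 1)).1 (X.d (j + 1)).2 + X.p (j + 1)) =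
        Y.ell (Y.glue (X.d j)) x := by
      have e1 : x - Y.P (X.d (j + 1)).1 (X.d (j + 1)).2 + X.p (j + 1) - X.p j =
          x - Y.P (Y.glue (X.d j)).1 (Y.glue (X.d j)).2 - Y.vec (Y.glue (X.d j)) := by
        rcases X.step j with ⟨h3, h4⟩ | ⟨h3, h4⟩
        · have k1 : (Y.glue (X.d j)).2 + 1 + 1 = (Y.glue (X.d j)).2 + 2 := by
            generalize (Y.glue (X.d j)).2 = k; fin_cases k <;> rfl
          rw [h3, h4]
          simp only [Surf.vec, k1]
          ring
        · rw [h3, h4]
          simp only [Surf.vec]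
          ring
      unfold sg
      rw [e1, hg]
      have e2 : Y.ell (Y.glue (X.d j)) x =
          cr (Y.vec (Y.glue (X.d j))) (x - Y.P (Y.glue (X.d j)).1 (Y.glue (X.d j)).2) := rfl
      rw [e2, hg]
      simp only [cr, Complex.sub_re, Complex.sub_im, Complex.neg_re, Complex.neg_im]
      ring
    rw [e]; exact h2
  · have h2 : 0 < Y.ell (X.d i) x := hx (X.d i).2
    have e : X.sg i (x - Y.P (X.d i).1 (X.d i).2 + X.p i) = -Y.ell (X.d i) x := by
      unfold sg
      rw [add_sub_cancel_right, cr_swap]
      rfl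
    rw [e]; linarith

theorem measurable_sg (i : ℤ) : Measurable (X.sg i) := by
  have : Continuous (X.sg i) := by
    unfold sg cr
    fun_prop
  exact this.measurable

theorem measurable_crw : Measurable (fun z : ℂ => cr X.w z) := by
  have : Continuous (fun z : ℂ => cr X.w z) := by
    unfold cr
    fun_prop
  exact this.measurable

/-- The height of a point of the triangle of `d i`. -/
noncomputable def hgt (i : ℤ) (x : ℂ) : ℝ :=
  cr X.w (x - Y.P (X.d i).1 (X.d i).2 + X.p i) - X.lo

open Classical in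
/-- The height function on the surface. -/
noncomputable def zeta (x : ℂ) : ℝ :=
  ∑ i ∈ Finset.range X.m, (tri (Y.P (X.d i).1)).indicator (X.hgt i) x

theorem zeta_eq {i : ℕ} (hi : i < X.m) {x : ℂ} (hx : x ∈ tri (Y.P (X.d i).1)) :
    X.zeta x = X.hgt i x := by
  unfold zeta
  rw [Finset.sum_eq_single_of_mem i (Finset.mem_range.mpr hi)]
  · rw [Set.indicator_of_mem hx]
  · intro j hj hji
    rw [Finset.mem_range] at hj
    apply Set.indicator_of_notMem
    intro hx'
    have h1 : (X.d j).1 = (X.d i).1 := by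
      by_contra hne
      exact Set.disjoint_left.mp (Y.disj _ _ hne) hx' hx
    have := X.inj j i (by positivity) (by exact_mod_cast hj) (by positivity) (by exact_mod_cast hi) h1
    exact hji (by exact_mod_cast this)

theorem hgt_shift (i k : ℤ) (x : ℂ) : X.hgt (i + k * X.m) x = X.hgt i x := by
  unfold hgt
  rw [X.per_p', X.per_d']
  have : ((k : ℤ) : ℂ) = ((k : ℝ) : ℂ) := by push_cast; rfl
  rw [this, ← add_assoc, cr_add_right _ _ (((k : ℝ) : ℂ) * X.w), cr_mul_right, cr_self]
  ring

theorem exists_mod (j : ℤ) : ∃ (i : ℕ) (k : ℤ), i < X.m ∧ j = i + k * X.m := by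
  have hm : (0 : ℤ) < X.m := by exact_mod_cast X.hm
  refine ⟨(j % X.m).toNat, j / X.m, ?_, ?_⟩
  · have h1 := Int.emod_nonneg j hm.ne'
    have h2 := Int.emod_lt_of_pos j hm
    omega
  · rw [Int.toNat_of_nonneg (Int.emod_nonneg j hm.ne')]
    have := Int.emod_add_mul_ediv j X.m
    linarith [mul_comm (j / (X.m : ℤ)) (X.m : ℤ)]

theorem zeta_eq' (j : ℤ) {x : ℂ} (hx : x ∈ tri (Y.P (X.d j).1)) : X.zeta x = X.hgt j x := by
  obtain ⟨i, k, hi, rfl⟩ := X.exists_mod j
  rw [X.hgt_shift]
  rw [X.per_d'] at hx
  exact X.zeta_eq hi hx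

theorem zeta_pos {x : ℂ} (h : X.zeta x ≠ 0) : ∃ i : ℕ, i < X.m ∧ x ∈ tri (Y.P (X.d i).1) := by
  by_contra hc
  push Not at hc
  apply h
  unfold zeta
  apply Finset.sum_eq_zero
  intro i hi
  exact Set.indicator_of_notMem (hc i (Finset.mem_range.mp hi)) _

theorem measurable_zeta : Measurable X.zeta := by
  unfold zeta
  apply Finset.measurable_sum
  intro i _
  apply Measurable.indicator _ (Y.isOpen_tri _).measurableSet
  have : Continuous (X.hgt i) := by
    unfold hgt cr
    fun_prop
  exact this.measurable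

theorem v_ne (i : ℤ) : X.v i ≠ 0 := Y.vec_ne_zero _

/-- The edge lines are null sets. -/
theorem sg_null (j : ℤ) (q : ℂ) : volume {x : ℂ | X.sg j (x + q) = 0} = 0 := by
  have h := line_null (X.v_ne j) (X.p j - q) 0
  refine measure_mono_null ?_ h
  intro x hx
  have hx' : X.sg j (x + q) = 0 := hx
  unfold sg at hx'
  show cr (X.v j) (x - (X.p j - q)) = 0
  rw [cr_swap]
  have e : x - (X.p j - q) = x + q - X.p j := by ring
  rw [e, hx', neg_zero]

/-- **A strip is a cylinder.** -/
theorem cyl : Pool.Agent.TF.I.Cyl Y X.w (X.hi - X.lo) := by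
  refine ⟨X.zeta, X.measurable_zeta, ?_, ?_⟩
  · intro c d hc hcd hd
    set B : Set ℂ := {z | c + X.lo < cr X.w z ∧ cr X.w z < d + X.lo} with hB
    have hBb : B ⊆ X.band := by
      rintro z ⟨h1, h2⟩
      exact ⟨by linarith, by linarith⟩
    have hBm : MeasurableSet B :=
      (measurableSet_lt measurable_const X.measurable_crw).inter
        (measurableSet_lt X.measurable_crw measurable_const)
    have hcm : ∀ i, MeasurableSet (X.cell i) := by
      intro i
      have e : X.cell i = {z | X.lo < cr X.w z} ∩ {z | cr X.w z < X.hi} ∩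
          ({z | 0 < X.sg (i - 1) z} ∩ {z | X.sg i z < 0}) := by
        ext z; simp only [cell, band, Set.mem_setOf_eq, Set.mem_inter_iff]
      rw [e]
      exact ((measurableSet_lt measurable_const X.measurable_crw).inter
        (measurableSet_lt X.measurable_crw measurable_const)).inter
        ((measurableSet_lt measurable_const (X.measurable_sg _)).inter
          (measurableSet_lt (X.measurable_sg _) measurable_const))
    -- the set is a disjoint union of translates of `cell i ∩ B`
    have hA : {x | c < X.zeta x ∧ X.zeta x < d} = ⋃ i ∈ Finset.range X.m,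
        (fun x => x + (X.p i - Y.P (X.d i).1 (X.d i).2)) ⁻¹' (X.cell i ∩ B) := by
      ext x
      simp only [Set.mem_iUnion, Set.mem_preimage, Finset.mem_range, exists_prop]
      constructor
      · rintro ⟨h1, h2⟩
        obtain ⟨i, hi, hx⟩ := X.zeta_pos (by linarith : X.zeta x ≠ 0)
        have hz := X.zeta_eq hi hx
        have e : x + (X.p i - Y.P (X.d i).1 (X.d i).2) = x - Y.P (X.d i).1 (X.d i).2 + X.p i := by
          ring
        have hb : x - Y.P (X.d i).1 (X.d i).2 + X.p i ∈ B := by
          rw [hz] at h1 h2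
          unfold hgt at h1 h2
          exact ⟨by linarith, by linarith⟩
        exact ⟨i, hi, by rw [e]; exact X.tri_cell hx (hBb hb), by rw [e]; exact hb⟩
      · rintro ⟨i, hi, h1, h2⟩
        have hx := X.cell_tri h1
        have e : X.dev i (x + (X.p i - Y.P (X.d i).1 (X.d i).2)) = x := by
          unfold dev; ring
        rw [e] at hx
        have hz := X.zeta_eq hi hx
        have e2 : X.hgt i x = cr X.w (x + (X.p i - Y.P (X.d i).1 (X.d i).2)) - X.lo := by
          unfold hgt
          congr 2; ring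
        obtain ⟨h3, h4⟩ := h2
        show c < X.zeta x ∧ X.zeta x < d
        rw [hz, e2]
        exact ⟨by linarith, by linarith⟩
    have hAD : {x | c < X.zeta x ∧ X.zeta x < d} ⊆ Y.D := by
      rintro x ⟨h1, h2⟩
      obtain ⟨i, hi, hx⟩ := X.zeta_pos (by linarith : X.zeta x ≠ 0)
      exact Set.mem_iUnion.mpr ⟨_, hx⟩
    have hdisj : ∀ i ∈ Finset.range X.m, ∀ j ∈ Finset.range X.m, i ≠ j →
        Disjoint (X.cell i ∩ B) (X.cell j ∩ B) := by
      intro i _ j _ hij
      rw [Set.disjoint_left]
      rintro z ⟨h1, _⟩ ⟨h2, _⟩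
      rcases lt_or_gt_of_ne hij with h | h
      · exact X.cell_disjoint (by exact_mod_cast h) h1 h2
      · exact X.cell_disjoint (by exact_mod_cast h) h2 h1
    have hdisj2 : ∀ i ∈ Finset.range X.m, ∀ j ∈ Finset.range X.m, i ≠ j → Disjoint
        ((fun x => x + (X.p i - Y.P (X.d i).1 (X.d i).2)) ⁻¹' (X.cell i ∩ B))
        ((fun x => x + (X.p j - Y.P (X.d j).1 (X.d j).2)) ⁻¹' (X.cell j ∩ B)) := by
      intro i hi j hj hij
      rw [Set.disjoint_left]
      intro x h1 h2
      have hx1 := X.cell_tri h1.1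
      have hx2 := X.cell_tri h2.1
      have e1 : X.dev i (x + (X.p i - Y.P (X.d i).1 (X.d i).2)) = x := by unfold dev; ring
      have e2 : X.dev j (x + (X.p j - Y.P (X.d j).1 (X.d j).2)) = x := by unfold dev; ring
      rw [e1] at hx1
      rw [e2] at hx2
      have h3 : (X.d i).1 = (X.d j).1 := by
        by_contra hne
        exact Set.disjoint_left.mp (Y.disj _ _ hne) hx1 hx2
      rw [Finset.mem_range] at hi hj
      have := X.inj i j (by positivity) (by exact_mod_cast hi) (by positivity) (by exact_mod_cast hj) h3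
      exact hij (by exact_mod_cast this)
    have hsum : volume {x | c < X.zeta x ∧ X.zeta x < d} =
        volume (⋃ i ∈ Finset.range X.m, (X.cell (i : ℤ) ∩ B)) := by
      rw [hA, measure_biUnion_finset, measure_biUnion_finset]
      · apply Finset.sum_congr rfl
        intro i _
        exact (measurePreserving_add_right volume _).measure_preimage
          ((hcm _).inter hBm).nullMeasurableSet
      · intro i hi j hj hij
        exact hdisj i hi j hj hij
      · intro i _; exact (hcm _).inter hBm
      · intro i hi j hj hij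
        exact hdisj2 i hi j hj hij
      · intro i _
        exact (measurable_id.add_const _) ((hcm _).inter hBm)
    have hpar : (⋃ i ∈ Finset.range X.m, (X.cell (i : ℤ) ∩ B) : Set ℂ) =ᵐ[volume]
        {z : ℂ | 0 < cr (z - X.p (-1)) (X.v (-1)) ∧ cr (z - X.p (-1) - X.w) (X.v (-1)) < 0 ∧
          c + X.lo < cr X.w z ∧ cr X.w z < d + X.lo} := by
      have hnull : ∀ᵐ z ∂(volume : Measure ℂ), ∀ j : ℤ, X.sg j z ≠ 0 := by
        rw [ae_all_iff]
        intro j
        have := X.sg_null j 0
        rw [ae_iff]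
        simpa using this
      have hlast : ∀ z, cr (z - X.p (-1) - X.w) (X.v (-1)) = X.sg ((X.m : ℤ) - 1) z := by
        intro z
        have h1 := X.sg_mul (-1) 1 z
        have h2 : (-1 : ℤ) + 1 * X.m = (X.m : ℤ) - 1 := by ring
        rw [h2] at h1
        rw [h1]
        unfold sg
        simp only [cr, Complex.sub_re, Complex.sub_im]
        push_cast; ring
      filter_upwards [hnull] with z hz
      apply propext
      constructor
      · intro hmem
        have hmem' : z ∈ ⋃ i ∈ Finset.range X.m, (X.cell (i : ℤ) ∩ B) := hmem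
        simp only [Set.mem_iUnion, Finset.mem_range, exists_prop] at hmem'
        obtain ⟨i, hi, h1, h2⟩ := hmem'
        refine ⟨?_, ?_, h2.1, h2.2⟩
        · exact X.sg_down' h1.1 (by omega : (-1 : ℤ) ≤ (i : ℤ) - 1) h1.2.1
        · rw [hlast]
          exact X.sg_up' h1.1 (by omega : (i : ℤ) ≤ (X.m : ℤ) - 1) h1.2.2
      · rintro ⟨h1, h2, h3, h4⟩
        rw [hlast] at h2
        have hzB : z ∈ B := ⟨h3, h4⟩
        obtain ⟨i, hi⟩ := X.exists_cell (hBb hzB) hz
        have hi0 : 0 ≤ i := by
          by_contra hneg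
          push Not at hneg
          have : 0 < X.sg i z := X.sg_down' hi.1 (by omega : i ≤ (-1 : ℤ)) h1
          linarith [hi.2.2]
        have him : i < X.m := by
          by_contra hge
          push Not at hge
          have : 0 < X.sg ((X.m : ℤ) - 1) z :=
            X.sg_down' hi.1 (by omega : (X.m : ℤ) - 1 ≤ i - 1) hi.2.1
          linarith
        obtain ⟨n, rfl⟩ := Int.eq_ofNat_of_zero_le hi0
        show z ∈ ⋃ i ∈ Finset.range X.m, (X.cell (i : ℤ) ∩ B)
        simp only [Set.mem_iUnion, Finset.mem_range, exists_prop]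
        exact ⟨n, by exact_mod_cast him, hi, hzB⟩
    have hvol : volume {x | c < X.zeta x ∧ X.zeta x < d} = ENNReal.ofReal (d - c) := by
      rw [hsum, measure_congr hpar, par_vol (X.hv (-1))]
      congr 1; ring
    rw [Measure.real, Surf.μ, Measure.restrict_eq_self _ hAD, hvol,
      ENNReal.toReal_ofReal (by linarith)]
  · intro V
    have hnull : ∀ᵐ x ∂Y.μ, ∀ i : ℕ, ∀ j : ℤ,
        X.sg j (x + (-Y.P (X.d i).1 (X.d i).2 + X.p i + V)) ≠ 0 := by
      apply ae_restrict_of_ae
      rw [ae_all_iff]
      intro i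
      rw [ae_all_iff]
      intro j
      rw [ae_iff]
      simpa using X.sg_null j _
    filter_upwards [hnull] with x hx h1 h2 h3 h4
    obtain ⟨i, hi, hxi⟩ := X.zeta_pos h1.ne'
    have hz := X.zeta_eq hi hxi
    set z : ℂ := x - Y.P (X.d i).1 (X.d i).2 + X.p i with hzdef
    have hzh : X.zeta x = cr X.w z - X.lo := hz
    have hzb : z ∈ X.band := ⟨by linarith, by linarith⟩
    have hcell := X.tri_cell hxi hzb
    have hdevz : X.dev i z = x := by rw [hzdef]; unfold dev; ring
    have hzVb : z + V ∈ X.band := by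
      have : cr X.w (z + V) = cr X.w z + cr X.w V := cr_add_right _ _ _
      exact ⟨by rw [this]; linarith, by rw [this]; linarith⟩
    obtain ⟨j, hj⟩ := X.exists_cell hzVb (by
      intro j
      have := hx i j
      have e : x + (-Y.P (X.d i).1 (X.d i).2 + X.p i + V) = z + V := by rw [hzdef]; ring
      rwa [e] at this)
    have s1 := X.straight hcell hj
    rw [hdevz, add_sub_cancel_left] at s1
    have hj2 := X.cell_shift 1 hj
    have s2 := X.straight hcell hj2
    rw [hdevz, X.dev_shift] at s2
    have e2 : z + V + ((1 : ℤ) : ℂ) * X.w - z = V + X.w := by push_cast; ring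
    rw [e2] at s2
    have f1 := Surf.F_eq s1
    have f2 := Surf.F_eq s2
    refine ⟨by rw [f1, f2], ?_⟩
    rw [f1]
    have hjt := X.cell_tri hj
    rw [X.zeta_eq' j hjt, hzh]
    have : X.hgt j (X.dev j (z + V)) = cr X.w (z + V) - X.lo := by
      unfold hgt dev
      congr 2; ring
    rw [this, cr_add_right]
    ring

end StripD

end Pool.Agent.Helper58.TF
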