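import Pool.Agent.Helper79.G.Flip

/-!
# MP_e98778_an (full), module G: finiteness of the flip class

`PLip T χ C f`: `f` is a `C`-Lipschitz primitive of the additive functional `χ` of the edge vectors.
It exists for every triangulation (piecewise linear) and is carried along by flips, because the
quadrilateral of a flippable edge is convex. So `|χ (Z.vec h)| ≤ C ‖Z.vec h‖` for all `Z` reachable
from `T`, and the coordinates of the edge vectors in a rational basis give finiteness.
-/

set_option autoImplicit false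

open Pool.Agent.Helper87.LS Pool.Agent.Helper79.G

namespace Pool.Agent.Helper58.TF

variable {H : Type}

/-- The closed triangle of `h`, positions relative to the start of `h`. -/
def Cls (T : Tri H) (h : H) : Set ℂ := {z | 0 ≤ T.a0 h z ∧ 0 ≤ T.a1 h z ∧ 0 ≤ T.a2 h z}

/-- A Lipschitz primitive of `χ`. -/
structure PLip (T : Tri H) (χ : ℂ →+ ℝ) (C : ℝ) (f : H → ℂ → ℝ) : Prop where
  zero : ∀ h, f h 0 = 0
  lip : ∀ h, ∀ z ∈ Cls T h, ∀ z' ∈ Cls T h, |f h z - f h z'| ≤ C * ‖z - z'‖
  rot : ∀ h, ∀ z ∈ Cls T h, f (T.next h) (z - T.vec h) = f h z - χ (T.vec h)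
  edge : ∀ h, ∀ t : ℝ, 0 ≤ t → t ≤ 1 →
    f (T.opp h) (t * T.vec h - T.vec h) = f h (t * T.vec h) - χ (T.vec h)

/-- The closed triangle with sides `p, q, r` (`p` starting at `0`). -/
def Tg (p q r : ℂ) : Set ℂ := {z | 0 ≤ cr p z ∧ 0 ≤ cr q (z - p) ∧ 0 ≤ cr r z}

theorem Cls_eq (T : Tri H) (h : H) :
    Cls T h = Tg (T.vec h) (T.vec (T.next h)) (T.vec (T.prev h)) := rfl

theorem Tg_zero {p q r : ℂ} (h : p + q + r = 0) (hp : 0 < cr p q) : (0 : ℂ) ∈ Tg p q r := by
  refine ⟨by simp [cr], ?_, by simp [cr]⟩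
  simp only [cr, Complex.sub_re, Complex.sub_im, Complex.zero_re, Complex.zero_im] at hp ⊢
  linarith

theorem Tg_seg {p q r : ℂ} (h : p + q + r = 0) (hp : 0 < cr p q) {t : ℝ} (h0 : 0 ≤ t)
    (h1 : t ≤ 1) : (t : ℂ) * p ∈ Tg p q r := by
  have e : r = -p - q := by linear_combination h
  subst e
  refine ⟨?_, ?_, ?_⟩
  · rw [cr_mul_right, cr_self, mul_zero]
  · have : cr q (t * p - p) = (1 - t) * cr p q := by
      simp only [cr, Complex.sub_re, Complex.sub_im, Complex.re_ofReal_mul, Complex.im_ofReal_mul]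
      ring
    rw [this]; exact mul_nonneg (by linarith) hp.le
  · have : cr (-p - q) (t * p) = t * cr p q := by
      simp only [cr, Complex.sub_re, Complex.sub_im, Complex.neg_re, Complex.neg_im,
        Complex.re_ofReal_mul, Complex.im_ofReal_mul]
      ring
    rw [this]; exact mul_nonneg h0 hp.le

/-- Rotation of the marked side of a closed triangle. -/
theorem Tg_rot {p q r : ℂ} (h : p + q + r = 0) (z : ℂ) : z - p ∈ Tg q r p ↔ z ∈ Tg p q r := by
  have e : r = -p - q := by linear_combination h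
  subst e
  have e1 : cr (-p - q) (z - p - q) = cr (-p - q) z := by
    simp only [cr, Complex.sub_re, Complex.sub_im, Complex.neg_re, Complex.neg_im]; ring
  have e2 : cr p (z - p) = cr p z := by
    simp only [cr, Complex.sub_re, Complex.sub_im]; ring
  unfold Tg
  simp only [Set.mem_setOf_eq, e1, e2]
  tauto

theorem Tg_convex {p q r z z' : ℂ} (hz : z ∈ Tg p q r) (hz' : z' ∈ Tg p q r) {s : ℝ} (h0 : 0 ≤ s)
    (h1 : s ≤ 1) : z + s * (z' - z) ∈ Tg p q r := by
  obtain ⟨a1, a2, a3⟩ := hz
  obtain ⟨b1, b2, b3⟩ := hz'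
  refine ⟨?_, ?_, ?_⟩
  · have : cr p (z + s * (z' - z)) = (1 - s) * cr p z + s * cr p z' := by
      simp only [cr, Complex.sub_re, Complex.sub_im, Complex.add_re, Complex.add_im,
        Complex.re_ofReal_mul, Complex.im_ofReal_mul]; ring
    rw [this]
    exact add_nonneg (mul_nonneg (by linarith) a1) (mul_nonneg h0 b1)
  · have : cr q (z + s * (z' - z) - p) = (1 - s) * cr q (z - p) + s * cr q (z' - p) := by
      simp only [cr, Complex.sub_re, Complex.sub_im, Complex.add_re, Complex.add_im,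
        Complex.re_ofReal_mul, Complex.im_ofReal_mul]; ring
    rw [this]
    exact add_nonneg (mul_nonneg (by linarith) a2) (mul_nonneg h0 b2)
  · have : cr r (z + s * (z' - z)) = (1 - s) * cr r z + s * cr r z' := by
      simp only [cr, Complex.sub_re, Complex.sub_im, Complex.add_re, Complex.add_im,
        Complex.re_ofReal_mul, Complex.im_ofReal_mul]; ring
    rw [this]
    exact add_nonneg (mul_nonneg (by linarith) a3) (mul_nonneg h0 b3)

/-! ### The quadrilateral

`E, A, B` are the sides of the upper triangle, `-E, C, D` those of the lower one; origin at the start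
of `E`. New triangle `P S R`: sides `C`, `D + A`, `B`. New triangle `Q R S`: sides `A`, `-(D + A)`,
`D`. -/

/-- The quadrilateral. -/
def Qd (E A B C D : ℂ) : Set ℂ := {z | z ∈ Tg E A B ∨ z - E ∈ Tg (-E) C D}

section quad

variable {E A B C D : ℂ}

/-- Points of the new triangle `P S R`. -/
theorem new_sub (h1 : E + A + B = 0) (h2 : -E + C + D = 0) (hA : 0 < cr E A)
    (hC : 0 < cr (-E) C) (f1 : 0 < cr B C) (f2 : 0 < cr D A) {z : ℂ} (hz : z ∈ Tg C (D + A) B) :
    (0 ≤ cr E z → z ∈ Tg E A B) ∧ (cr E z ≤ 0 → z - E ∈ Tg (-E) C D) := by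
  obtain ⟨a1, a2, a3⟩ := hz
  have eB : B = -E - A := by linear_combination h1
  have eD : D = E - C := by linear_combination h2
  -- barycentric coordinates with respect to `P S R`, total `cr B C`
  have key : cr B C * cr A (z - E) = cr (D + A) (z - C) * cr E A + cr B z * cr D A := by
    rw [eB, eD]
    simp only [cr, Complex.sub_re, Complex.sub_im, Complex.add_re, Complex.add_im, Complex.neg_re,
      Complex.neg_im]
    ring
  have key2 : cr B C * cr D (z - E) = cr (D + A) (z - C) * cr (-E) C + cr C z * cr D A := by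
    rw [eB, eD]
    simp only [cr, Complex.sub_re, Complex.sub_im, Complex.add_re, Complex.add_im, Complex.neg_re,
      Complex.neg_im]
    ring
  constructor
  · intro h0
    refine ⟨h0, ?_, a3⟩
    have : 0 ≤ cr B C * cr A (z - E) := by
      rw [key]; exact add_nonneg (mul_nonneg a2 hA.le) (mul_nonneg a3 f2.le)
    exact nonneg_of_mul_nonneg_right this f1
  · intro h0
    refine ⟨?_, ?_, ?_⟩
    · have : cr (-E) (z - E) = -cr E z := by
        simp only [cr, Complex.sub_re, Complex.sub_im, Complex.neg_re, Complex.neg_im]; ring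
      rw [this]; linarith
    · have : z - E - -E = z := by ring
      rw [this]; exact a1
    · have : 0 ≤ cr B C * cr D (z - E) := by
        rw [key2]; exact add_nonneg (mul_nonneg a2 hC.le) (mul_nonneg a1 f2.le)
      exact nonneg_of_mul_nonneg_right this f1

/-- Points of the new triangle on the diagonal. -/
theorem new_diag (h1 : E + A + B = 0) (h2 : -E + C + D = 0) (hA : 0 < cr E A)
    (hC : 0 < cr (-E) C) (f1 : 0 < cr B C) (f2 : 0 < cr D A) {z : ℂ} (hz : z ∈ Tg C (D + A) B)
    (h0 : cr E z = 0) : ∃ t : ℝ, 0 ≤ t ∧ t ≤ 1 ∧ z = t * E := by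
  obtain ⟨u1, u2⟩ := new_sub h1 h2 hA hC f1 f2 hz
  obtain ⟨a1, a2, a3⟩ := u1 h0.ge
  have eB : B = -E - A := by linear_combination h1
  -- z = t E with t = cr z A / cr E A
  have hz' : z = ((cr z A / cr E A : ℝ) : ℂ) * E := by
    have hne : cr E A ≠ 0 := hA.ne'
    have e : z - ((cr z A / cr E A : ℝ) : ℂ) * E = 0 := by
      apply Surf.cr_solve46 hne
      · rw [cr_sub_right, cr_mul_right, cr_self, h0]; ring
      · rw [cr_sub_right, cr_mul_right, cr_swap A z, cr_swap A E]
        field_simp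
        ring
    exact sub_eq_zero.mp e
  refine ⟨cr z A / cr E A, ?_, ?_, hz'⟩
  · apply div_nonneg _ hA.le
    have : cr B z = cr z A := by
      rw [eB]
      have e1 : cr (-E - A) z = -cr E z + cr z A := by
        simp only [cr, Complex.sub_re, Complex.sub_im, Complex.neg_re, Complex.neg_im]; ring
      rw [e1, h0]; ring
    rw [← this]; exact a3
  · rw [div_le_one hA]
    have : cr A (z - E) = cr E A - cr z A := by
      simp only [cr, Complex.sub_re, Complex.sub_im]; ring
    linarith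

/-- A function on the quadrilateral which is Lipschitz on both old triangles is Lipschitz on the
new triangle `P S R`. -/
theorem quad_lip (h1 : E + A + B = 0) (h2 : -E + C + D = 0) (hA : 0 < cr E A)
    (hC : 0 < cr (-E) C) (f1 : 0 < cr B C) (f2 : 0 < cr D A) {q : ℂ → ℝ} {K : ℝ}
    (q1 : ∀ z ∈ Tg E A B, ∀ z' ∈ Tg E A B, |q z - q z'| ≤ K * ‖z - z'‖)
    (q2 : ∀ z, z - E ∈ Tg (-E) C D → ∀ z', z' - E ∈ Tg (-E) C D → |q z - q z'| ≤ K * ‖z - z'‖)
    {z z' : ℂ} (hz : z ∈ Tg C (D + A) B) (hz' : z' ∈ Tg C (D + A) B) :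
    |q z - q z'| ≤ K * ‖z - z'‖ := by
  obtain ⟨u1, u2⟩ := new_sub h1 h2 hA hC f1 f2 hz
  obtain ⟨v1, v2⟩ := new_sub h1 h2 hA hC f1 f2 hz'
  have cross : ∀ z z' : ℂ, z ∈ Tg C (D + A) B → z' ∈ Tg C (D + A) B → 0 < cr E z → cr E z' < 0 →
      |q z - q z'| ≤ K * ‖z - z'‖ := by
    intro z z' hz hz' p1 p2
    have hden : 0 < cr E z - cr E z' := by linarith
    set s : ℝ := cr E z / (cr E z - cr E z') with hs
    have s0 : 0 ≤ s := div_nonneg p1.le hden.le
    have s1 : s ≤ 1 := by rw [hs, div_le_one hden]; linarith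
    set y : ℂ := z + s * (z' - z) with hy
    have hyT : y ∈ Tg C (D + A) B := Tg_convex hz hz' s0 s1
    have hy0 : cr E y = 0 := by
      have : cr E y = cr E z + s * (cr E z' - cr E z) := by
        rw [hy, cr_add_right, cr_mul_right, cr_sub_right]
      rw [this, hs]
      field_simp
      ring
    have w1 := (new_sub h1 h2 hA hC f1 f2 hyT).1 hy0.ge
    have w2 := (new_sub h1 h2 hA hC f1 f2 hyT).2 hy0.le
    have b1 := q1 z ((new_sub h1 h2 hA hC f1 f2 hz).1 p1.le) y w1
    have b2 := q2 y w2 z' ((new_sub h1 h2 hA hC f1 f2 hz').2 p2.le)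
    have n1 : ‖z - y‖ = s * ‖z - z'‖ := by
      have : z - y = (s : ℂ) * (z - z') := by rw [hy]; ring
      rw [this, norm_mul, Complex.norm_real, Real.norm_eq_abs, abs_of_nonneg s0]
    have n2 : ‖y - z'‖ = (1 - s) * ‖z - z'‖ := by
      have : y - z' = ((1 - s : ℝ) : ℂ) * (z - z') := by rw [hy]; push_cast; ring
      rw [this, norm_mul, Complex.norm_real, Real.norm_eq_abs, abs_of_nonneg (by linarith)]
    rw [n1] at b1
    rw [n2] at b2
    calc |q z - q z'| = |(q z - q y) + (q y - q z')| := by ring_nf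
      _ ≤ |q z - q y| + |q y - q z'| := abs_add_le _ _
      _ ≤ K * (s * ‖z - z'‖) + K * ((1 - s) * ‖z - z'‖) := add_le_add b1 b2
      _ = K * ‖z - z'‖ := by ring
  rcases le_or_gt 0 (cr E z) with p1 | p1
  · rcases le_or_gt 0 (cr E z') with p2 | p2
    · exact q1 z (u1 p1) z' (v1 p2)
    · rcases eq_or_lt_of_le p1 with p3 | p3
      · exact q2 z (u2 p3.ge) z' (v2 p2.le)
      · exact cross z z' hz hz' p3 p2
  · rcases le_or_gt (cr E z') 0 with p2 | p2
    · exact q2 z (u2 p1.le) z' (v2 p2)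
    · have := cross z' z hz' hz p2 p1
      rw [abs_sub_comm, norm_sub_rev]; exact this

end quad

end Pool.Agent.Helper58.TF
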