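import Pool.Agent.Helper58.TF.Fin

/-!
# MP_e98778_an (full), module G: Lipschitz primitives are carried by flips
-/

set_option autoImplicit false

open Pool.Agent.Helper87.LS Pool.Agent.Helper79.G

namespace Pool.Agent.Helper58.TF

variable {H : Type}

theorem Tg_line {p q r z : ℂ} (h : p + q + r = 0) (hp : 0 < cr p q) (hz : z ∈ Tg p q r)
    (h0 : cr p z = 0) : ∃ t : ℝ, 0 ≤ t ∧ t ≤ 1 ∧ z = t * p := by
  obtain ⟨a1, a2, a3⟩ := hz
  have eB : r = -p - q := by linear_combination h
  have hz' : z = ((cr z q / cr p q : ℝ) : ℂ) * p := by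
    have hne : cr p q ≠ 0 := hp.ne'
    have e : z - ((cr z q / cr p q : ℝ) : ℂ) * p = 0 := by
      apply Surf.cr_solve46 hne
      · rw [cr_sub_right, cr_mul_right, cr_self, h0]; ring
      · rw [cr_sub_right, cr_mul_right, cr_swap q z, cr_swap q p]
        field_simp
        ring
    exact sub_eq_zero.mp e
  refine ⟨cr z q / cr p q, ?_, ?_, hz'⟩
  · apply div_nonneg _ hp.le
    have : cr r z = cr z q := by
      rw [eB]
      have e1 : cr (-p - q) z = -cr p z + cr z q := by
        simp only [cr, Complex.sub_re, Complex.sub_im, Complex.neg_re, Complex.neg_im]; ring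
      rw [e1, h0]; ring
    rw [← this]; exact a3
  · rw [div_le_one hp]
    have : cr q (z - p) = cr p q - cr z q := by
      simp only [cr, Complex.sub_re, Complex.sub_im]; ring
    linarith

open Classical in
/-- The primitive on the quadrilateral of `e`, origin at the start of `e`. -/
noncomputable def qf (T : Tri H) (χ : ℂ →+ ℝ) (f : H → ℂ → ℝ) (e : H) (ζ : ℂ) : ℝ :=
  if 0 ≤ cr (T.vec e) ζ then f e ζ else f (T.opp e) (ζ - T.vec e) + χ (T.vec e)

open Classical in
/-- Start points of the six darts after the flip, relative to the start of `e`. -/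
noncomputable def bp (T : Tri H) (e h : H) : ℂ :=
  if h = e then T.vec (T.next (T.opp e)) else if h = T.prev e then -T.vec (T.prev e)
  else if h = T.next (T.opp e) then 0 else if h = T.opp e then -T.vec (T.prev e)
  else if h = T.prev (T.opp e) then T.vec (T.next (T.opp e)) else T.vec e

open Classical in
/-- The primitive after the flip. -/
noncomputable def flipF (T : Tri H) (χ : ℂ →+ ℝ) (f : H → ℂ → ℝ) (e : H) : H → ℂ → ℝ := fun h z =>
  if T.Out e h then f h z else qf T χ f e (z + bp T e h) - χ (bp T e h)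

section

variable {T : Tri H} {χ : ℂ →+ ℝ} {C : ℝ} {f : H → ℂ → ℝ}

theorem PLip.vertex (hf : PLip T χ C f) (h : H) : f h (T.vec h) = χ (T.vec h) := by
  have h1 := hf.rot h (T.vec h) (by
    have := Tg_seg (T.closed h) (T.pos h) (t := 1) zero_le_one le_rfl
    rw [Complex.ofReal_one, one_mul] at this
    exact this)
  rw [sub_self, hf.zero] at h1
  linarith

theorem PLip.bound (hf : PLip T χ C f) (h : H) : |χ (T.vec h)| ≤ C * ‖T.vec h‖ := by
  have h0 : (0 : ℂ) ∈ Cls T h := Tg_zero (T.closed h) (T.pos h)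
  have h1 : T.vec h ∈ Cls T h := by
    have := Tg_seg (T.closed h) (T.pos h) (t := 1) zero_le_one le_rfl
    rw [Complex.ofReal_one, one_mul] at this
    exact this
  have := hf.lip h _ h1 _ h0
  rw [hf.vertex, hf.zero, sub_zero, sub_zero] at this
  exact this

theorem qf_upper {e : H} {z : ℂ} (hz : z ∈ Tg (T.vec e) (T.vec (T.next e)) (T.vec (T.prev e))) :
    qf T χ f e z = f e z := by
  unfold qf; rw [if_pos hz.1]

theorem qf_lower (hf : PLip T χ C f) {e : H} {z : ℂ}
    (hz : z - T.vec e ∈ Tg (-T.vec e) (T.vec (T.next (T.opp e))) (T.vec (T.prev (T.opp e)))) :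
    qf T χ f e z = f (T.opp e) (z - T.vec e) + χ (T.vec e) := by
  unfold qf
  split_ifs with h
  · have hv : T.vec (T.opp e) = -T.vec e := T.vec_opp e
    have hcl := T.closed (T.opp e)
    rw [hv] at hcl
    have hpos := T.pos (T.opp e)
    rw [hv] at hpos
    have h0 : cr (-T.vec e) (z - T.vec e) = 0 := by
      have e1 : cr (-T.vec e) (z - T.vec e) = -cr (T.vec e) z := by
        simp only [cr, Complex.sub_re, Complex.sub_im, Complex.neg_re, Complex.neg_im]; ring
      have h1 := hz.1
      rw [e1] at h1 ⊢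
      linarith
    obtain ⟨t, t0, t1, ht⟩ := Tg_line hcl hpos hz h0
    have hz2 : z = ((1 - t : ℝ) : ℂ) * T.vec e := by
      push_cast; linear_combination ht
    have h2 := hf.edge e (1 - t) (by linarith) (by linarith)
    rw [← hz2] at h2
    rw [h2]; ring
  · rfl

end

section flip

variable {T : Tri H} {χ : ℂ →+ ℝ} {C : ℝ} {f : H → ℂ → ℝ}

theorem flip_next (e : H) (he : T.Flippable e) (h : H) : (T.flip e he).next h = T.flipNext e h := rfl

theorem flip_vec (e : H) (he : T.Flippable e) (h : H) : (T.flip e he).vec h = T.flipVec e h := rfl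

theorem flip_opp (e : H) (he : T.Flippable e) : (T.flip e he).opp = T.opp := rfl

theorem bp_e (e : H) : bp T e e = T.vec (T.next (T.opp e)) := by simp [bp]
theorem bp_b (e : H) : bp T e (T.prev e) = -T.vec (T.prev e) := by
  have h := T.six e; simp only [bp]; simp [h]
theorem bp_c (e : H) : bp T e (T.next (T.opp e)) = 0 := by
  have h := T.six e; simp only [bp]; simp [h]
theorem bp_e' (e : H) : bp T e (T.opp e) = -T.vec (T.prev e) := by
  have h := T.six e; simp only [bp]; simp [h, Ne.symm h.2.2.2.2.2.2.2.2.2.1]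
theorem bp_d (e : H) : bp T e (T.prev (T.opp e)) = T.vec (T.next (T.opp e)) := by
  have h := T.six e; simp only [bp]; simp [h]
theorem bp_a (e : H) : bp T e (T.next e) = T.vec e := by
  have h := T.six e
  simp only [bp]
  simp [h, Ne.symm h.2.2.1, Ne.symm h.2.2.2.2.1, Ne.symm h.2.2.2.2.2.2.2.1,
    Ne.symm h.2.2.2.2.2.2.2.2.2.2.2.1]

theorem not_out_e (e : H) : ¬ T.Out e e := fun h => h.1 rfl
theorem not_out_a (e : H) : ¬ T.Out e (T.next e) := fun h => h.2.1 rfl
theorem not_out_b (e : H) : ¬ T.Out e (T.prev e) := fun h => h.2.2.1 rfl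
theorem not_out_e' (e : H) : ¬ T.Out e (T.opp e) := fun h => h.2.2.2.1 rfl
theorem not_out_c (e : H) : ¬ T.Out e (T.next (T.opp e)) := fun h => h.2.2.2.2.1 rfl
theorem not_out_d (e : H) : ¬ T.Out e (T.prev (T.opp e)) := fun h => h.2.2.2.2.2 rfl

theorem flipF_out {e h : H} (ho : T.Out e h) (z : ℂ) : flipF T χ f e h z = f h z := by
  unfold flipF; rw [if_pos ho]

theorem flipF_in {e h : H} (ho : ¬ T.Out e h) (z : ℂ) :
    flipF T χ f e h z = qf T χ f e (z + bp T e h) - χ (bp T e h) := by
  unfold flipF; rw [if_neg ho]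

/-- The values of the primitive at the four vertices. -/
theorem qf_vertices (hf : PLip T χ C f) (e : H) :
    qf T χ f e 0 = 0 ∧ qf T χ f e (T.vec e) = χ (T.vec e) ∧
      qf T χ f e (-T.vec (T.prev e)) = χ (-T.vec (T.prev e)) ∧
      qf T χ f e (T.vec (T.next (T.opp e))) = χ (T.vec (T.next (T.opp e))) := by
  have hv : T.vec (T.opp e) = -T.vec e := T.vec_opp e
  have hcl : T.vec e + T.vec (T.next e) + T.vec (T.prev e) = 0 := T.closed e
  have hpos := T.pos e
  have hcl' : -T.vec e + T.vec (T.next (T.opp e)) + T.vec (T.prev (T.opp e)) = 0 := by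
    have := T.closed (T.opp e); rwa [hv] at this
  have hpos' : 0 < cr (-T.vec e) (T.vec (T.next (T.opp e))) := by
    have := T.pos (T.opp e); rwa [hv] at this
  refine ⟨?_, ?_, ?_, ?_⟩
  · rw [qf_upper (Tg_zero hcl hpos), hf.zero]
  · have := Tg_seg hcl hpos (t := 1) zero_le_one le_rfl
    rw [Complex.ofReal_one, one_mul] at this
    rw [qf_upper this, hf.vertex]
  · -- `R = vec e + vec (next e)`
    have hA : T.vec (T.next e) ∈ Tg (T.vec (T.next e)) (T.vec (T.prev e)) (T.vec e) := by
      have := Tg_seg (p := T.vec (T.next e)) (q := T.vec (T.prev e)) (r := T.vec e) (t := 1)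
        (by linear_combination hcl) (T.pos (T.next e)) zero_le_one le_rfl
      rwa [Complex.ofReal_one, one_mul] at this
    have hR : -T.vec (T.prev e) ∈ Tg (T.vec e) (T.vec (T.next e)) (T.vec (T.prev e)) := by
      rw [← Tg_rot hcl]
      have : -T.vec (T.prev e) - T.vec e = T.vec (T.next e) := by linear_combination -hcl
      rw [this]; exact hA
    rw [qf_upper hR]
    have h1 := hf.rot e _ hR
    have h2 : -T.vec (T.prev e) - T.vec e = T.vec (T.next e) := by linear_combination -hcl
    rw [h2, hf.vertex] at h1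
    have h3 : -T.vec (T.prev e) = T.vec e + T.vec (T.next e) := by linear_combination -hcl
    have h4 : χ (-T.vec (T.prev e)) = χ (T.vec e) + χ (T.vec (T.next e)) := by
      rw [h3, map_add]
    rw [h4]; linarith
  · have hC : T.vec (T.next (T.opp e)) ∈ Tg (T.vec (T.next (T.opp e))) (T.vec (T.prev (T.opp e)))
        (-T.vec e) := by
      have hp2 : 0 < cr (T.vec (T.next (T.opp e))) (T.vec (T.prev (T.opp e))) :=
        T.pos (T.next (T.opp e))
      have := Tg_seg (p := T.vec (T.next (T.opp e))) (q := T.vec (T.prev (T.opp e)))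
        (r := -T.vec e) (t := 1) (by linear_combination hcl') hp2 zero_le_one le_rfl
      rwa [Complex.ofReal_one, one_mul] at this
    have hS : T.vec (T.next (T.opp e)) - T.vec e ∈
        Tg (-T.vec e) (T.vec (T.next (T.opp e))) (T.vec (T.prev (T.opp e))) := by
      rw [← Tg_rot hcl']
      have : T.vec (T.next (T.opp e)) - T.vec e - -T.vec e = T.vec (T.next (T.opp e)) := by ring
      rw [this]; exact hC
    rw [qf_lower hf hS]
    have hS' : T.vec (T.next (T.opp e)) - T.vec e ∈ Cls T (T.opp e) := by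
      rw [Cls_eq, hv]; exact hS
    have h1 := hf.rot (T.opp e) _ hS'
    rw [hv] at h1
    have h2 : T.vec (T.next (T.opp e)) - T.vec e - -T.vec e = T.vec (T.next (T.opp e)) := by ring
    rw [h2, hf.vertex, map_neg] at h1
    linarith

/-- On the four sides of the quadrilateral (and outside) the new function is the old one. -/
theorem flipF_side (hf : PLip T χ C f) {e h : H} (h1 : h ≠ e) (h2 : h ≠ T.opp e) {t : ℝ}
    (t0 : 0 ≤ t) (t1 : t ≤ 1) : flipF T χ f e h (t * T.vec h) = f h (t * T.vec h) := by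
  have hv : T.vec (T.opp e) = -T.vec e := T.vec_opp e
  have hcl : T.vec e + T.vec (T.next e) + T.vec (T.prev e) = 0 := T.closed e
  have hpos := T.pos e
  have hcl' : -T.vec e + T.vec (T.next (T.opp e)) + T.vec (T.prev (T.opp e)) = 0 := by
    have := T.closed (T.opp e); rwa [hv] at this
  have hpos' : 0 < cr (-T.vec e) (T.vec (T.next (T.opp e))) := by
    have := T.pos (T.opp e); rwa [hv] at this
  have hpa : 0 < cr (T.vec (T.next e)) (T.vec (T.prev e)) := T.pos (T.next e)
  have hpb : 0 < cr (T.vec (T.prev e)) (T.vec e) := by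
    have := T.pos (T.prev e); rwa [T.next_prev] at this
  have hpc : 0 < cr (T.vec (T.next (T.opp e))) (T.vec (T.prev (T.opp e))) := T.pos (T.next (T.opp e))
  have hpd : 0 < cr (T.vec (T.prev (T.opp e))) (-T.vec e) := by
    have := T.pos (T.prev (T.opp e)); rwa [T.next_prev, hv] at this
  rcases T.cases_six e h with ho | rfl | rfl | rfl | rfl | rfl | rfl
  · exact flipF_out ho _
  · exact absurd rfl h1
  · -- a
    rw [flipF_in (not_out_a e), bp_a]
    have m1 := Tg_seg (p := T.vec (T.next e)) (q := T.vec (T.prev e)) (r := T.vec e)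
      (by linear_combination hcl) hpa t0 t1
    have m2 : (t : ℂ) * T.vec (T.next e) + T.vec e ∈
        Tg (T.vec e) (T.vec (T.next e)) (T.vec (T.prev e)) := by
      rw [← Tg_rot hcl, add_sub_cancel_right]; exact m1
    rw [qf_upper m2]
    have r1 := hf.rot e _ m2
    rw [add_sub_cancel_right] at r1
    linarith
  · -- b
    rw [flipF_in (not_out_b e), bp_b]
    have m1 := Tg_seg (p := T.vec (T.prev e)) (q := T.vec e) (r := T.vec (T.next e))
      (by linear_combination hcl) hpb t0 t1
    have m2 : (t : ℂ) * T.vec (T.prev e) + T.vec (T.next e) ∈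
        Tg (T.vec (T.next e)) (T.vec (T.prev e)) (T.vec e) := by
      rw [← Tg_rot (by linear_combination hcl), add_sub_cancel_right]; exact m1
    have m3 : (t : ℂ) * T.vec (T.prev e) + -T.vec (T.prev e) ∈
        Tg (T.vec e) (T.vec (T.next e)) (T.vec (T.prev e)) := by
      rw [← Tg_rot hcl]
      have : (t : ℂ) * T.vec (T.prev e) + -T.vec (T.prev e) - T.vec e =
          (t : ℂ) * T.vec (T.prev e) + T.vec (T.next e) := by linear_combination -hcl
      rw [this]; exact m2
    rw [qf_upper m3]
    have r1 := hf.rot e _ m3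
    have e1 : (t : ℂ) * T.vec (T.prev e) + -T.vec (T.prev e) - T.vec e =
        (t : ℂ) * T.vec (T.prev e) + T.vec (T.next e) := by linear_combination -hcl
    rw [e1] at r1
    have m2' : (t : ℂ) * T.vec (T.prev e) + T.vec (T.next e) ∈ Cls T (T.next e) := by
      rw [Cls_eq, T.prev_next, T.next_next]; exact m2
    have r2 := hf.rot (T.next e) _ m2'
    rw [add_sub_cancel_right, T.next_next] at r2
    have h3 : χ (-T.vec (T.prev e)) = χ (T.vec e) + χ (T.vec (T.next e)) := by
      rw [← map_add]; congr 1; linear_combination -hcl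
    rw [h3]; linarith
  · exact absurd rfl h2
  · -- c
    rw [flipF_in (not_out_c e), bp_c, add_zero, map_zero, sub_zero]
    have m1 := Tg_seg (p := T.vec (T.next (T.opp e))) (q := T.vec (T.prev (T.opp e)))
      (r := -T.vec e) (by linear_combination hcl') hpc t0 t1
    have m2 : (t : ℂ) * T.vec (T.next (T.opp e)) - T.vec e ∈
        Tg (-T.vec e) (T.vec (T.next (T.opp e))) (T.vec (T.prev (T.opp e))) := by
      rw [← Tg_rot hcl']
      have : (t : ℂ) * T.vec (T.next (T.opp e)) - T.vec e - -T.vec e =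
        (t : ℂ) * T.vec (T.next (T.opp e)) := by ring
      rw [this]; exact m1
    rw [qf_lower hf m2]
    have m3 : (t : ℂ) * T.vec (T.next (T.opp e)) - T.vec e ∈ Cls T (T.opp e) := by
      rw [Cls_eq, hv]; exact m2
    have r1 := hf.rot (T.opp e) _ m3
    rw [hv, map_neg] at r1
    have : (t : ℂ) * T.vec (T.next (T.opp e)) - T.vec e - -T.vec e =
      (t : ℂ) * T.vec (T.next (T.opp e)) := by ring
    rw [this] at r1
    linarith
  · -- d
    rw [flipF_in (not_out_d e), bp_d]
    have m1 := Tg_seg (p := T.vec (T.prev (T.opp e))) (q := -T.vec e)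
      (r := T.vec (T.next (T.opp e))) (by linear_combination hcl') hpd t0 t1
    have m2 : (t : ℂ) * T.vec (T.prev (T.opp e)) + T.vec (T.next (T.opp e)) ∈
        Tg (T.vec (T.next (T.opp e))) (T.vec (T.prev (T.opp e))) (-T.vec e) := by
      rw [← Tg_rot (by linear_combination hcl'), add_sub_cancel_right]; exact m1
    have m3 : (t : ℂ) * T.vec (T.prev (T.opp e)) + T.vec (T.next (T.opp e)) - T.vec e ∈
        Tg (-T.vec e) (T.vec (T.next (T.opp e))) (T.vec (T.prev (T.opp e))) := by
      rw [← Tg_rot hcl']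
      have : (t : ℂ) * T.vec (T.prev (T.opp e)) + T.vec (T.next (T.opp e)) - T.vec e - -T.vec e =
        (t : ℂ) * T.vec (T.prev (T.opp e)) + T.vec (T.next (T.opp e)) := by ring
      rw [this]; exact m2
    rw [qf_lower hf m3]
    have m3' : (t : ℂ) * T.vec (T.prev (T.opp e)) + T.vec (T.next (T.opp e)) - T.vec e ∈
        Cls T (T.opp e) := by
      rw [Cls_eq, hv]; exact m3
    have r1 := hf.rot (T.opp e) _ m3'
    rw [hv, map_neg] at r1
    have e1 : (t : ℂ) * T.vec (T.prev (T.opp e)) + T.vec (T.next (T.opp e)) - T.vec e - -T.vec e =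
      (t : ℂ) * T.vec (T.prev (T.opp e)) + T.vec (T.next (T.opp e)) := by ring
    rw [e1] at r1
    have m2' : (t : ℂ) * T.vec (T.prev (T.opp e)) + T.vec (T.next (T.opp e)) ∈
        Cls T (T.next (T.opp e)) := by
      rw [Cls_eq, T.prev_next, T.next_next, hv]; exact m2
    have r2 := hf.rot (T.next (T.opp e)) _ m2'
    rw [add_sub_cancel_right, T.next_next] at r2
    linarith

/-- **Lipschitz primitives are carried by flips, with the same constant.** -/
theorem PLip.flip (hf : PLip T χ C f) (e : H) (he : T.Flippable e) :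
    PLip (T.flip e he) χ C (flipF T χ f e) := by
  have hv : T.vec (T.opp e) = -T.vec e := T.vec_opp e
  have hcl : T.vec e + T.vec (T.next e) + T.vec (T.prev e) = 0 := T.closed e
  have hpos := T.pos e
  have hcl' : -T.vec e + T.vec (T.next (T.opp e)) + T.vec (T.prev (T.opp e)) = 0 := by
    have := T.closed (T.opp e); rwa [hv] at this
  have hpos' : 0 < cr (-T.vec e) (T.vec (T.next (T.opp e))) := by
    have := T.pos (T.opp e); rwa [hv] at this
  obtain ⟨f1, f2⟩ := he
  set q := qf T χ f e with hq
  have q1 : ∀ z ∈ Tg (T.vec e) (T.vec (T.next e)) (T.vec (T.prev e)),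
      ∀ z' ∈ Tg (T.vec e) (T.vec (T.next e)) (T.vec (T.prev e)), |q z - q z'| ≤ C * ‖z - z'‖ := by
    intro z hz z' hz'
    rw [hq, qf_upper hz, qf_upper hz']
    exact hf.lip e z hz z' hz'
  have q2 : ∀ z, z - T.vec e ∈ Tg (-T.vec e) (T.vec (T.next (T.opp e))) (T.vec (T.prev (T.opp e))) →
      ∀ z', z' - T.vec e ∈ Tg (-T.vec e) (T.vec (T.next (T.opp e))) (T.vec (T.prev (T.opp e))) →
        |q z - q z'| ≤ C * ‖z - z'‖ := by
    intro z hz z' hz'
    rw [hq, qf_lower hf hz, qf_lower hf hz']
    have h1 := hf.lip (T.opp e) (z - T.vec e) (by rw [Cls_eq, hv]; exact hz) (z' - T.vec e)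
      (by rw [Cls_eq, hv]; exact hz')
    rw [add_sub_add_right_eq_sub]
    rwa [sub_sub_sub_cancel_right] at h1
  -- the two new triangles
  have L1 : ∀ z ∈ Tg (T.vec (T.next (T.opp e))) (T.vec (T.prev (T.opp e)) + T.vec (T.next e))
      (T.vec (T.prev e)), ∀ z' ∈ Tg (T.vec (T.next (T.opp e)))
      (T.vec (T.prev (T.opp e)) + T.vec (T.next e)) (T.vec (T.prev e)),
      |q z - q z'| ≤ C * ‖z - z'‖ := fun z hz z' hz' =>
    quad_lip hcl hcl' hpos hpos' f1 f2 q1 q2 hz hz'
  have L2 : ∀ z, z - T.vec e ∈ Tg (T.vec (T.next e))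
      (-(T.vec (T.prev (T.opp e)) + T.vec (T.next e))) (T.vec (T.prev (T.opp e))) →
      ∀ z', z' - T.vec e ∈ Tg (T.vec (T.next e))
      (-(T.vec (T.prev (T.opp e)) + T.vec (T.next e))) (T.vec (T.prev (T.opp e))) →
      |q z - q z'| ≤ C * ‖z - z'‖ := by
    intro z hz z' hz'
    have e1 : -(T.vec (T.prev (T.opp e)) + T.vec (T.next e)) =
        T.vec (T.prev e) + T.vec (T.next (T.opp e)) := by linear_combination -hcl - hcl'
    rw [e1] at hz hz'
    have := quad_lip (E := -T.vec e) (A := T.vec (T.next (T.opp e))) (B := T.vec (T.prev (T.opp e)))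
      (C := T.vec (T.next e)) (D := T.vec (T.prev e)) (q := fun ζ => q (ζ + T.vec e)) (K := C)
      hcl' (by rw [neg_neg]; exact hcl) hpos' (by rw [neg_neg]; exact hpos) f2 f1
      (by
        intro w hw w' hw'
        have := q2 (w + T.vec e) (by rw [add_sub_cancel_right]; exact hw) (w' + T.vec e)
          (by rw [add_sub_cancel_right]; exact hw')
        simpa using this)
      (by
        intro w hw w' hw'
        rw [neg_neg, sub_neg_eq_add] at hw hw'
        have := q1 _ hw _ hw'
        simpa using this) hz hz'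
    simpa using this
  have V := qf_vertices hf e
  have M1 : ∀ z ∈ Tg (T.vec (T.prev (T.opp e)) + T.vec (T.next e)) (T.vec (T.prev e))
      (T.vec (T.next (T.opp e))), z + T.vec (T.next (T.opp e)) ∈ Tg (T.vec (T.next (T.opp e)))
      (T.vec (T.prev (T.opp e)) + T.vec (T.next e)) (T.vec (T.prev e)) := by
    intro z hz
    rw [← Tg_rot (by linear_combination hcl + hcl'), add_sub_cancel_right]; exact hz
  have M2 : ∀ z ∈ Tg (T.vec (T.prev e)) (T.vec (T.next (T.opp e)))
      (T.vec (T.prev (T.opp e)) + T.vec (T.next e)), z + -T.vec (T.prev e) ∈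
      Tg (T.vec (T.next (T.opp e)))
      (T.vec (T.prev (T.opp e)) + T.vec (T.next e)) (T.vec (T.prev e)) := by
    intro z hz
    rw [← Tg_rot (by linear_combination hcl + hcl'), ← Tg_rot (by linear_combination hcl + hcl')]
    have : z + -T.vec (T.prev e) - T.vec (T.next (T.opp e)) -
        (T.vec (T.prev (T.opp e)) + T.vec (T.next e)) = z := by linear_combination -hcl - hcl'
    rw [this]; exact hz
  have M3 : ∀ z ∈ Tg (-(T.vec (T.prev (T.opp e)) + T.vec (T.next e))) (T.vec (T.prev (T.opp e)))
      (T.vec (T.next e)), z + -T.vec (T.prev e) - T.vec e ∈ Tg (T.vec (T.next e))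
      (-(T.vec (T.prev (T.opp e)) + T.vec (T.next e))) (T.vec (T.prev (T.opp e))) := by
    intro z hz
    rw [← Tg_rot (by ring)]
    have : z + -T.vec (T.prev e) - T.vec e - T.vec (T.next e) = z := by linear_combination -hcl
    rw [this]; exact hz
  have M4 : ∀ z ∈ Tg (T.vec (T.prev (T.opp e))) (T.vec (T.next e))
      (-(T.vec (T.prev (T.opp e)) + T.vec (T.next e))), z + T.vec (T.next (T.opp e)) - T.vec e ∈
      Tg (T.vec (T.next e))
      (-(T.vec (T.prev (T.opp e)) + T.vec (T.next e))) (T.vec (T.prev (T.opp e))) := by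
    intro z hz
    rw [← Tg_rot (by ring), ← Tg_rot (by ring)]
    have : z + T.vec (T.next (T.opp e)) - T.vec e - T.vec (T.next e) -
        -(T.vec (T.prev (T.opp e)) + T.vec (T.next e)) = z := by linear_combination hcl'
    rw [this]; exact hz
  have hs := T.six e
  have wv_b : T.flipVec e (T.prev e) = T.vec (T.prev e) :=
    T.flipVec_ne hs.1 (Ne.symm hs.2.2.2.2.2.1)
  have wv_c : T.flipVec e (T.next (T.opp e)) = T.vec (T.next (T.opp e)) :=
    T.flipVec_ne hs.2.2.2.2.2.2.1 hs.2.2.2.2.2.2.2.2.2.1
  have wv_d : T.flipVec e (T.prev (T.opp e)) = T.vec (T.prev (T.opp e)) :=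
    T.flipVec_ne hs.2.2.2.2.2.2.2.2.2.2.1 hs.2.2.2.2.2.2.2.2.2.2.2.2.2.1
  have wv_a : T.flipVec e (T.next e) = T.vec (T.next e) :=
    T.flipVec_ne hs.2.1 (Ne.symm hs.2.2.2.2.1)
  have pr : ∀ h, (T.flip e ⟨f1, f2⟩).prev h = T.flipNext e (T.flipNext e h) := fun h => rfl
  refine ⟨?_, ?_, ?_, ?_⟩
  · intro h
    rcases T.cases_six e h with ho | rfl | rfl | rfl | rfl | rfl | rfl
    · rw [flipF_out ho]; exact hf.zero h
    · rw [flipF_in (not_out_e h), bp_e, zero_add, V.2.2.2, sub_self]
    · rw [flipF_in (not_out_a e), bp_a, zero_add, V.2.1, sub_self]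
    · rw [flipF_in (not_out_b e), bp_b, zero_add, V.2.2.1, sub_self]
    · rw [flipF_in (not_out_e' e), bp_e', zero_add, V.2.2.1, sub_self]
    · rw [flipF_in (not_out_c e), bp_c, zero_add, V.1, map_zero, sub_zero]
    · rw [flipF_in (not_out_d e), bp_d, zero_add, V.2.2.2, sub_self]
  · intro h z hz z' hz'
    rw [Cls_eq, pr, flip_next, flip_vec, flip_vec, flip_vec] at hz hz'
    rcases T.cases_six e h with ho | rfl | rfl | rfl | rfl | rfl | rfl
    · rw [flipF_out ho, flipF_out ho]
      rw [T.flipNext_out ho, T.flipNext_out ho.next, T.flipVec_ne ho.1 ho.2.2.2.1,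
        T.flipVec_ne ho.next.1 ho.next.2.2.2.1,
        T.flipVec_ne ho.next.next.1 ho.next.next.2.2.2.1] at hz hz'
      exact hf.lip h z hz z' hz'
    · rw [T.flipNext_e, T.flipNext_b, T.flipVec_e, wv_b, wv_c] at hz hz'
      rw [flipF_in (not_out_e h), flipF_in (not_out_e h), bp_e]
      have := L1 _ (M1 z hz) _ (M1 z' hz')
      simpa using this
    · rw [T.flipNext_a, T.flipNext_e', T.flipVec_e', wv_a, wv_d] at hz hz'
      rw [flipF_in (not_out_a e), flipF_in (not_out_a e), bp_a]
      have := L2 (z + T.vec e) (by rw [add_sub_cancel_right]; exact hz) (z' + T.vec e)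
        (by rw [add_sub_cancel_right]; exact hz')
      simpa using this
    · rw [T.flipNext_b, T.flipNext_c, T.flipVec_e, wv_b, wv_c] at hz hz'
      rw [flipF_in (not_out_b e), flipF_in (not_out_b e), bp_b]
      have := L1 _ (M2 z hz) _ (M2 z' hz')
      simpa using this
    · rw [T.flipNext_e', T.flipNext_d, T.flipVec_e', wv_a, wv_d] at hz hz'
      rw [flipF_in (not_out_e' e), flipF_in (not_out_e' e), bp_e']
      have := L2 _ (M3 z hz) _ (M3 z' hz')
      simpa using this
    · rw [T.flipNext_c, T.flipNext_e, T.flipVec_e, wv_b, wv_c] at hz hz'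
      rw [flipF_in (not_out_c e), flipF_in (not_out_c e), bp_c, add_zero, add_zero]
      have := L1 _ hz _ hz'
      simpa using this
    · rw [T.flipNext_d, T.flipNext_a, T.flipVec_e', wv_a, wv_d] at hz hz'
      rw [flipF_in (not_out_d e), flipF_in (not_out_d e), bp_d]
      have := L2 _ (M4 z hz) _ (M4 z' hz')
      simpa using this
  · intro h z hz
    rw [flip_next, flip_vec]
    rcases T.cases_six e h with ho | rfl | rfl | rfl | rfl | rfl | rfl
    · rw [T.flipNext_out ho, T.flipVec_ne ho.1 ho.2.2.2.1, flipF_out ho.next, flipF_out ho]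
      apply hf.rot
      rw [Cls_eq, pr, flip_next, flip_vec, flip_vec, flip_vec, T.flipNext_out ho,
        T.flipNext_out ho.next, T.flipVec_ne ho.1 ho.2.2.2.1, T.flipVec_ne ho.next.1 ho.next.2.2.2.1,
        T.flipVec_ne ho.next.next.1 ho.next.next.2.2.2.1] at hz
      exact hz
    · rw [T.flipNext_e, T.flipVec_e, flipF_in (not_out_b h), flipF_in (not_out_e h), bp_b, bp_e]
      have e1 : z - (T.vec (T.prev (T.opp h)) + T.vec (T.next h)) + -T.vec (T.prev h) =
          z + T.vec (T.next (T.opp h)) := by linear_combination -hcl - hcl'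
      have e2 : -T.vec (T.prev h) = T.vec (T.next (T.opp h)) +
          (T.vec (T.prev (T.opp h)) + T.vec (T.next h)) := by linear_combination -hcl - hcl'
      rw [e1, e2, map_add]; ring
    · rw [T.flipNext_a, wv_a, flipF_in (not_out_e' e), flipF_in (not_out_a e), bp_e', bp_a]
      have e1 : z - T.vec (T.next e) + -T.vec (T.prev e) = z + T.vec e := by
        linear_combination -hcl
      have e2 : -T.vec (T.prev e) = T.vec e + T.vec (T.next e) := by linear_combination -hcl
      rw [e1, e2, map_add]; ring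
    · rw [T.flipNext_b, wv_b, flipF_in (not_out_c e), flipF_in (not_out_b e), bp_c, bp_b]
      have e1 : z - T.vec (T.prev e) + 0 = z + -T.vec (T.prev e) := by ring
      rw [e1, map_zero, map_neg]; ring
    · rw [T.flipNext_e', T.flipVec_e', flipF_in (not_out_d e), flipF_in (not_out_e' e), bp_d, bp_e']
      have e1 : z - -(T.vec (T.prev (T.opp e)) + T.vec (T.next e)) + T.vec (T.next (T.opp e)) =
          z + -T.vec (T.prev e) := by linear_combination hcl + hcl'
      have e2 : T.vec (T.next (T.opp e)) = -T.vec (T.prev e) +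
          -(T.vec (T.prev (T.opp e)) + T.vec (T.next e)) := by linear_combination hcl + hcl'
      have e3 : χ (T.vec (T.next (T.opp e))) = χ (-T.vec (T.prev e)) +
          χ (-(T.vec (T.prev (T.opp e)) + T.vec (T.next e))) := by
        rw [← map_add]; exact congrArg χ e2
      rw [e1, e3]; ring
    · rw [T.flipNext_c, wv_c, flipF_in (not_out_e e), flipF_in (not_out_c e), bp_e, bp_c,
        sub_add_cancel, add_zero, map_zero, sub_zero]
    · rw [T.flipNext_d, wv_d, flipF_in (not_out_a e), flipF_in (not_out_d e), bp_a, bp_d]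
      have e1 : z - T.vec (T.prev (T.opp e)) + T.vec e = z + T.vec (T.next (T.opp e)) := by
        linear_combination -hcl'
      have e2 : T.vec e = T.vec (T.next (T.opp e)) + T.vec (T.prev (T.opp e)) := by
        linear_combination -hcl'
      have e3 : χ (T.vec e) = χ (T.vec (T.next (T.opp e))) + χ (T.vec (T.prev (T.opp e))) := by
        rw [← map_add]; exact congrArg χ e2
      rw [e1, e3]; ring
  · intro h t t0 t1
    rw [flip_opp, flip_vec]
    by_cases h1 : h = e
    · subst h1
      rw [T.flipVec_e, flipF_in (not_out_e' h), flipF_in (not_out_e h), bp_e', bp_e]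
      have e1 : (t : ℂ) * (T.vec (T.prev (T.opp h)) + T.vec (T.next h)) -
          (T.vec (T.prev (T.opp h)) + T.vec (T.next h)) + -T.vec (T.prev h) =
          t * (T.vec (T.prev (T.opp h)) + T.vec (T.next h)) + T.vec (T.next (T.opp h)) := by
        linear_combination -hcl - hcl'
      have e2 : -T.vec (T.prev h) = T.vec (T.next (T.opp h)) +
          (T.vec (T.prev (T.opp h)) + T.vec (T.next h)) := by linear_combination -hcl - hcl'
      rw [e1, e2, map_add]; ring
    by_cases h2 : h = T.opp e
    · subst h2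
      rw [T.flipVec_e', T.opp2, flipF_in (not_out_e e), flipF_in (not_out_e' e), bp_e, bp_e']
      have e1 : (t : ℂ) * -(T.vec (T.prev (T.opp e)) + T.vec (T.next e)) -
          -(T.vec (T.prev (T.opp e)) + T.vec (T.next e)) + T.vec (T.next (T.opp e)) =
          t * -(T.vec (T.prev (T.opp e)) + T.vec (T.next e)) + -T.vec (T.prev e) := by
        linear_combination hcl + hcl'
      have e2 : T.vec (T.next (T.opp e)) = -T.vec (T.prev e) +
          -(T.vec (T.prev (T.opp e)) + T.vec (T.next e)) := by linear_combination hcl + hcl'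
      have e3 : χ (T.vec (T.next (T.opp e))) = χ (-T.vec (T.prev e)) +
          χ (-(T.vec (T.prev (T.opp e)) + T.vec (T.next e))) := by
        rw [← map_add]; exact congrArg χ e2
      rw [e1, e3]; ring
    · rw [T.flipVec_ne h1 h2, flipF_side hf h1 h2 t0 t1]
      have h3 : T.opp h ≠ e := fun h4 => h2 (by rw [← h4, T.opp2])
      have h4 : T.opp h ≠ T.opp e := fun h5 => h1 (T.opp.injective h5)
      have e1 : (t : ℂ) * T.vec h - T.vec h = ((1 - t : ℝ) : ℂ) * T.vec (T.opp h) := by
        rw [T.vec_opp]; push_cast; ring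
      have h5 := flipF_side hf h3 h4 (t := 1 - t) (by linarith) (by linarith)
      rw [← e1] at h5
      rw [h5]
      exact hf.edge h t t0 t1

end flip

end Pool.Agent.Helper58.TF
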