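import Pool.Agent.Helper58.TF.Fin2

/-!
# MP_e98778_an (full), module G: finiteness of the flip class

`reach_lip`: for every additive `χ` there is `C` with `|χ (Z.vec h)| ≤ C ‖Z.vec h‖` for all `Z`
reachable from `T`. `reach_lower`: the edges of all reachable triangulations have length `≥ ε`.
`reach_finite`: finitely many reachable triangulations have all edges `≤ R`.
-/

set_option autoImplicit false

open Pool.Agent.Helper87.LS Pool.Agent.Helper79.G

namespace Pool.Agent.Helper58.TF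

variable {H : Type}

/-- The piecewise linear primitive. -/
noncomputable def plf (T : Tri H) (χ : ℂ →+ ℝ) (h : H) (z : ℂ) : ℝ :=
  (χ (T.vec h) * cr z (T.vec (T.next h)) + χ (T.vec (T.next h)) * cr (T.vec h) z) /
    cr (T.vec h) (T.vec (T.next h))

theorem exists_plip [Finite H] (T : Tri H) (χ : ℂ →+ ℝ) : ∃ C, PLip T χ C (plf T χ) := by
  classical
  have := Fintype.ofFinite H
  set c : H → ℝ := fun h => (|χ (T.vec h)| * ‖T.vec (T.next h)‖ + |χ (T.vec (T.next h))| * ‖T.vec h‖) /
    cr (T.vec h) (T.vec (T.next h)) with hc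
  have hc0 : ∀ h, 0 ≤ c h := fun h => div_nonneg (by positivity) (T.pos h).le
  refine ⟨∑ h, c h, ?_, ?_, ?_, ?_⟩
  · intro h; simp [plf, cr]
  · intro h z _ z' _
    have hp := T.pos h
    have e : plf T χ h z - plf T χ h z' = (χ (T.vec h) * cr (z - z') (T.vec (T.next h)) +
        χ (T.vec (T.next h)) * cr (T.vec h) (z - z')) / cr (T.vec h) (T.vec (T.next h)) := by
      unfold plf
      rw [← sub_div]
      congr 1
      simp only [cr, Complex.sub_re, Complex.sub_im]; ring
    rw [e, abs_div, abs_of_pos hp]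
    have h1 : |χ (T.vec h) * cr (z - z') (T.vec (T.next h)) +
        χ (T.vec (T.next h)) * cr (T.vec h) (z - z')| ≤
        (|χ (T.vec h)| * ‖T.vec (T.next h)‖ + |χ (T.vec (T.next h))| * ‖T.vec h‖) * ‖z - z'‖ := by
      refine (abs_add_le _ _).trans ?_
      rw [abs_mul, abs_mul]
      have a1 := mul_le_mul_of_nonneg_left (abs_cr_le (z - z') (T.vec (T.next h)))
        (abs_nonneg (χ (T.vec h)))
      have a2 := mul_le_mul_of_nonneg_left (abs_cr_le (T.vec h) (z - z'))
        (abs_nonneg (χ (T.vec (T.next h))))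
      linarith
    have h2 : c h ≤ ∑ h, c h := Finset.single_le_sum (fun i _ => hc0 i) (Finset.mem_univ h)
    calc _ ≤ (|χ (T.vec h)| * ‖T.vec (T.next h)‖ + |χ (T.vec (T.next h))| * ‖T.vec h‖) * ‖z - z'‖ /
          cr (T.vec h) (T.vec (T.next h)) := by gcongr
      _ = c h * ‖z - z'‖ := by rw [hc]; ring
      _ ≤ _ := mul_le_mul_of_nonneg_right h2 (norm_nonneg _)
  · intro h z _
    have hcl : T.vec h + T.vec (T.next h) + T.vec (T.next (T.next h)) = 0 := T.closed h
    have h3 : T.vec (T.next (T.next h)) = -T.vec h - T.vec (T.next h) := by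
      linear_combination hcl
    have hp := T.pos h
    have e1 : cr (T.vec (T.next h)) (T.vec (T.next (T.next h))) = cr (T.vec h) (T.vec (T.next h)) := by
      rw [h3]; simp only [cr, Complex.sub_re, Complex.sub_im, Complex.neg_re, Complex.neg_im]; ring
    have e2 : χ (T.vec (T.next (T.next h))) = -χ (T.vec h) - χ (T.vec (T.next h)) := by
      rw [h3, map_sub, map_neg]
    unfold plf
    rw [e1, e2, h3]
    field_simp
    simp only [cr, Complex.sub_re, Complex.sub_im, Complex.neg_re, Complex.neg_im]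
    ring
  · intro h t _ _
    have hp := (T.pos h).ne'
    have hp' := (T.pos (T.opp h)).ne'
    have e1 : plf T χ h (t * T.vec h) = t * χ (T.vec h) := by
      unfold plf
      rw [div_eq_iff hp]
      simp only [cr, Complex.re_ofReal_mul, Complex.im_ofReal_mul]; ring
    have e2 : plf T χ (T.opp h) (t * T.vec h - T.vec h) = (1 - t) * χ (T.vec (T.opp h)) := by
      unfold plf
      rw [div_eq_iff hp']
      rw [T.vec_opp h]
      simp only [cr, Complex.re_ofReal_mul, Complex.im_ofReal_mul, Complex.sub_re, Complex.sub_im,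
        Complex.neg_re, Complex.neg_im]; ring
    rw [e1, e2, T.vec_opp, map_neg]
    ring

theorem reach_plip {E : Set H} {T Z : Tri H} (h : Reach E T Z) {χ : ℂ →+ ℝ} {C : ℝ}
    (hT : ∃ f, PLip T χ C f) : ∃ f, PLip Z χ C f := by
  induction h with
  | refl => exact hT
  | flip e he _ _ _ ih =>
    obtain ⟨f, hf⟩ := ih
    exact ⟨_, hf.flip e he⟩

theorem reach_lip [Finite H] (T : Tri H) (χ : ℂ →+ ℝ) : ∃ C, 0 < C ∧ ∀ (E : Set H) (Z : Tri H),
    Reach E T Z → ∀ h, |χ (Z.vec h)| ≤ C * ‖Z.vec h‖ := by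
  obtain ⟨C, hC⟩ := exists_plip T χ
  refine ⟨max C 1, by positivity, fun E Z hZ h => ?_⟩
  obtain ⟨f, hf⟩ := reach_plip hZ ⟨_, hC⟩
  exact (hf.bound h).trans (mul_le_mul_of_nonneg_right (le_max_left _ _) (norm_nonneg _))

theorem reach_opp {E : Set H} {T Z : Tri H} (h : Reach E T Z) : Z.opp = T.opp := by
  induction h with
  | refl => rfl
  | flip e he _ _ _ ih => exact ih

/-- Additive groups of plane vectors containing the edge vectors are kept. -/
theorem reach_mem {E : Set H} {T Z : Tri H} (h : Reach E T Z) (G : AddSubgroup ℂ)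
    (hG : ∀ h, T.vec h ∈ G) (k : H) : Z.vec k ∈ G := by
  induction h generalizing k with
  | refl => exact hG k
  | @flip T' e he _ _ _ ih =>
    show T'.flipVec e k ∈ G
    by_cases h1 : k = e
    · rw [h1, T'.flipVec_e]; exact G.add_mem (ih _) (ih _)
    by_cases h2 : k = T'.opp e
    · rw [h2, T'.flipVec_e']; exact G.neg_mem (G.add_mem (ih _) (ih _))
    · rw [T'.flipVec_ne h1 h2]; exact ih k

/-- Coordinates for the edge vectors: finitely many additive functionals which are injective on a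
group containing all edge vectors and have values in `(1/D) ℤ` there. -/
theorem exists_coords [Finite H] (T : Tri H) : ∃ (k : ℕ) (χ : Fin k → (ℂ →+ ℝ)) (G : AddSubgroup ℂ)
    (D : ℕ), 0 < D ∧ (∀ h, T.vec h ∈ G) ∧ (∀ g ∈ G, (∀ i, χ i g = 0) → g = 0) ∧
      ∀ g ∈ G, ∀ i, ∃ m : ℤ, (D : ℝ) * χ i g = m := by
  classical
  have := Fintype.ofFinite H
  set p : Submodule ℚ ℂ := Submodule.span ℚ (Set.range T.vec) with hp
  have hfin : Module.Finite ℚ p := Module.Finite.span_of_finite ℚ (Set.finite_range _)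
  set b := Module.finBasis ℚ p with hb
  have hext : ∀ i, ∃ g : ℂ →ₗ[ℚ] ℝ, ∀ x : p, g x = (b.repr x i : ℝ) := by
    intro i
    obtain ⟨g, hg⟩ := LinearMap.exists_extend (p := p)
      ((Algebra.linearMap ℚ ℝ).comp (b.coord i))
    refine ⟨g, fun x => ?_⟩
    have := congrArg (fun f => f x) hg
    simpa using this
  choose g hg using hext
  -- common denominator
  set D : ℕ := ∏ h : H, ∏ i, (b.repr ⟨T.vec h, Submodule.subset_span ⟨h, rfl⟩⟩ i).den with hD
  have hD0 : 0 < D := Finset.prod_pos fun h _ => Finset.prod_pos fun i _ => Rat.den_pos _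
  let G : AddSubgroup ℂ :=
    { carrier := {x | x ∈ p ∧ ∀ i, ∃ m : ℤ, (D : ℝ) * g i x = m}
      add_mem' := by
        rintro x y ⟨h1, h2⟩ ⟨h3, h4⟩
        refine ⟨p.add_mem h1 h3, fun i => ?_⟩
        obtain ⟨m, hm⟩ := h2 i
        obtain ⟨n, hn⟩ := h4 i
        exact ⟨m + n, by rw [map_add, mul_add, hm, hn]; push_cast; ring⟩
      zero_mem' := ⟨p.zero_mem, fun i => ⟨0, by simp⟩⟩
      neg_mem' := by
        rintro x ⟨h1, h2⟩
        refine ⟨p.neg_mem h1, fun i => ?_⟩
        obtain ⟨m, hm⟩ := h2 i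
        exact ⟨-m, by rw [map_neg, mul_neg, hm]; push_cast; ring⟩ }
  refine ⟨_, fun i => (g i).toAddMonoidHom, G, D, hD0, ?_, ?_, ?_⟩
  · intro h
    refine ⟨Submodule.subset_span ⟨h, rfl⟩, fun i => ?_⟩
    have h1 := hg i ⟨T.vec h, Submodule.subset_span ⟨h, rfl⟩⟩
    simp only at h1
    rw [h1]
    set r : ℚ := b.repr ⟨T.vec h, Submodule.subset_span ⟨h, rfl⟩⟩ i with hr
    have hdvd : r.den ∣ D := by
      rw [hD]
      exact (Finset.dvd_prod_of_mem (fun i => (b.repr ⟨T.vec h, Submodule.subset_span ⟨h, rfl⟩⟩ i).den)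
        (Finset.mem_univ i)).trans (Finset.dvd_prod_of_mem
          (fun h => ∏ i, (b.repr ⟨T.vec h, Submodule.subset_span ⟨h, rfl⟩⟩ i).den) (Finset.mem_univ h))
    obtain ⟨q, hq⟩ := hdvd
    refine ⟨q * r.num, ?_⟩
    have h2 : (r : ℝ) * (r.den : ℝ) = (r.num : ℝ) := by
      have := Rat.mul_den_eq_num r
      exact_mod_cast this
    rw [hq]
    push_cast
    calc (r.den : ℝ) * q * r = q * (r * r.den) := by ring
      _ = q * r.num := by rw [h2]
  · rintro x ⟨hx, _⟩ h0
    have : (⟨x, hx⟩ : p) = 0 := by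
      apply b.repr.injective
      ext i
      have h1 := hg i ⟨x, hx⟩
      have h2 : g i x = 0 := h0 i
      simp only at h1
      rw [h2] at h1
      rw [map_zero, Finsupp.zero_apply]
      exact_mod_cast h1.symm
    exact congrArg Subtype.val this
  · rintro x ⟨_, hx⟩ i
    exact hx i

/-- **The edges of all reachable triangulations are bounded below.** -/
theorem reach_lower [Finite H] (T : Tri H) : ∃ ε : ℝ, 0 < ε ∧ ∀ (E : Set H) (Z : Tri H),
    Reach E T Z → ∀ h, ε ≤ ‖Z.vec h‖ := by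
  classical
  obtain ⟨k, χ, G, D, hD, hG, hinj, hint⟩ := exists_coords T
  have hC := fun i => reach_lip T (χ i)
  choose C hC0 hC using hC
  set M : ℝ := 1 + ∑ i, C i with hM
  have hM0 : 0 < M := by
    have : 0 ≤ ∑ i, C i := Finset.sum_nonneg fun i _ => (hC0 i).le
    linarith
  have hD' : (0 : ℝ) < D := by exact_mod_cast hD
  refine ⟨1 / (D * M), by positivity, fun E Z hZ h => ?_⟩
  have hmem := reach_mem hZ G hG h
  have hne : ∃ i, χ i (Z.vec h) ≠ 0 := by
    by_contra hc
    push Not at hc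
    exact Z.vec_ne_zero h (hinj _ hmem hc)
  obtain ⟨i, hi⟩ := hne
  obtain ⟨m, hm⟩ := hint _ hmem i
  have hm0 : m ≠ 0 := by
    rintro rfl
    rw [Int.cast_zero] at hm
    rcases mul_eq_zero.mp hm with h1 | h1
    · linarith
    · exact hi h1
  have h1 : 1 ≤ |(D : ℝ) * χ i (Z.vec h)| := by
    rw [hm]
    exact_mod_cast Int.one_le_abs hm0
  rw [abs_mul, abs_of_pos hD'] at h1
  have h2 : |χ i (Z.vec h)| ≤ M * ‖Z.vec h‖ := by
    refine (hC i E Z hZ h).trans (mul_le_mul_of_nonneg_right ?_ (norm_nonneg _))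
    have := Finset.single_le_sum (f := C) (fun i _ => (hC0 i).le) (Finset.mem_univ i)
    linarith
  rw [div_le_iff₀ (by positivity)]
  calc (1 : ℝ) ≤ D * |χ i (Z.vec h)| := h1
    _ ≤ D * (M * ‖Z.vec h‖) := mul_le_mul_of_nonneg_left h2 hD'.le
    _ = ‖Z.vec h‖ * (D * M) := by ring

/-- The set of all edge vectors of length `≤ R` of reachable triangulations is finite. -/
theorem reach_vec_finite [Finite H] (T : Tri H) (R : ℝ) :
    {v : ℂ | ‖v‖ ≤ R ∧ ∃ (E : Set H) (Z : Tri H) (h : H), Reach E T Z ∧ Z.vec h = v}.Finite := by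
  classical
  obtain ⟨k, χ, G, D, hD, hG, hinj, hint⟩ := exists_coords T
  have hC := fun i => reach_lip T (χ i)
  choose C hC0 hC using hC
  set M : ℝ := 1 + ∑ i, C i with hM
  have hM0 : 0 < M := by
    have : 0 ≤ ∑ i, C i := Finset.sum_nonneg fun i _ => (hC0 i).le
    linarith
  have hD' : (0 : ℝ) < D := by exact_mod_cast hD
  set B : ℤ := ⌈D * (M * |R|)⌉ with hB
  have hfin : (Set.Icc (fun _ : Fin k => -B) (fun _ => B)).Finite := Set.finite_Icc _ _
  -- integer coordinates
  have hcoord : ∀ v : ℂ, ∃ m : Fin k → ℤ, v ∈ G → ∀ i, (D : ℝ) * χ i v = m i := by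
    intro v
    by_cases hv : v ∈ G
    · choose m hm using hint v hv
      exact ⟨m, fun _ => hm⟩
    · exact ⟨0, fun h => absurd h hv⟩
  choose m hm using hcoord
  refine Set.Finite.of_finite_image (f := m) (hfin.subset ?_) ?_
  · rintro _ ⟨v, ⟨hv, E, Z, h, hZ, rfl⟩, rfl⟩
    have hmem := reach_mem hZ G hG h
    have hb : ∀ i, |(m (Z.vec h) i : ℝ)| ≤ D * (M * |R|) := by
      intro i
      rw [← hm _ hmem i, abs_mul, abs_of_pos hD']
      apply mul_le_mul_of_nonneg_left _ hD'.le
      have h2 : |χ i (Z.vec h)| ≤ M * ‖Z.vec h‖ := by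
        refine (hC i E Z hZ h).trans (mul_le_mul_of_nonneg_right ?_ (norm_nonneg _))
        have := Finset.single_le_sum (f := C) (fun i _ => (hC0 i).le) (Finset.mem_univ i)
        linarith
      exact h2.trans (mul_le_mul_of_nonneg_left (hv.trans (le_abs_self R)) hM0.le)
    constructor
    · intro i
      have h1 := (abs_le.mp (hb i)).1
      have h2 := Int.le_ceil (D * (M * |R|))
      rw [← hB] at h2
      show -B ≤ m (Z.vec h) i
      have : (-(B : ℝ)) ≤ (m (Z.vec h) i : ℝ) := by linarith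
      exact_mod_cast this
    · intro i
      have h1 := (abs_le.mp (hb i)).2
      have h2 := Int.le_ceil (D * (M * |R|))
      rw [← hB] at h2
      show m (Z.vec h) i ≤ B
      have : (m (Z.vec h) i : ℝ) ≤ (B : ℝ) := by linarith
      exact_mod_cast this
  · rintro v ⟨_, E, Z, h, hZ, rfl⟩ v' ⟨_, E', Z', h', hZ', rfl⟩ heq
    have hmem := reach_mem hZ G hG h
    have hmem' := reach_mem hZ' G hG h'
    have : Z.vec h - Z'.vec h' = 0 := by
      apply hinj _ (G.sub_mem hmem hmem')
      intro i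
      rw [map_sub]
      have h1 := hm _ hmem i
      have h2 := hm _ hmem' i
      rw [heq] at h1
      have : (D : ℝ) * χ i (Z.vec h) = D * χ i (Z'.vec h') := by rw [h1, h2]
      have := mul_left_cancel₀ hD'.ne' this
      linarith
    exact sub_eq_zero.mp this

/-- **Finitely many reachable triangulations have all edges `≤ R`.** -/
theorem reach_finite [Finite H] (T : Tri H) (R : ℝ) :
    {Z : Tri H | (∃ E, Reach E T Z) ∧ ∀ h, ‖Z.vec h‖ ≤ R}.Finite := by
  classical
  have hV := reach_vec_finite T R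
  set V := {v : ℂ | ‖v‖ ≤ R ∧ ∃ (E : Set H) (Z : Tri H) (h : H), Reach E T Z ∧ Z.vec h = v} with hVd
  have hF : (Set.univ ×ˢ Set.pi Set.univ (fun _ : H => V) :
      Set (Equiv.Perm H × (H → ℂ))).Finite :=
    Set.finite_univ.prod (by
      have := Set.Finite.pi' (fun _ : H => hV)
      convert this using 1
      ext f; simp)
  refine Set.Finite.of_finite_image (f := fun Z : Tri H => (Z.next, Z.vec)) (hF.subset ?_) ?_
  · rintro _ ⟨Z, ⟨⟨E, hZ⟩, hR⟩, rfl⟩
    exact ⟨Set.mem_univ _, fun h _ => ⟨hR h, E, Z, h, hZ, rfl⟩⟩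
  · rintro Z ⟨⟨E, hZ⟩, _⟩ Z' ⟨⟨E', hZ'⟩, _⟩ heq
    have h1 : Z.next = Z'.next := congrArg Prod.fst heq
    have h2 : Z.vec = Z'.vec := congrArg Prod.snd heq
    have h3 : Z.opp = Z'.opp := (reach_opp hZ).trans (reach_opp hZ').symm
    cases Z
    cases Z'
    simp only at h1 h2 h3
    subst h1 h2 h3
    rfl

end Pool.Agent.Helper58.TF
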