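import Pool.Agent.Helper58.TF.Chain

/-!
# MP_e98778_an (full), module G: triangulations with a gap

(C) Let `E` be a set of edges of length `≤ l`, all other edges have length `> L` and are locally
Delaunay, `l ≤ L / (10 card H)`, all doubled areas `≤ L² / 8`. Then every triangle with a side outside
`E` has exactly one side in `E`.
-/

set_option autoImplicit false

open Pool.Agent.Helper87.LS Pool.Agent.Helper79.G

namespace Pool.Agent.Helper58.TF

variable {H : Type} {T : Tri H}

theorem one_short [Fintype H] {E : Set H} (hE : Tri.IsEdgeSet T E) {l L : ℝ} (hl0 : 0 ≤ l)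
    (hl : ∀ h ∈ E, sq (T.vec h) ≤ l ^ 2) (hL : ∀ h, h ∉ E → L ^ 2 < sq (T.vec h)) (hL0 : 0 < L)
    (hlL : 10 * Fintype.card H * l ≤ L) (hA : ∀ h, 8 * ar T h ≤ L ^ 2)
    (hdel : ∀ h, h ∉ E → LocDel T h) (h : H) (hh : h ∉ E) :
    (T.next h ∈ E ∧ T.prev h ∉ E) ∨ (T.next h ∉ E ∧ T.prev h ∈ E) := by
  have hcard : 1 ≤ (Fintype.card H : ℝ) := by
    have : 0 < Fintype.card H := Fintype.card_pos_iff.mpr ⟨h⟩
    exact_mod_cast this
  have hlL' : 10 * l ≤ L := by nlinarith
  by_cases h1 : T.next h ∈ E <;> by_cases h2 : T.prev h ∈ E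
  · exfalso
    have h3 := hl _ h1
    have h4 := hl _ h2
    have h5 := hL _ hh
    have h6 := cos_law (T := T) h
    have h7 := lag (T := T) h
    have h8 : dd T h ^ 2 ≤ (l ^ 2) ^ 2 := by
      nlinarith [mul_le_mul h3 h4 (sq_nonneg' _) (by positivity), sq_nonneg (ar T h)]
    have h9 : -(l ^ 2) ≤ dd T h := neg_le_of_abs_le (abs_le_of_sq_le_sq h8 (by positivity))
    have h10 : l ^ 2 ≤ (L / 10) ^ 2 := by
      apply pow_le_pow_left₀ hl0; linarith
    nlinarith
  · exact Or.inl ⟨h1, h2⟩
  · exact Or.inr ⟨h1, h2⟩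
  · exfalso
    -- a triangle without short side: walk
    set κ : ℝ := 1 - 2 * l / L with hκ
    have hκ0 : 0 ≤ 2 * l / L := by positivity
    have hκ1 : κ ≤ 1 := by linarith
    have hκpos : 0 < κ := by
      rw [hκ, sub_pos, div_lt_one hL0]; linarith
    have hbern : 1 / 2 ≤ κ ^ Fintype.card H := by
      have h3 := one_add_mul_le_pow (a := -(2 * l / L)) (by
        have : 2 * l / L ≤ 1 := by rw [div_le_one hL0]; linarith
        linarith) (Fintype.card H)
      have h4 : (Fintype.card H : ℝ) * (2 * l / L) ≤ 1 / 5 := by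
        rw [mul_div_assoc', div_le_iff₀ hL0]; linarith
      have h5 : 1 + -(2 * l / L) = κ := by rw [hκ]; ring
      rw [h5] at h3
      linarith
    have hno : ∀ g, g ∉ E → T.next g ∉ E → T.prev g ∉ E → IsLong T g →
        4 * ar T g ≤ -dd T g := by
      intro g g1 g2 g3 gl
      have h4 := hA g
      have h5 := ar_pos (T := T) g
      have h66 : 64 * ar T g ^ 2 ≤ (L ^ 2) ^ 2 := by nlinarith
      have h6 : 0 < L ^ 2 := by positivity
      have h3 := gl.obtuse (e := L ^ 2) (by positivity) (hL _ g2).le (hL _ g3).le (by nlinarith)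
      have h7 : (4 * ar T g) ^ 2 ≤ (-dd T g) ^ 2 := by nlinarith
      exact (abs_le_of_sq_le_sq' h7 (by linarith)).2
    obtain ⟨g0, hg0, hg0l⟩ := exists_long (T := T) h
    have hg0E : g0 ∉ E ∧ T.next g0 ∉ E ∧ T.prev g0 ∉ E := by
      rcases hg0 with rfl | rfl | rfl
      · exact ⟨hh, h1, h2⟩
      · rw [next_next, prev_next]; exact ⟨h1, h2, hh⟩
      · rw [next_prev, prev_prev]; exact ⟨h2, hh, h1⟩
    refine chain_false (P := fun i g => g ∉ E ∧ IsLong T g ∧ 4 * κ ^ i * ar T g ≤ -dd T g)
      (f := fun g => sq (T.vec g)) g0 ⟨hg0E.1, hg0l, by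
        simpa using hno g0 hg0E.1 hg0E.2.1 hg0E.2.2 hg0l⟩ ?_
    rintro i hi g ⟨gE, gl, gd⟩
    have hκi : 1 / 2 ≤ κ ^ i := by
      have := pow_le_pow_of_le_one hκpos.le hκ1 hi.le
      linarith
    have hκi1 : κ ^ (i + 1) ≤ 1 := pow_le_one₀ hκpos.le hκ1
    set Q : ℝ := 4 * κ ^ i with hQ
    have hQ2 : 2 ≤ Q := by rw [hQ]; linarith
    have hag := ar_pos (T := T) g
    have hao := ar_pos (T := T) (T.opp g)
    set o := T.opp g with ho
    have hoE : o ∉ E := fun hc => gE ((hE g).mpr hc)
    have hd := hdel g gE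
    unfold LocDel at hd
    have hdo : Q * ar T o ≤ dd T o := by
      have h3 := mul_le_mul_of_nonneg_right gd hao.le
      have h4 : ar T g * (Q * ar T o) ≤ ar T g * dd T o := by
        rw [← ho] at hd
        nlinarith
      exact le_of_mul_le_mul_left h4 hag
    have hdo2 : 2 * ar T o ≤ dd T o := by nlinarith
    have hdopos : 0 < dd T o := by linarith
    have hlo := lag (T := T) o
    obtain ⟨k, hk, hkl⟩ := exists_long (T := T) o
    have hk0 : k ≠ o := by
      rintro rfl
      have h3 := hkl.fat hdopos.le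
      nlinarith
    -- the third side `f`
    obtain ⟨f, hfk⟩ : ∃ f, (k = T.next o ∧ f = T.prev o) ∨ (k = T.prev o ∧ f = T.next o) := by
      rcases hk with hk | hk | hk
      · exact absurd hk hk0
      · exact ⟨_, Or.inl ⟨hk, rfl⟩⟩
      · exact ⟨_, Or.inr ⟨hk, rfl⟩⟩
    have hak : ar T k = ar T o := by
      rcases hfk with ⟨hk, -⟩ | ⟨hk, -⟩
      · rw [hk]; exact ar_next _
      · rw [hk]; exact ar_prev _
    have hdk : dd T k = sq (T.vec f) - dd T o := by
      rcases hfk with ⟨hk, hf⟩ | ⟨hk, hf⟩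
      · rw [hk, hf]; exact dd_next _
      · rw [hk, hf]; exact dd_prev _
    have hfk2 : sq (T.vec (T.next o)) * sq (T.vec (T.prev o)) = sq (T.vec f) * sq (T.vec k) := by
      rcases hfk with ⟨hk, hf⟩ | ⟨hk, hf⟩
      · rw [hk, hf]; ring
      · rw [hk, hf]
    have hko : sq (T.vec o) ≤ sq (T.vec k) := by
      rcases hfk with ⟨hk, -⟩ | ⟨hk, -⟩
      · have := hkl.2; rw [hk, prev_next] at this; rw [hk]; exact this
      · have := hkl.1; rw [hk, next_prev] at this; rw [hk]; exact this
    have hkL : L ^ 2 < sq (T.vec k) := (hL o hoE).trans_le hko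
    have hkE : k ∉ E := by
      intro hc
      have := hl k hc
      have h10 : l ^ 2 ≤ L ^ 2 := pow_le_pow_left₀ hl0 (by linarith) 2
      linarith
    have hcl : sq (T.vec k) = sq (T.vec o) + sq (T.vec f) - 2 * dd T k := by
      have h3 := cos_law (T := T) k
      have h4 : sq (T.vec (T.next k)) + sq (T.vec (T.prev k)) = sq (T.vec o) + sq (T.vec f) := by
        rcases hfk with ⟨hk, hf⟩ | ⟨hk, hf⟩
        · rw [hk, hf, next_next, prev_next]; ring
        · rw [hk, hf, next_prev, prev_prev]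
      linarith
    have hmain : 4 * κ ^ (i + 1) * ar T k ≤ -dd T k := by
      by_cases hf : f ∈ E
      · have h3 := hl f hf
        have h4 : sq (T.vec f) * L ^ 2 ≤ 2 * dd T o ^ 2 := by
          have h5 : sq (T.vec f) * L ^ 2 ≤ sq (T.vec f) * sq (T.vec k) :=
            mul_le_mul_of_nonneg_left hkL.le (sq_nonneg' _)
          nlinarith
        have h5 : sq (T.vec f) ≤ 2 * l / L * dd T o := by
          have h6 : sq (T.vec f) ^ 2 ≤ (2 * l / L * dd T o) ^ 2 := by
            have h7 : (sq (T.vec f) * L) ^ 2 ≤ (2 * l * dd T o) ^ 2 := by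
              have h8 := mul_le_mul h3 h4 (mul_nonneg (sq_nonneg' _) (by positivity)) (by positivity)
              nlinarith [sq_nonneg (l * dd T o)]
            have h9 : sq (T.vec f) * L ≤ 2 * l * dd T o :=
              abs_le_of_sq_le_sq' h7 (by positivity) |>.2
            have h10 : sq (T.vec f) ≤ 2 * l / L * dd T o := by
              rw [div_mul_eq_mul_div, le_div_iff₀ hL0]; exact h9
            exact pow_le_pow_left₀ (sq_nonneg' _) h10 2
          exact abs_le_of_sq_le_sq' h6 (by positivity) |>.2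
        have h6 : κ * dd T o ≤ -dd T k := by rw [hdk, hκ]; linarith
        have h7 : κ * (Q * ar T o) ≤ κ * dd T o := mul_le_mul_of_nonneg_left hdo hκpos.le
        calc 4 * κ ^ (i + 1) * ar T k = κ * (Q * ar T o) := by rw [hak, hQ]; ring
          _ ≤ κ * dd T o := h7
          _ ≤ _ := h6
      · have h3 : 4 * ar T k ≤ -dd T k := by
          apply hno k hkE _ _ hkl
          · rcases hfk with ⟨hk, hf'⟩ | ⟨hk, hf'⟩
            · rw [hk, next_next, ← hf']; exact hf
            · rw [hk, next_prev]; exact hoE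
          · rcases hfk with ⟨hk, hf'⟩ | ⟨hk, hf'⟩
            · rw [hk, prev_next]; exact hoE
            · rw [hk, prev_prev, ← hf']; exact hf
        have h4 := ar_pos (T := T) k
        nlinarith
    refine ⟨k, ⟨hkE, hkl, hmain⟩, ?_⟩
    show sq (T.vec g) < sq (T.vec k)
    rw [← sq_opp (T := T) g, ← ho, hcl]
    have h3 : dd T k < 0 := by
      have h4 := ar_pos (T := T) k
      have : 0 < 4 * κ ^ (i + 1) * ar T k := by positivity
      linarith
    have := sq_nonneg' (T.vec f)
    linarith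

end Pool.Agent.Helper58.TF
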