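import Pool.Agent.Helper58.TF.Chain
import Pool.Agent.Helper58.TF.Fin3

/-!
# MP_e98778_an (full), module G: minimisers of the harmonic index

`hidx T = ∑_h |vec h|² / ar h`. Flips keep the total area; the flip of an edge which is not locally
Delaunay lowers the index. So in every class `Reach E T` there is a triangulation all of whose edges
outside `E` are locally Delaunay.
-/

set_option autoImplicit false

open Pool.Agent.Helper87.LS Pool.Agent.Helper79.G

namespace Pool.Agent.Helper58.TF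

variable {H : Type}

/-- A sum over the darts that changes only at the six darts of a flip. -/
theorem sum_six [Fintype H] (T : Tri H) (e : H) (F : H → ℝ) (hF : ∀ h, T.Out e h → F h = 0) :
    ∑ h, F h = (F e + F (T.next e) + F (T.prev e)) +
      (F (T.opp e) + F (T.next (T.opp e)) + F (T.prev (T.opp e))) := by
  classical
  have hs := T.six e
  have hsub : ∑ h, F h = ∑ h ∈ ({e, T.next e, T.prev e, T.opp e, T.next (T.opp e),
      T.prev (T.opp e)} : Finset H), F h := by
    symm
    apply Finset.sum_subset (Finset.subset_univ _)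
    intro h _ hh
    apply hF
    simp only [Finset.mem_insert, Finset.mem_singleton, not_or] at hh
    exact hh
  rw [hsub, Finset.sum_insert, Finset.sum_insert, Finset.sum_insert, Finset.sum_insert,
    Finset.sum_insert, Finset.sum_singleton]
  · ring
  · rw [Finset.mem_singleton]; exact (T.prev_ne_next (T.opp e)).symm
  · simp only [Finset.mem_insert, Finset.mem_singleton, not_or]
    exact ⟨(T.next_ne _).symm, (T.prev_ne _).symm⟩
  · simp only [Finset.mem_insert, Finset.mem_singleton, not_or]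
    exact ⟨(T.opp_ne_prev e).symm, Ne.symm hs.2.2.2.2.2.2.2.2.1,
      Ne.symm hs.2.2.2.2.2.2.2.2.2.2.2.2.1⟩
  · simp only [Finset.mem_insert, Finset.mem_singleton, not_or]
    exact ⟨(T.prev_ne_next e).symm, (T.opp_ne_next e).symm, Ne.symm hs.2.2.2.2.2.2.2.1,
      Ne.symm hs.2.2.2.2.2.2.2.2.2.2.2.1⟩
  · simp only [Finset.mem_insert, Finset.mem_singleton, not_or]
    exact ⟨(T.next_ne e).symm, (T.prev_ne e).symm, (T.opp_ne e).symm, Ne.symm hs.2.2.2.2.2.2.1,
      Ne.symm hs.2.2.2.2.2.2.2.2.2.2.1⟩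

section flip

variable (T : Tri H) (e : H) (he : T.Flippable e)

theorem ar_flip_out {h : H} (ho : T.Out e h) : ar (T.flip e he) h = ar T h := by
  show cr (T.flipVec e h) (T.flipVec e (T.flipNext e h)) = _
  rw [T.flipNext_out ho, T.flipVec_ne ho.1 ho.2.2.2.1, T.flipVec_ne ho.next.1 ho.next.2.2.2.1]
  rfl

theorem vec_flip_out {h : H} (ho : T.Out e h) : (T.flip e he).vec h = T.vec h :=
  T.flipVec_ne ho.1 ho.2.2.2.1

theorem ar_flip_b : ar (T.flip e he) (T.prev e) = cr (T.vec (T.prev e)) (T.vec (T.next (T.opp e))) := by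
  have hs := T.six e
  show cr (T.flipVec e (T.prev e)) (T.flipVec e (T.flipNext e (T.prev e))) = _
  rw [T.flipNext_b, T.flipVec_ne hs.1 (Ne.symm hs.2.2.2.2.2.1),
    T.flipVec_ne hs.2.2.2.2.2.2.1 hs.2.2.2.2.2.2.2.2.2.1]

theorem ar_flip_c : ar (T.flip e he) (T.next (T.opp e)) =
    cr (T.vec (T.prev e)) (T.vec (T.next (T.opp e))) := by
  rw [← ar_flip_b T e he]
  have := ar_next (T := T.flip e he) (T.prev e)
  rw [show (T.flip e he).next (T.prev e) = T.next (T.opp e) from T.flipNext_b e] at this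
  exact this

theorem ar_flip_e : ar (T.flip e he) e = cr (T.vec (T.prev e)) (T.vec (T.next (T.opp e))) := by
  rw [← ar_flip_b T e he]
  have := ar_next (T := T.flip e he) e
  rw [show (T.flip e he).next e = T.prev e from T.flipNext_e e] at this
  exact this.symm

theorem ar_flip_d : ar (T.flip e he) (T.prev (T.opp e)) =
    cr (T.vec (T.prev (T.opp e))) (T.vec (T.next e)) := by
  have hs := T.six e
  show cr (T.flipVec e (T.prev (T.opp e))) (T.flipVec e (T.flipNext e (T.prev (T.opp e)))) = _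
  rw [T.flipNext_d, T.flipVec_ne hs.2.2.2.2.2.2.2.2.2.2.1 hs.2.2.2.2.2.2.2.2.2.2.2.2.2.1,
    T.flipVec_ne hs.2.1 (Ne.symm hs.2.2.2.2.1)]

theorem ar_flip_a : ar (T.flip e he) (T.next e) =
    cr (T.vec (T.prev (T.opp e))) (T.vec (T.next e)) := by
  rw [← ar_flip_d T e he]
  have := ar_next (T := T.flip e he) (T.prev (T.opp e))
  rw [show (T.flip e he).next (T.prev (T.opp e)) = T.next e from T.flipNext_d e] at this
  exact this

theorem ar_flip_e' : ar (T.flip e he) (T.opp e) =
    cr (T.vec (T.prev (T.opp e))) (T.vec (T.next e)) := by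
  rw [← ar_flip_d T e he]
  have := ar_next (T := T.flip e he) (T.opp e)
  rw [show (T.flip e he).next (T.opp e) = T.prev (T.opp e) from T.flipNext_e' e] at this
  exact this.symm

end flip

/-- Flips keep the total area. -/
theorem sum_ar_flip [Fintype H] (T : Tri H) (e : H) (he : T.Flippable e) :
    ∑ h, ar (T.flip e he) h = ∑ h, ar T h := by
  have h1 := sum_six T e (fun h => ar (T.flip e he) h - ar T h) (fun h ho => by
    rw [ar_flip_out T e he ho, sub_self])
  rw [Finset.sum_sub_distrib, ar_flip_e, ar_flip_a, ar_flip_b, ar_flip_e', ar_flip_c, ar_flip_d,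
    ar_next, ar_prev, ar_next, ar_prev] at h1
  have hv : T.vec (T.opp e) = -T.vec e := T.vec_opp e
  have h2 := area_flip (closed' (T := T) e) (by have := closed' (T := T) (T.opp e); rwa [hv] at this)
  have h3 : ar T e = cr (T.vec e) (T.vec (T.next e)) := rfl
  have h4 : ar T (T.opp e) = cr (-T.vec e) (T.vec (T.next (T.opp e))) := by
    unfold ar; rw [hv]
  rw [← h3, ← h4] at h2
  linarith

theorem sum_ar_reach [Fintype H] {E : Set H} {T Z : Tri H} (h : Reach E T Z) :
    ∑ h, ar Z h = ∑ h, ar T h := by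
  induction h with
  | refl => rfl
  | flip e he _ _ _ ih => rw [sum_ar_flip, ih]

/-- Three times each doubled area is at most the sum over all darts. -/
theorem three_ar_le [Fintype H] (T : Tri H) (h : H) : 3 * ar T h ≤ ∑ k, ar T k := by
  classical
  have h1 : ∑ k ∈ ({h, T.next h, T.prev h} : Finset H), ar T k ≤ ∑ k, ar T k :=
    Finset.sum_le_sum_of_subset_of_nonneg (Finset.subset_univ _) fun k _ _ => (ar_pos k).le
  rw [Finset.sum_insert, Finset.sum_insert, Finset.sum_singleton, ar_next, ar_prev] at h1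
  · linarith
  · rw [Finset.mem_singleton]; exact (T.prev_ne_next h).symm
  · simp only [Finset.mem_insert, Finset.mem_singleton, not_or]
    exact ⟨(T.next_ne h).symm, (T.prev_ne h).symm⟩

/-- The harmonic index. -/
noncomputable def hidx [Fintype H] (T : Tri H) : ℝ := ∑ h, sq (T.vec h) / ar T h

/-- The flip of an edge which is not locally Delaunay lowers the index. -/
theorem hidx_flip_lt [Fintype H] (T : Tri H) (e : H) (he : T.Flippable e)
    (hd : dd T e * ar T (T.opp e) + dd T (T.opp e) * ar T e < 0) :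
    hidx (T.flip e he) < hidx T := by
  have hv : T.vec (T.opp e) = -T.vec e := T.vec_opp e
  have hcl := closed' (T := T) e
  have hcl' : -T.vec e + T.vec (T.next (T.opp e)) + T.vec (T.prev (T.opp e)) = 0 := by
    have := closed' (T := T) (T.opp e); rwa [hv] at this
  have hs := T.six e
  have wv_b : (T.flip e he).vec (T.prev e) = T.vec (T.prev e) :=
    T.flipVec_ne hs.1 (Ne.symm hs.2.2.2.2.2.1)
  have wv_c : (T.flip e he).vec (T.next (T.opp e)) = T.vec (T.next (T.opp e)) :=
    T.flipVec_ne hs.2.2.2.2.2.2.1 hs.2.2.2.2.2.2.2.2.2.1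
  have wv_d : (T.flip e he).vec (T.prev (T.opp e)) = T.vec (T.prev (T.opp e)) :=
    T.flipVec_ne hs.2.2.2.2.2.2.2.2.2.2.1 hs.2.2.2.2.2.2.2.2.2.2.2.2.2.1
  have wv_a : (T.flip e he).vec (T.next e) = T.vec (T.next e) :=
    T.flipVec_ne hs.2.1 (Ne.symm hs.2.2.2.2.1)
  have wv_e : (T.flip e he).vec e = -(T.vec (T.prev e) + T.vec (T.next (T.opp e))) := by
    show T.flipVec e e = _
    rw [T.flipVec_e]; linear_combination hcl + hcl'
  have wv_e' : (T.flip e he).vec (T.opp e) = T.vec (T.prev e) + T.vec (T.next (T.opp e)) := by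
    show T.flipVec e (T.opp e) = _
    rw [T.flipVec_e']; linear_combination -hcl - hcl'
  have h1 := sum_six T e (fun h => sq (T.vec h) / ar T h -
    sq ((T.flip e he).vec h) / ar (T.flip e he) h) (fun h ho => by
    rw [ar_flip_out T e he ho, vec_flip_out T e he ho, sub_self])
  rw [Finset.sum_sub_distrib, ar_flip_e, ar_flip_a, ar_flip_b, ar_flip_e', ar_flip_c, ar_flip_d,
    ar_next, ar_prev, ar_next, ar_prev, wv_a, wv_b, wv_c, wv_d, wv_e, wv_e', sq_neg] at h1
  have h3 : ar T e = cr (T.vec e) (T.vec (T.next e)) := rfl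
  have h4 : ar T (T.opp e) = cr (-T.vec e) (T.vec (T.next (T.opp e))) := by
    unfold ar; rw [hv]
  have hA : 0 < ar T e := ar_pos e
  have hB : 0 < ar T (T.opp e) := ar_pos _
  obtain ⟨f1, f2⟩ := he
  have key := index_flip hcl hcl' (by rw [← h3]; exact hA) (by rw [← h4]; exact hB) f1 f2
  have harea := area_flip hcl hcl'
  rw [← h3, ← h4] at key harea
  have e1 : sq (T.vec (T.opp e)) = sq (T.vec e) := sq_opp e
  rw [e1] at h1
  set P := cr (T.vec (T.prev e)) (T.vec (T.next (T.opp e))) with hP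
  set Q := cr (T.vec (T.prev (T.opp e))) (T.vec (T.next e)) with hQ
  have hcot : -dt (T.vec (T.prev e)) (T.vec (T.next e)) / ar T e +
      -dt (T.vec (T.prev (T.opp e))) (T.vec (T.next (T.opp e))) / ar T (T.opp e) < 0 := by
    have e2 : -dt (T.vec (T.prev e)) (T.vec (T.next e)) / ar T e +
      -dt (T.vec (T.prev (T.opp e))) (T.vec (T.next (T.opp e))) / ar T (T.opp e) =
      (dd T e * ar T (T.opp e) + dd T (T.opp e) * ar T e) / (ar T e * ar T (T.opp e)) := by
      unfold dd
      field_simp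
    rw [e2]
    exact div_neg_of_neg_of_pos hd (by positivity)
  have hX : 0 < 2 * ((ar T e + ar T (T.opp e)) ^ 2 - ar T e * ar T (T.opp e) - P * Q) / (P * Q) := by
    apply div_pos _ (by positivity)
    have : (ar T e + ar T (T.opp e)) ^ 2 = (P + Q) * (ar T e + ar T (T.opp e)) := by
      rw [← harea]; ring
    nlinarith [sq_nonneg (ar T e - ar T (T.opp e)), sq_nonneg (P - Q)]
  have hpos : 0 < -(-dt (T.vec (T.prev e)) (T.vec (T.next e)) / ar T e +
      -dt (T.vec (T.prev (T.opp e))) (T.vec (T.next (T.opp e))) / ar T (T.opp e)) *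
      (2 * ((ar T e + ar T (T.opp e)) ^ 2 - ar T e * ar T (T.opp e) - P * Q) / (P * Q)) :=
    mul_pos (by linarith) hX
  rw [← key] at hpos
  have hsplit : (sq (T.vec e) + sq (T.vec (T.next e)) + sq (T.vec (T.prev e))) / ar T e +
      (sq (T.vec e) + sq (T.vec (T.next (T.opp e))) + sq (T.vec (T.prev (T.opp e)))) /
        ar T (T.opp e) -
      ((sq (T.vec (T.prev e) + T.vec (T.next (T.opp e))) + sq (T.vec (T.prev e)) +
        sq (T.vec (T.next (T.opp e)))) / P +
      (sq (T.vec (T.prev e) + T.vec (T.next (T.opp e))) + sq (T.vec (T.next e)) +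
        sq (T.vec (T.prev (T.opp e)))) / Q) = hidx T - hidx (T.flip e ⟨f1, f2⟩) := by
    unfold hidx
    rw [h1]
    ring
  rw [hsplit] at hpos
  linarith

theorem sq_le_hidx [Fintype H] (T : Tri H) (h : H) : sq (T.vec h) ≤ hidx T * ∑ k, ar T k := by
  have h1 : sq (T.vec h) / ar T h ≤ hidx T :=
    Finset.single_le_sum (f := fun k => sq (T.vec k) / ar T k)
      (fun k _ => div_nonneg (sq_nonneg' _) (ar_pos k).le) (Finset.mem_univ h)
  have h2 : ar T h ≤ ∑ k, ar T k :=
    Finset.single_le_sum (f := fun k => ar T k) (fun k _ => (ar_pos k).le) (Finset.mem_univ h)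
  have h3 := ar_pos (T := T) h
  rw [div_le_iff₀ h3] at h1
  have h4 : 0 ≤ hidx T := Finset.sum_nonneg fun k _ => div_nonneg (sq_nonneg' _) (ar_pos k).le
  exact h1.trans (mul_le_mul_of_nonneg_left h2 h4)

/-- **Minimisers.** In every class of triangulations reachable by flips outside `E` there is one
all of whose edges outside `E` are locally Delaunay. -/
theorem exists_locDel [Fintype H] (T : Tri H) (E : Set H) :
    ∃ Z, Reach E T Z ∧ ∀ e, e ∉ E → T.opp e ∉ E → LocDel Z e := by
  classical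
  set R : ℝ := Real.sqrt (hidx T * ∑ k, ar T k) with hR
  set S : Set (Tri H) := {Z | Reach E T Z ∧ hidx Z ≤ hidx T} with hS
  have hfin : S.Finite := by
    refine (reach_finite T R).subset ?_
    rintro Z ⟨h1, h2⟩
    refine ⟨⟨E, h1⟩, fun h => ?_⟩
    rw [hR]
    apply Real.le_sqrt_of_sq_le
    rw [← sq_eq]
    refine (sq_le_hidx Z h).trans ?_
    rw [sum_ar_reach h1]
    apply mul_le_mul_of_nonneg_right h2
    exact Finset.sum_nonneg fun k _ => (ar_pos k).le
  obtain ⟨Z, ⟨hZ1, hZ2⟩, hZ3⟩ := Set.exists_min_image S hidx hfin ⟨T, Reach.refl, le_rfl⟩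
  refine ⟨Z, hZ1, fun e he he' => ?_⟩
  by_contra hc
  unfold LocDel at hc
  push Not at hc
  have hv : Z.vec (Z.opp e) = -Z.vec e := Z.vec_opp e
  have hcl := closed' (T := Z) e
  have hcl' : -Z.vec e + Z.vec (Z.next (Z.opp e)) + Z.vec (Z.prev (Z.opp e)) = 0 := by
    have := closed' (T := Z) (Z.opp e); rwa [hv] at this
  have h4 : ar Z (Z.opp e) = cr (-Z.vec e) (Z.vec (Z.next (Z.opp e))) := by
    unfold ar; rw [hv]
  have hfl : Z.Flippable e := by
    apply flippable_of hcl hcl' (Z.pos e)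
    · rw [← h4]; exact ar_pos _
    · rw [← h4]
      unfold dd at hc
      exact hc
  have hlt := hidx_flip_lt Z e hfl hc
  have hreach : Reach E T (Z.flip e hfl) := by
    refine Reach.flip e hfl he ?_ hZ1
    rw [reach_opp hZ1]; exact he'
  have := hZ3 (Z.flip e hfl) ⟨hreach, hlt.le.trans hZ2⟩
  linarith

/-- **Tameness.** If all edges of all reachable triangulations are `≥ ε`, some reachable
triangulation has all edges `≤ 2 A / ε` and doubled areas `≥ (ε²/2) (ε⁴ / (8 A²))^card`, where
`3 A` is the sum of the doubled areas over the darts. -/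
theorem exists_tame [Fintype H] (T : Tri H) {ε A : ℝ} (hε : 0 < ε)
    (hlow : ∀ Z, Reach ∅ T Z → ∀ h, ε ≤ ‖Z.vec h‖) (hA : ∑ k, ar T k ≤ 3 * A) :
    ∃ Z, Reach ∅ T Z ∧ (∀ h, ‖Z.vec h‖ ≤ 2 * A / ε) ∧
      ∀ h, ε ^ 2 / 2 * (ε ^ 4 / (8 * A ^ 2)) ^ Fintype.card H ≤ ar Z h := by
  obtain ⟨Z, hZ, hdel⟩ := exists_locDel T ∅
  have hdel' : ∀ h, LocDel Z h := fun h => hdel h (Set.notMem_empty _) (Set.notMem_empty _)
  have hmin : ∀ h, ε ^ 2 ≤ sq (Z.vec h) := by
    intro h
    rw [sq_eq]
    exact pow_le_pow_left₀ hε.le (hlow Z hZ h) 2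
  have hAr : ∀ h, ar Z h ≤ A := by
    intro h
    have := three_ar_le Z h
    rw [sum_ar_reach hZ] at this
    linarith
  have hb := edge_bound hε hmin hAr hdel'
  have hbound : ∀ h, sq (Z.vec h) ≤ (2 * A / ε) ^ 2 := by
    intro h
    have h1 := hb h
    rw [div_pow, le_div_iff₀ (by positivity)]
    nlinarith [sq_nonneg A]
  have hA0 : ∀ h : H, 0 < A := fun h => (ar_pos h).trans_le (hAr h)
  refine ⟨Z, hZ, fun h => ?_, fun h => ?_⟩
  · have h1 := hbound h
    rw [sq_eq] at h1
    have := hA0 h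
    exact (abs_le_of_sq_le_sq' h1 (by positivity)).2
  · have h1 := area_bound hε hmin hbound hdel' h
    have h2 : ε ^ 2 / (2 * (2 * A / ε) ^ 2) = ε ^ 4 / (8 * A ^ 2) := by
      have := (hA0 h).ne'
      field_simp
      ring
    rw [h2] at h1
    exact h1

end Pool.Agent.Helper58.TF
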