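import Pool.Agent.Helper87.LS.Str

/-!
# MP_e98778_an (full), module G: developed strips

A strip is a periodic sequence of triangles of a surface, glued along edges `d i`, placed in the
plane (`p i` = developed start of `d i`), such that the heights `cr w` of all bottom points `p i`
are `≤ lo` and those of all top points `p i + vec (d i)` are `≥ hi`. All straight segments inside
the band `lo < cr w z < hi` can be followed on the surface.
-/

set_option autoImplicit false

open MeasureTheory Set Pool.Agent.Helper87.LS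

namespace Pool.Agent.Helper58.TF

/-- A periodic developed strip of triangles. -/
structure StripD (Y : Surf) where
  m : ℕ
  hm : 0 < m
  d : ℤ → Fin Y.n × Fin 3
  p : ℤ → ℂ
  w : ℂ
  lo : ℝ
  hi : ℝ
  per_d : ∀ i, d (i + m) = d i
  per_p : ∀ i, p (i + m) = p i + w
  step : ∀ i, (d (i + 1) = ((Y.glue (d i)).1, (Y.glue (d i)).2 + 2) ∧
        p (i + 1) = p i + Y.vec ((Y.glue (d i)).1, (Y.glue (d i)).2 + 1)) ∨
      (d (i + 1) = ((Y.glue (d i)).1, (Y.glue (d i)).2 + 1) ∧ p (i + 1) = p i)
  hlh : lo < hi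
  hlo : ∀ i, cr w (p i) ≤ lo
  hhi : ∀ i, hi ≤ cr w (p i + Y.vec (d i))
  inj : ∀ i j, 0 ≤ i → i < m → 0 ≤ j → j < m → (d i).1 = (d j).1 → i = j

namespace StripD

variable {Y : Surf} (X : StripD Y)

/-- The developed edge vectors. -/
noncomputable def v (i : ℤ) : ℂ := Y.vec (X.d i)

/-- Positive on the right of the developed edge `i`. -/
noncomputable def sg (i : ℤ) (z : ℂ) : ℝ := cr (z - X.p i) (X.v i)

/-- The point of the surface with developed position `z` in the triangle `i`. -/
noncomputable def dev (i : ℤ) (z : ℂ) : ℂ := Y.P (X.d i).1 (X.d i).2 + (z - X.p i)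

/-- The band. -/
def band : Set ℂ := {z | X.lo < cr X.w z ∧ cr X.w z < X.hi}

/-- The part of the band in the triangle `i` (between the edges `i - 1` and `i`). -/
def cell (i : ℤ) : Set ℂ := {z | z ∈ X.band ∧ 0 < X.sg (i - 1) z ∧ X.sg i z < 0}

theorem hv (i : ℤ) : 0 < cr X.w (X.v i) := by
  have h1 := X.hlo i
  have h2 := X.hhi i
  have h3 := X.hlh
  rw [cr_add_right] at h2
  unfold v
  linarith

/-- Barycentric coordinates of a triangle `a, b, c`. -/
theorem bary (w z a b c : ℂ) : cr (b - a) (c - a) * cr w z =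
    cr (c - b) (z - b) * cr w a + cr (a - c) (z - c) * cr w b + cr (b - a) (z - a) * cr w c := by
  simp only [cr, Complex.sub_re, Complex.sub_im]; ring

theorem bary_sum (z a b c : ℂ) : cr (b - a) (c - a) =
    cr (c - b) (z - b) + cr (a - c) (z - c) + cr (b - a) (z - a) := by
  simp only [cr, Complex.sub_re, Complex.sub_im]; ring

/-- The geometry of one step: the triangle between the edges `i` and `i + 1`. -/
theorem step_geo (i : ℤ) :
    (∃ f : ℂ, X.p (i + 1) = X.p i + f ∧ X.v (i + 1) = X.v i - f ∧ 0 < cr f (X.v i) ∧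
      f = Y.vec ((Y.glue (X.d i)).1, (Y.glue (X.d i)).2 + 1) ∧
      X.d (i + 1) = ((Y.glue (X.d i)).1, (Y.glue (X.d i)).2 + 2)) ∨
    (∃ f : ℂ, X.p (i + 1) = X.p i ∧ X.v (i + 1) = X.v i - f ∧ 0 < cr (X.v i) f ∧
      f = Y.vec ((Y.glue (X.d i)).1, (Y.glue (X.d i)).2 + 2) ∧
      X.d (i + 1) = ((Y.glue (X.d i)).1, (Y.glue (X.d i)).2 + 1)) := by
  have hg : Y.vec (Y.glue (X.d i)) = -X.v i := Y.vec_glue _
  have hpos := Y.area2_pos (Y.glue (X.d i)).1
  have c1 := Y.cr_vec_succ (Y.glue (X.d i)).1 (Y.glue (X.d i)).2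
  have hsum : Y.vec (Y.glue (X.d i)) + Y.vec ((Y.glue (X.d i)).1, (Y.glue (X.d i)).2 + 1) +
      Y.vec ((Y.glue (X.d i)).1, (Y.glue (X.d i)).2 + 2) = 0 := by
    obtain ⟨t, k⟩ := Y.glue (X.d i)
    have h1 : k + 1 + 1 = k + 2 := by fin_cases k <;> rfl
    have h2 : k + 2 + 1 = k := by fin_cases k <;> rfl
    simp only [Surf.vec, h1, h2]
    ring
  rw [Prod.mk.eta, hg] at c1
  rw [hg] at hsum
  rcases X.step i with ⟨h1, h2⟩ | ⟨h1, h2⟩
  · left
    refine ⟨_, h2, ?_, ?_, rfl, h1⟩
    · change Y.vec (X.d (i + 1)) = _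
      rw [h1]
      linear_combination hsum
    · rw [← c1] at hpos
      simp only [cr, Complex.neg_re, Complex.neg_im] at hpos ⊢
      linarith
  · right
    refine ⟨_, h2, ?_, ?_, rfl, h1⟩
    · change Y.vec (X.d (i + 1)) = _
      rw [h1]
      linear_combination hsum
    · have e : Y.vec ((Y.glue (X.d i)).1, (Y.glue (X.d i)).2 + 1) =
          X.v i - Y.vec ((Y.glue (X.d i)).1, (Y.glue (X.d i)).2 + 2) := by
        linear_combination hsum
      rw [← c1, e] at hpos
      simp only [cr, Complex.neg_re, Complex.neg_im, Complex.sub_re, Complex.sub_im] at hpos ⊢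
      linarith

/-- In the band: left of the edge `i` implies left of the edge `i + 1`. -/
theorem sg_succ {i : ℤ} {z : ℂ} (hz : z ∈ X.band) (h : X.sg i z ≤ 0) : X.sg (i + 1) z < 0 := by
  obtain ⟨hz1, hz2⟩ := hz
  have hlh := X.hlh
  have b0 := X.hlo i
  have b1 := X.hlo (i + 1)
  have t0 := X.hhi i
  have t1 := X.hhi (i + 1)
  change X.hi ≤ cr X.w (X.p i + X.v i) at t0
  change X.hi ≤ cr X.w (X.p (i + 1) + X.v (i + 1)) at t1
  rcases X.step_geo i with ⟨f, h1, h2, h3, -, -⟩ | ⟨f, h1, h2, h3, -, -⟩
  · have e1 := bary X.w z (X.p i) (X.p i + f) (X.p i + X.v i)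
    have e2 := bary_sum z (X.p i) (X.p i + f) (X.p i + X.v i)
    have e3 : cr (X.p i + X.v i - (X.p i + f)) (z - (X.p i + f)) = -X.sg (i + 1) z := by
      unfold sg; rw [h1, h2, cr_swap]; congr 2; ring
    have e4 : cr (X.p i - (X.p i + X.v i)) (z - (X.p i + X.v i)) = X.sg i z := by
      unfold sg; simp only [cr, Complex.sub_re, Complex.sub_im, Complex.add_re, Complex.add_im]; ring
    have e5 : cr (X.p i + f - X.p i) (X.p i + X.v i - X.p i) = cr f (X.v i) := by
      congr 1 <;> ring
    rw [e3, e4, e5] at e1 e2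
    rw [h1] at b1
    by_contra hc
    push Not at hc
    set γ := cr (X.p i + f - X.p i) (z - X.p i)
    have g1 : cr f (X.v i) ≤ γ := by linarith
    have q1 : 0 ≤ X.sg (i + 1) z * (X.hi - cr X.w (X.p i)) := mul_nonneg hc (by linarith)
    have q2 : 0 ≤ -X.sg i z * (X.hi - cr X.w (X.p i + f)) := mul_nonneg (by linarith) (by linarith)
    have q3 : 0 ≤ γ * (cr X.w (X.p i + X.v i) - X.hi) := mul_nonneg (by linarith) (by linarith)
    have q4 : 0 < cr f (X.v i) * (X.hi - cr X.w z) := mul_pos h3 (by linarith)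
    have e7 : cr f (X.v i) * (X.hi - cr X.w z) = -(X.sg (i + 1) z * (X.hi - cr X.w (X.p i))) -
        (-X.sg i z * (X.hi - cr X.w (X.p i + f))) - γ * (cr X.w (X.p i + X.v i) - X.hi) := by
      linear_combination X.hi * e2 - e1
    linarith
  · have e1 := bary X.w z (X.p i) (X.p i + X.v (i + 1)) (X.p i + X.v i)
    have e2 := bary_sum z (X.p i) (X.p i + X.v (i + 1)) (X.p i + X.v i)
    have e3 : cr (X.p i + X.v (i + 1) - X.p i) (z - X.p i) = -X.sg (i + 1) z := by
      unfold sg; rw [h1, cr_swap]; congr 2; ring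
    have e4 : cr (X.p i - (X.p i + X.v i)) (z - (X.p i + X.v i)) = X.sg i z := by
      unfold sg; simp only [cr, Complex.sub_re, Complex.sub_im, Complex.add_re, Complex.add_im]; ring
    have e5 : cr (X.p i + X.v (i + 1) - X.p i) (X.p i + X.v i - X.p i) = cr (X.v i) f := by
      rw [h2]; simp only [cr, Complex.sub_re, Complex.sub_im, Complex.add_re, Complex.add_im]; ring
    rw [e3, e4, e5] at e1 e2
    rw [h1] at t1
    by_contra hc
    push Not at hc
    set α := cr (X.p i + X.v i - (X.p i + X.v (i + 1))) (z - (X.p i + X.v (i + 1)))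
    have g1 : cr (X.v i) f ≤ α := by linarith
    have q1 : 0 ≤ X.sg (i + 1) z * (cr X.w (X.p i + X.v i) - X.lo) := mul_nonneg hc (by linarith)
    have q2 : 0 ≤ -X.sg i z * (cr X.w (X.p i + X.v (i + 1)) - X.lo) :=
      mul_nonneg (by linarith) (by linarith)
    have q3 : 0 ≤ α * (X.lo - cr X.w (X.p i)) := mul_nonneg (by linarith) (by linarith)
    have q4 : 0 < cr (X.v i) f * (cr X.w z - X.lo) := mul_pos h3 (by linarith)
    have e7 : cr (X.v i) f * (cr X.w z - X.lo) =
        -(X.sg (i + 1) z * (cr X.w (X.p i + X.v i) - X.lo)) -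
        (-X.sg i z * (cr X.w (X.p i + X.v (i + 1)) - X.lo)) - α * (X.lo - cr X.w (X.p i)) := by
      linear_combination e1 - X.lo * e2
    linarith

theorem sg_down {i : ℤ} {z : ℂ} (hz : z ∈ X.band) (n : ℕ) (h : 0 < X.sg (i + n) z) :
    0 < X.sg i z := by
  by_contra hc
  push Not at hc
  have key : ∀ k : ℕ, X.sg (i + k) z ≤ 0 := by
    intro k
    induction k with
    | zero => simpa using hc
    | succ k ih =>
      have := X.sg_succ hz ih
      push_cast
      rw [← add_assoc]
      exact this.le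
  linarith [key n]

theorem sg_down' {i j : ℤ} {z : ℂ} (hz : z ∈ X.band) (hij : i ≤ j) (h : 0 < X.sg j z) :
    0 < X.sg i z := by
  obtain ⟨n, rfl⟩ := Int.le.dest hij
  exact X.sg_down hz n h

/-- The cell `i` lies in the triangle of `d i`. -/
theorem cell_tri {i : ℤ} {z : ℂ} (hz : z ∈ X.cell i) : X.dev i z ∈ tri (Y.P (X.d i).1) := by
  obtain ⟨j, rfl⟩ : ∃ j, i = j + 1 := ⟨i - 1, by ring⟩
  obtain ⟨⟨hz1, hz2⟩, hp, hn⟩ := hz
  rw [add_sub_cancel_right] at hp
  have hlh := X.hlh
  have b0 := X.hlo j
  have b1 := X.hlo (j + 1)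
  have t0 := X.hhi j
  have t1 := X.hhi (j + 1)
  change X.hi ≤ cr X.w (X.p j + X.v j) at t0
  change X.hi ≤ cr X.w (X.p (j + 1) + X.v (j + 1)) at t1
  have hg : Y.vec (Y.glue (X.d j)) = -X.v j := Y.vec_glue _
  have hvd : X.v (j + 1) = Y.vec (X.d (j + 1)) := rfl
  rcases X.step_geo j with ⟨f, h1, h2, h3, h4, h5⟩ | ⟨f, h1, h2, h3, h4, h5⟩
  · -- bottom move
    have third : 0 < cr f (z - X.p j) := by
      have e1 := bary X.w z (X.p j) (X.p j + f) (X.p j + X.v j)
      have e2 := bary_sum z (X.p j) (X.p j + f) (X.p j + X.v j)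
      have e3 : cr (X.p j + X.v j - (X.p j + f)) (z - (X.p j + f)) = -X.sg (j + 1) z := by
        unfold sg; rw [h1, h2, cr_swap]; congr 2; ring
      have e4 : cr (X.p j - (X.p j + X.v j)) (z - (X.p j + X.v j)) = X.sg j z := by
        unfold sg; simp only [cr, Complex.sub_re, Complex.sub_im, Complex.add_re, Complex.add_im]; ring
      have e5 : cr (X.p j + f - X.p j) (X.p j + X.v j - X.p j) = cr f (X.v j) := by
        congr 1 <;> ring
      have e6 : cr (X.p j + f - X.p j) (z - X.p j) = cr f (z - X.p j) := by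
        congr 1; ring
      rw [e3, e4, e5, e6] at e1 e2
      rw [h1] at b1
      by_contra hc
      push Not at hc
      have q1 : 0 ≤ -X.sg (j + 1) z * (X.lo - cr X.w (X.p j)) := mul_nonneg (by linarith) (by linarith)
      have q2 : 0 ≤ X.sg j z * (X.lo - cr X.w (X.p j + f)) := mul_nonneg hp.le (by linarith)
      have q3 : 0 ≤ -cr f (z - X.p j) * (cr X.w (X.p j + X.v j) - X.lo) :=
        mul_nonneg (by linarith) (by linarith)
      have q4 : 0 < cr f (X.v j) * (cr X.w z - X.lo) := mul_pos h3 (by linarith)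
      have e7 : cr f (X.v j) * (cr X.w z - X.lo) = -(-X.sg (j + 1) z * (X.lo - cr X.w (X.p j))) -
          X.sg j z * (X.lo - cr X.w (X.p j + f)) -
          -cr f (z - X.p j) * (cr X.w (X.p j + X.v j) - X.lo) := by
        linear_combination e1 - X.lo * e2
      linarith
    rw [Surf.mem_tri]
    have hdj : X.d (j + 1) = ((Y.glue (X.d j)).1, (Y.glue (X.d j)).2 + 2) := h5
    unfold dev
    unfold sg at hp hn
    rw [hvd] at hn
    rw [hdj] at hn ⊢
    clear hdj h5
    generalize Y.glue (X.d j) = g at *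
    obtain ⟨t, k⟩ := g
    simp only at h4 hn hg ⊢
    have k1 : k + 1 + 1 = k + 2 := by fin_cases k <;> rfl
    have k2 : k + 2 + 1 = k := by fin_cases k <;> rfl
    have hall : ∀ k', k' = k ∨ k' = k + 1 ∨ k' = k + 2 := by
      intro k'; fin_cases k <;> fin_cases k' <;> decide
    intro k'
    rcases hall k' with rfl | rfl | rfl
    · have : Y.ell (t, k') (Y.P t (k' + 2) + (z - X.p (j + 1))) = cr (z - X.p j) (X.v j) := by
        have e1 : Y.vec (t, k') = -X.v j := hg
        have e2 : Y.P t (k' + 2) = Y.P t k' + Y.vec (t, k') + f := by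
          rw [h4]; simp only [Surf.vec, k1]; ring
        rw [Surf.ell, e2, e1, h1]
        simp only [cr, Complex.sub_re, Complex.sub_im, Complex.add_re, Complex.add_im,
          Complex.neg_re, Complex.neg_im]
        ring
      rw [this]; exact hp
    · have : Y.ell (t, k + 1) (Y.P t (k + 2) + (z - X.p (j + 1))) = cr f (z - X.p j) := by
        have e2 : Y.P t (k + 2) = Y.P t (k + 1) + f := by
          rw [h4]; simp only [Surf.vec, k1]; ring
        rw [Surf.ell, e2, h1, ← h4]
        congr 1; ring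
      rw [this]; exact third
    · have : Y.ell (t, k + 2) (Y.P t (k + 2) + (z - X.p (j + 1))) =
          -cr (z - X.p (j + 1)) (Y.vec (t, k + 2)) := by
        rw [Surf.ell, ← cr_swap]
        congr 1; ring
      rw [this]; linarith
  · -- top move
    have third : 0 < cr f (z - (X.p j + X.v (j + 1))) := by
      have e1 := bary X.w z (X.p j) (X.p j + X.v (j + 1)) (X.p j + X.v j)
      have e2 := bary_sum z (X.p j) (X.p j + X.v (j + 1)) (X.p j + X.v j)
      have e3 : cr (X.p j + X.v (j + 1) - X.p j) (z - X.p j) = -X.sg (j + 1) z := by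
        unfold sg; rw [h1, cr_swap]; congr 2; ring
      have e4 : cr (X.p j - (X.p j + X.v j)) (z - (X.p j + X.v j)) = X.sg j z := by
        unfold sg; simp only [cr, Complex.sub_re, Complex.sub_im, Complex.add_re, Complex.add_im]; ring
      have e5 : cr (X.p j + X.v (j + 1) - X.p j) (X.p j + X.v j - X.p j) = cr (X.v j) f := by
        rw [h2]; simp only [cr, Complex.sub_re, Complex.sub_im, Complex.add_re, Complex.add_im]; ring
      have e6 : X.p j + X.v j - (X.p j + X.v (j + 1)) = f := by rw [h2]; ring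
      rw [e3, e4, e5, e6] at e1 e2
      rw [h1] at t1
      by_contra hc
      push Not at hc
      have q1 : 0 ≤ -X.sg (j + 1) z * (cr X.w (X.p j + X.v j) - X.hi) :=
        mul_nonneg (by linarith) (by linarith)
      have q2 : 0 ≤ X.sg j z * (cr X.w (X.p j + X.v (j + 1)) - X.hi) := mul_nonneg hp.le (by linarith)
      have q3 : 0 ≤ -cr f (z - (X.p j + X.v (j + 1))) * (X.hi - cr X.w (X.p j)) :=
        mul_nonneg (by linarith) (by linarith)
      have q4 : 0 < cr (X.v j) f * (X.hi - cr X.w z) := mul_pos h3 (by linarith)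
      have e7 : cr (X.v j) f * (X.hi - cr X.w z) =
          -(-X.sg (j + 1) z * (cr X.w (X.p j + X.v j) - X.hi)) -
          X.sg j z * (cr X.w (X.p j + X.v (j + 1)) - X.hi) -
          -cr f (z - (X.p j + X.v (j + 1))) * (X.hi - cr X.w (X.p j)) := by
        linear_combination X.hi * e2 - e1
      linarith
    rw [Surf.mem_tri]
    have hdj : X.d (j + 1) = ((Y.glue (X.d j)).1, (Y.glue (X.d j)).2 + 1) := h5
    unfold dev
    unfold sg at hp hn
    rw [hvd] at hn h2 third
    rw [hdj] at hn h2 third ⊢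
    clear hdj h5
    generalize Y.glue (X.d j) = g at *
    obtain ⟨t, k⟩ := g
    simp only at h4 hn hg h2 third ⊢
    have k1 : k + 1 + 1 = k + 2 := by fin_cases k <;> rfl
    have k2 : k + 2 + 1 = k := by fin_cases k <;> rfl
    have hall : ∀ k', k' = k ∨ k' = k + 1 ∨ k' = k + 2 := by
      intro k'; fin_cases k <;> fin_cases k' <;> decide
    intro k'
    rcases hall k' with rfl | rfl | rfl
    · have : Y.ell (t, k') (Y.P t (k' + 1) + (z - X.p (j + 1))) = cr (z - X.p j) (X.v j) := by
        have e1 : Y.vec (t, k') = -X.v j := hg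
        have e2 : Y.P t (k' + 1) = Y.P t k' + Y.vec (t, k') := by
          simp only [Surf.vec]; ring
        rw [Surf.ell, e2, e1, h1]
        simp only [cr, Complex.sub_re, Complex.sub_im, Complex.add_re, Complex.add_im,
          Complex.neg_re, Complex.neg_im]
        ring
      rw [this]; exact hp
    · have : Y.ell (t, k + 1) (Y.P t (k + 1) + (z - X.p (j + 1))) =
          -cr (z - X.p (j + 1)) (Y.vec (t, k + 1)) := by
        rw [Surf.ell, ← cr_swap]
        congr 1; ring
      rw [this]; linarith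
    · have : Y.ell (t, k + 2) (Y.P t (k + 1) + (z - X.p (j + 1))) =
          cr f (z - (X.p j + Y.vec (t, k + 1))) := by
        have e2 : Y.P t (k + 1) = Y.P t (k + 2) - Y.vec (t, k + 1) := by
          simp only [Surf.vec, k1]; ring
        rw [Surf.ell, e2, h1, ← h4]
        congr 1; ring
      rw [this]; exact third

/-- A point of the band on the line of the edge `i` lies in the open edge. -/
theorem edge_seg {i : ℤ} {z : ℂ} (hz : z ∈ X.band) (h0 : X.sg i z = 0) :
    X.dev i z ∈ openSegment ℝ (Y.P (X.d i).1 (X.d i).2) (Y.P (X.d i).1 ((X.d i).2 + 1)) := by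
  obtain ⟨hz1, hz2⟩ := hz
  have b0 := X.hlo i
  have t0 := X.hhi i
  have hv := X.hv i
  change X.hi ≤ cr X.w (X.p i + X.v i) at t0
  rw [cr_add_right] at t0
  set lam : ℝ := (cr X.w z - cr X.w (X.p i)) / cr X.w (X.v i) with hlam
  have l0 : 0 < lam := div_pos (by linarith) hv
  have l1 : lam < 1 := by rw [hlam, div_lt_one hv]; linarith
  have e : z - X.p i = lam * X.v i := by
    have : z - X.p i - lam * X.v i = 0 := by
      apply Surf.cr_solve46 hv.ne'
      · rw [cr_sub_right, cr_mul_right, cr_sub_right, hlam]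
        field_simp
        ring
      · rw [cr_sub_right, cr_mul_right, cr_self, mul_zero, sub_zero, cr_swap]
        unfold sg at h0
        rw [h0, neg_zero]
    exact sub_eq_zero.mp this
  refine ⟨1 - lam, lam, by linarith, l0, by ring, ?_⟩
  unfold dev
  rw [e]
  simp only [Complex.real_smul, v, Surf.vec]
  push_cast
  ring

/-- Crossing the edge `i`. -/
theorem hop_succ {i : ℤ} {z z' : ℂ} (hz : z ∈ X.cell i) (hz' : z' ∈ X.cell (i + 1)) :
    Y.Hop (z' - z) (X.dev i z) (X.dev (i + 1) z') := by
  have h1 := X.cell_tri hz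
  have h2 := X.cell_tri hz'
  have hd1 : (X.d (i + 1)).1 = (Y.glue (X.d i)).1 := by
    rcases X.step i with ⟨h, -⟩ | ⟨h, -⟩ <;> rw [h]
  refine ⟨(X.d i).1, h1, Or.inr ⟨(X.d i).2, ?_, ?_, ?_⟩⟩
  · rw [Prod.mk.eta, ← hd1]; exact h2
  · rw [Prod.mk.eta]
    unfold dev Surf.shift
    have hg : Y.vec (Y.glue (X.d i)) = -Y.vec (X.d i) := Y.vec_glue _
    rcases X.step i with ⟨h3, h4⟩ | ⟨h3, h4⟩
    · rw [h4, h3]
      have k1 : (Y.glue (X.d i)).2 + 1 + 1 = (Y.glue (X.d i)).2 + 2 := by
        generalize (Y.glue (X.d i)).2 = k; fin_cases k <;> rfl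
      simp only [Surf.vec, k1] at hg ⊢
      linear_combination hg
    · rw [h4, h3]
      simp only [Surf.vec] at hg ⊢
      linear_combination hg
  · have hn : X.sg i z < 0 := hz.2.2
    have hp : 0 < X.sg i z' := by
      have := hz'.2.1
      rwa [add_sub_cancel_right] at this
    have hden : 0 < X.sg i z' - X.sg i z := by linarith
    set s : ℝ := -X.sg i z / (X.sg i z' - X.sg i z) with hs
    have s0 : 0 < s := div_pos (by linarith) hden
    have s1 : s < 1 := by rw [hs, div_lt_one hden]; linarith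
    refine ⟨s, ⟨s0, s1⟩, ?_⟩
    have hsg : X.sg i (z + s * (z' - z)) = 0 := by
      have e : X.sg i (z + s * (z' - z)) = X.sg i z + s * (X.sg i z' - X.sg i z) := by
        unfold sg
        simp only [cr, Complex.sub_re, Complex.sub_im, Complex.add_re, Complex.add_im,
          Complex.re_ofReal_mul, Complex.im_ofReal_mul]
        ring
      rw [e, hs]
      field_simp
      ring
    have hb : z + s * (z' - z) ∈ X.band := by
      have e : cr X.w (z + s * (z' - z)) = (1 - s) * cr X.w z + s * cr X.w z' := by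
        rw [cr_add_right, cr_mul_right, cr_sub_right]; ring
      have a1 := hz.1.1
      have a2 := hz.1.2
      have a3 := hz'.1.1
      have a4 := hz'.1.2
      constructor
      · rw [e]; nlinarith
      · rw [e]; nlinarith
    have := X.edge_seg hb hsg
    have e : X.dev i (z + s * (z' - z)) = X.dev i z + s * (z' - z) := by
      unfold dev; ring
    rw [e] at this
    exact this

theorem band_convex {z z' : ℂ} (hz : z ∈ X.band) (hz' : z' ∈ X.band) {s : ℝ} (s0 : 0 ≤ s)
    (s1 : s ≤ 1) : z + s * (z' - z) ∈ X.band := by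
  rcases eq_or_lt_of_le s0 with rfl | hs
  · simpa using hz
  have e : cr X.w (z + s * (z' - z)) = (1 - s) * cr X.w z + s * cr X.w z' := by
    rw [cr_add_right, cr_mul_right, cr_sub_right]; ring
  have a1 := hz.1
  have a2 := hz.2
  have a3 := hz'.1
  have a4 := hz'.2
  constructor
  · rw [e]
    have h1 := mul_pos hs (sub_pos.mpr a3)
    have h2 := mul_nonneg (sub_nonneg.mpr s1) (sub_pos.mpr a1).le
    linarith
  · rw [e]
    have h1 := mul_pos hs (sub_pos.mpr a4)
    have h2 := mul_nonneg (sub_nonneg.mpr s1) (sub_pos.mpr a2).le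
    linarith

theorem sg_affine (i : ℤ) (z z' : ℂ) (s : ℝ) :
    X.sg i (z + s * (z' - z)) = X.sg i z + s * (X.sg i z' - X.sg i z) := by
  unfold sg
  simp only [cr, Complex.sub_re, Complex.sub_im, Complex.add_re, Complex.add_im,
    Complex.re_ofReal_mul, Complex.im_ofReal_mul]
  ring

/-- Straight segments in the band, from the left to the right. -/
theorem straight_fwd (N : ℕ) : ∀ (i : ℤ) (z z' : ℂ), z ∈ X.cell i → z' ∈ X.cell (i + N) →
    Y.Straight (z' - z) (X.dev i z) (X.dev (i + N) z') := by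
  induction N with
  | zero =>
    intro i z z' hz hz'
    rw [Nat.cast_zero, add_zero] at hz' ⊢
    have h1 := X.cell_tri hz
    have h2 := X.cell_tri hz'
    have e : X.dev i z' = X.dev i z + (z' - z) := by unfold dev; ring
    rw [e] at h2 ⊢
    exact Surf.Straight.hop (Y.hop_inside h1 h2)
  | succ N ih =>
    intro i z z' hz hz'
    rcases Nat.eq_zero_or_pos N with hN | hN
    · subst hN
      have : i + ((0 + 1 : ℕ) : ℤ) = i + 1 := by simp
      rw [this] at hz' ⊢
      exact Surf.Straight.hop (X.hop_succ hz hz')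
    · have hc : i + ((N + 1 : ℕ) : ℤ) = i + 1 + N := by push_cast; ring
      rw [hc] at hz' ⊢
      have hzN : 0 < X.sg (i + N) z' := by
        have := hz'.2.1
        have e : i + 1 + (N : ℤ) - 1 = i + N := by ring
        rwa [e] at this
      have p0 : 0 < X.sg i z' := X.sg_down' hz'.1 (by omega) hzN
      have p1 : 0 < X.sg (i + 1) z' := X.sg_down' hz'.1 (by omega) hzN
      have n0 : X.sg i z < 0 := hz.2.2
      set r1 : ℝ := -X.sg i z / (X.sg i z' - X.sg i z) with hr1
      have hden : 0 < X.sg i z' - X.sg i z := by linarith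
      have r10 : 0 < r1 := div_pos (by linarith) hden
      have r11 : r1 < 1 := by rw [hr1, div_lt_one hden]; linarith
      have f1 : X.sg i z + r1 * (X.sg i z' - X.sg i z) = 0 := by
        rw [hr1]; field_simp; ring
      have hb1 := X.band_convex hz.1 hz'.1 r10.le r11.le
      have n1 : X.sg (i + 1) (z + r1 * (z' - z)) < 0 := by
        apply X.sg_succ hb1
        rw [X.sg_affine, f1]
      rw [X.sg_affine] at n1
      set a := X.sg (i + 1) z with ha
      set b := X.sg (i + 1) z' with hb
      have hab : 0 < b - a := by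
        by_contra hcc
        push Not at hcc
        have : (1 - r1) * (b - a) ≤ 0 := mul_nonpos_of_nonneg_of_nonpos (by linarith) hcc
        nlinarith
      set r2 : ℝ := -a / (b - a) with hr2
      have f2 : a + r2 * (b - a) = 0 := by rw [hr2]; field_simp; ring
      have r12 : r1 < r2 := by
        by_contra hcc
        push Not at hcc
        nlinarith
      have r21 : r2 < 1 := by rw [hr2, div_lt_one hab]; linarith
      set r : ℝ := (r1 + r2) / 2 with hr
      have hr0 : 0 < r := by rw [hr]; linarith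
      have hr1' : r < 1 := by rw [hr]; linarith
      have hcell : z + r * (z' - z) ∈ X.cell (i + 1) := by
        refine ⟨X.band_convex hz.1 hz'.1 hr0.le hr1'.le, ?_, ?_⟩
        · rw [add_sub_cancel_right, X.sg_affine]
          have : r1 < r := by rw [hr]; linarith
          nlinarith
        · rw [X.sg_affine]
          have : r < r2 := by rw [hr]; linarith
          nlinarith
      have s1 := Surf.Straight.hop (X.hop_succ hz hcell)
      have s2 := ih (i + 1) _ _ hcell hz'
      refine Surf.Straight.trans hr0 hr1' (y := X.dev (i + 1) (z + r * (z' - z))) ?_ ?_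
      · convert s1 using 1; ring
      · convert s2 using 1; push_cast; ring

/-- Straight segments in the band. -/
theorem straight {i j : ℤ} {z z' : ℂ} (hz : z ∈ X.cell i) (hz' : z' ∈ X.cell j) :
    Y.Straight (z' - z) (X.dev i z) (X.dev j z') := by
  rcases le_total i j with h | h
  · obtain ⟨n, rfl⟩ := Int.le.dest h
    exact X.straight_fwd n i z z' hz hz'
  · obtain ⟨n, rfl⟩ := Int.le.dest h
    have := Surf.straight_symm (X.straight_fwd n j z' z hz' hz)
    rwa [neg_sub] at this

end StripD

end Pool.Agent.Helper58.TF
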