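import Pool.Agent.Helper58.TF.Gap
import Pool.Agent.Helper58.TF.CylS

/-!
# MP_e98778_an (full), module G: strips from a gap triangulation
-/

set_option autoImplicit false

open MeasureTheory Set Pool.Agent.Helper87.LS Pool.Agent.Helper79.G Pool.Agent.Helper72.TF

namespace Pool.Agent.Helper58.TF

section adv

variable {H : Type} {T : Tri H} {E : Set H}

/-- Every triangle with a side outside `E` has exactly one side in `E`. -/
def OneE (T : Tri H) (E : Set H) : Prop :=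
  Tri.IsEdgeSet T E ∧ ∀ h, h ∉ E → (T.next h ∈ E ∧ T.prev h ∉ E) ∨ (T.next h ∉ E ∧ T.prev h ∈ E)

open Classical in
/-- The next dart of the strip. -/
noncomputable def adv (T : Tri H) (E : Set H) (h : H) : H :=
  if T.next (T.opp h) ∈ E then T.prev (T.opp h) else T.next (T.opp h)

open Classical in
/-- The move of the bottom point. -/
noncomputable def bmv (T : Tri H) (E : Set H) (h : H) : ℂ :=
  if T.next (T.opp h) ∈ E then T.vec (T.next (T.opp h)) else 0

theorem opp_not (hE : OneE T E) {h : H} (hh : h ∉ E) : T.opp h ∉ E := fun hc =>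
  hh ((hE.1 h).mpr hc)

theorem adv_not (hE : OneE T E) {h : H} (hh : h ∉ E) : adv T E h ∉ E := by
  unfold adv
  rcases hE.2 _ (opp_not hE hh) with ⟨h1, h2⟩ | ⟨h1, h2⟩
  · rw [if_pos h1]; exact h2
  · rw [if_neg h1]; exact h1

theorem adv_cases (hE : OneE T E) {h : H} (hh : h ∉ E) :
    (adv T E h = T.prev (T.opp h) ∧ bmv T E h = T.vec (T.next (T.opp h)) ∧ T.next (T.opp h) ∈ E) ∨
    (adv T E h = T.next (T.opp h) ∧ bmv T E h = 0 ∧ T.prev (T.opp h) ∈ E) := by
  unfold adv bmv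
  rcases hE.2 _ (opp_not hE hh) with ⟨h1, h2⟩ | ⟨h1, h2⟩
  · left; rw [if_pos h1, if_pos h1]; exact ⟨rfl, rfl, h1⟩
  · right; rw [if_neg h1, if_neg h1]; exact ⟨rfl, rfl, h2⟩

/-- In the triangle of a dart outside `E` there is exactly one other dart outside `E`. -/
theorem other_unique (hE : OneE T E) {g o o' : H} (hg : g ∉ E) (ho : o ∉ E) (ho' : o' ∉ E)
    (h1 : g = T.next o ∨ g = T.prev o) (h2 : g = T.next o' ∨ g = T.prev o') : o = o' := by
  have k : ∀ o, (g = T.next o ∨ g = T.prev o) → (o = T.prev g ∨ o = T.next g) := by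
    rintro o (rfl | rfl)
    · left; rw [prev_next]
    · right; rw [next_prev]
  rcases k o h1 with h3 | h3 <;> rcases k o' h2 with h4 | h4
  · rw [h3, h4]
  · exfalso
    rw [h3] at ho
    rw [h4] at ho'
    rcases hE.2 g hg with ⟨h5, h6⟩ | ⟨h5, h6⟩
    · exact ho' h5
    · exact ho h6
  · exfalso
    rw [h3] at ho
    rw [h4] at ho'
    rcases hE.2 g hg with ⟨h5, h6⟩ | ⟨h5, h6⟩
    · exact ho h5
    · exact ho' h6
  · rw [h3, h4]

theorem adv_opp (hE : OneE T E) {h : H} (hh : h ∉ E) :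
    adv T E h = T.next (T.opp h) ∨ adv T E h = T.prev (T.opp h) := by
  rcases adv_cases hE hh with h1 | h1
  · exact Or.inr h1.1
  · exact Or.inl h1.1

theorem adv_inj (hE : OneE T E) {h h' : H} (hh : h ∉ E) (hh' : h' ∉ E)
    (heq : adv T E h = adv T E h') : h = h' := by
  have := other_unique hE (adv_not hE hh) (opp_not hE hh) (opp_not hE hh') (adv_opp hE hh)
    (by rw [heq]; exact adv_opp hE hh')
  exact T.opp.injective this

/-- `adv` on the darts outside `E`. -/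
noncomputable def advS (hE : OneE T E) (h : {h : H // h ∉ E}) : {h : H // h ∉ E} :=
  ⟨adv T E h.1, adv_not hE h.2⟩

theorem advS_inj (hE : OneE T E) : Function.Injective (advS hE) := by
  intro h h' heq
  apply Subtype.ext
  exact adv_inj hE h.2 h'.2 (congrArg Subtype.val heq)

/-- The darts of the strip. -/
noncomputable def dd0 (hE : OneE T E) (h0 : {h : H // h ∉ E}) (i : ℕ) : H := ((advS hE)^[i] h0).1

/-- The bottom points of the strip. -/
noncomputable def pp0 (hE : OneE T E) (h0 : {h : H // h ∉ E}) (i : ℕ) : ℂ :=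
  ∑ j ∈ Finset.range i, bmv T E (dd0 hE h0 j)

theorem dd0_not (hE : OneE T E) (h0 : {h : H // h ∉ E}) (i : ℕ) : dd0 hE h0 i ∉ E :=
  ((advS hE)^[i] h0).2

theorem dd0_succ (hE : OneE T E) (h0 : {h : H // h ∉ E}) (i : ℕ) :
    dd0 hE h0 (i + 1) = adv T E (dd0 hE h0 i) := by
  unfold dd0
  rw [Function.iterate_succ_apply']
  rfl

theorem pp0_succ (hE : OneE T E) (h0 : {h : H // h ∉ E}) (i : ℕ) :
    pp0 hE h0 (i + 1) = pp0 hE h0 i + bmv T E (dd0 hE h0 i) := Finset.sum_range_succ _ _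

/-- The geometry of one step. -/
theorem step0 (hE : OneE T E) {l : ℝ} (hl : ∀ h ∈ E, ‖T.vec h‖ ≤ l) (h0 : {h : H // h ∉ E}) (i : ℕ) :
    ∃ b t : ℂ, pp0 hE h0 (i + 1) = pp0 hE h0 i + b ∧
      pp0 hE h0 (i + 1) + T.vec (dd0 hE h0 (i + 1)) = pp0 hE h0 i + T.vec (dd0 hE h0 i) + t ∧
      ‖b‖ ≤ l ∧ ‖t‖ ≤ l ∧ ‖b + t‖ ≤ l ∧
      ar T (dd0 hE h0 (i + 1)) = cr (b + t) (T.vec (dd0 hE h0 i)) := by
  set h := dd0 hE h0 i with hh
  have hn : h ∉ E := dd0_not hE h0 i
  have hv : T.vec (T.opp h) = -T.vec h := T.vec_opp h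
  have hcl : -T.vec h + T.vec (T.next (T.opp h)) + T.vec (T.prev (T.opp h)) = 0 := by
    have := closed' (T := T) (T.opp h); rwa [hv] at this
  have har : ar T (T.opp h) = cr (-T.vec h) (T.vec (T.next (T.opp h))) := by
    unfold ar; rw [hv]
  rcases adv_cases hE hn with ⟨h1, h2, h3⟩ | ⟨h1, h2, h3⟩
  · have hlb := hl _ h3
    have hl0 : 0 ≤ l := (norm_nonneg _).trans hlb
    refine ⟨T.vec (T.next (T.opp h)), 0, ?_, ?_, hlb, by simpa using hl0, by simpa using hlb, ?_⟩
    · rw [pp0_succ, ← hh, h2]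
    · rw [pp0_succ, dd0_succ, ← hh, h2, h1]
      linear_combination hcl
    · rw [dd0_succ, ← hh, h1, ar_prev, har, add_zero]
      simp only [cr, Complex.neg_re, Complex.neg_im]; ring
  · have hlb := hl _ h3
    have hl0 : 0 ≤ l := (norm_nonneg _).trans hlb
    refine ⟨0, -T.vec (T.prev (T.opp h)), ?_, ?_, by simpa using hl0, by simpa using hlb,
      by simpa using hlb, ?_⟩
    · rw [pp0_succ, ← hh, h2]
    · rw [pp0_succ, dd0_succ, ← hh, h2, h1]
      linear_combination hcl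
    · rw [dd0_succ, ← hh, h1, ar_next, har, zero_add]
      have e : T.vec (T.next (T.opp h)) = T.vec h - T.vec (T.prev (T.opp h)) := by
        linear_combination hcl
      rw [e]
      simp only [cr, Complex.neg_re, Complex.neg_im, Complex.sub_re, Complex.sub_im]; ring

theorem pp0_le (hE : OneE T E) {l : ℝ} (hl : ∀ h ∈ E, ‖T.vec h‖ ≤ l) (h0 : {h : H // h ∉ E}) (i : ℕ) :
    ‖pp0 hE h0 i‖ ≤ i * l ∧
      ‖pp0 hE h0 i + T.vec (dd0 hE h0 i) - T.vec (dd0 hE h0 0)‖ ≤ i * l := by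
  induction i with
  | zero => simp [pp0]
  | succ i ih =>
    obtain ⟨b, t, h1, h2, h3, h4, -, -⟩ := step0 hE hl h0 i
    rw [h2, h1]
    constructor
    · calc ‖pp0 hE h0 i + b‖ ≤ ‖pp0 hE h0 i‖ + ‖b‖ := norm_add_le _ _
        _ ≤ i * l + l := add_le_add ih.1 h3
        _ = ((i + 1 : ℕ) : ℝ) * l := by push_cast; ring
    · have e : pp0 hE h0 i + T.vec (dd0 hE h0 i) + t - T.vec (dd0 hE h0 0) =
          (pp0 hE h0 i + T.vec (dd0 hE h0 i) - T.vec (dd0 hE h0 0)) + t := by ring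
      rw [e]
      calc _ ≤ ‖pp0 hE h0 i + T.vec (dd0 hE h0 i) - T.vec (dd0 hE h0 0)‖ + ‖t‖ := norm_add_le _ _
        _ ≤ i * l + l := add_le_add ih.2 h4
        _ = ((i + 1 : ℕ) : ℝ) * l := by push_cast; ring

/-- The vectors `vec (dd0 i)` change by at most `l` in each step. -/
theorem vv0_le (hE : OneE T E) {l : ℝ} (hl : ∀ h ∈ E, ‖T.vec h‖ ≤ l) (h0 : {h : H // h ∉ E}) (i : ℕ) :
    ‖T.vec (dd0 hE h0 i) - T.vec (dd0 hE h0 0)‖ ≤ i * l := by
  induction i with
  | zero => simp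
  | succ i ih =>
    have hstep : ‖T.vec (dd0 hE h0 (i + 1)) - T.vec (dd0 hE h0 i)‖ ≤ l := by
      set h := dd0 hE h0 i with hh
      have hn : h ∉ E := dd0_not hE h0 i
      have hv : T.vec (T.opp h) = -T.vec h := T.vec_opp h
      have hcl : -T.vec h + T.vec (T.next (T.opp h)) + T.vec (T.prev (T.opp h)) = 0 := by
        have := closed' (T := T) (T.opp h); rwa [hv] at this
      rcases adv_cases hE hn with ⟨h1, h2, h3⟩ | ⟨h1, h2, h3⟩
      · rw [dd0_succ, ← hh, h1]
        have e : T.vec (T.prev (T.opp h)) - T.vec h = -T.vec (T.next (T.opp h)) := by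
          linear_combination hcl
        rw [e, norm_neg]; exact hl _ h3
      · rw [dd0_succ, ← hh, h1]
        have e : T.vec (T.next (T.opp h)) - T.vec h = -T.vec (T.prev (T.opp h)) := by
          linear_combination hcl
        rw [e, norm_neg]; exact hl _ h3
    have e : T.vec (dd0 hE h0 (i + 1)) - T.vec (dd0 hE h0 0) =
        (T.vec (dd0 hE h0 (i + 1)) - T.vec (dd0 hE h0 i)) +
          (T.vec (dd0 hE h0 i) - T.vec (dd0 hE h0 0)) := by ring
    rw [e]
    calc _ ≤ ‖T.vec (dd0 hE h0 (i + 1)) - T.vec (dd0 hE h0 i)‖ +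
          ‖T.vec (dd0 hE h0 i) - T.vec (dd0 hE h0 0)‖ := norm_add_le _ _
      _ ≤ l + i * l := add_le_add hstep ih
      _ = ((i + 1 : ℕ) : ℝ) * l := by push_cast; ring

/-- The total area of the first `i` triangles. -/
theorem area0 (hE : OneE T E) {l : ℝ} (hl0 : 0 ≤ l) (hl : ∀ h ∈ E, ‖T.vec h‖ ≤ l)
    (h0 : {h : H // h ∉ E}) (i : ℕ) :
    ∑ j ∈ Finset.range i, ar T (dd0 hE h0 (j + 1)) ≤
      cr (pp0 hE h0 i + (pp0 hE h0 i + T.vec (dd0 hE h0 i) - T.vec (dd0 hE h0 0)))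
        (T.vec (dd0 hE h0 0)) + i ^ 2 * l ^ 2 := by
  induction i with
  | zero => simp [pp0, cr]
  | succ i ih =>
    obtain ⟨b, t, h1, h2, h3, h4, h5, h6⟩ := step0 hE hl h0 i
    rw [Finset.sum_range_succ, h6, h2, h1]
    have e1 : cr (b + t) (T.vec (dd0 hE h0 i)) = cr (b + t) (T.vec (dd0 hE h0 0)) +
        cr (b + t) (T.vec (dd0 hE h0 i) - T.vec (dd0 hE h0 0)) := by
      rw [← cr_add_right]; congr 1; ring
    have e2 : cr (b + t) (T.vec (dd0 hE h0 i) - T.vec (dd0 hE h0 0)) ≤ l * (i * l) := by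
      refine (le_abs_self _).trans ((abs_cr_le _ _).trans ?_)
      exact mul_le_mul h5 (vv0_le hE hl h0 i) (norm_nonneg _) hl0
    have e3 : cr (pp0 hE h0 i + b + (pp0 hE h0 i + T.vec (dd0 hE h0 i) + t - T.vec (dd0 hE h0 0)))
        (T.vec (dd0 hE h0 0)) =
        cr (pp0 hE h0 i + (pp0 hE h0 i + T.vec (dd0 hE h0 i) - T.vec (dd0 hE h0 0)))
        (T.vec (dd0 hE h0 0)) + cr (b + t) (T.vec (dd0 hE h0 0)) := by
      rw [← cr_add_left]; congr 1; ring
    rw [e1, e3]
    have e4 : (i : ℝ) ^ 2 * l ^ 2 + l * (i * l) ≤ ((i + 1 : ℕ) : ℝ) ^ 2 * l ^ 2 := by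
      push_cast
      have : 0 ≤ (i : ℝ) * l ^ 2 := by positivity
      nlinarith [sq_nonneg l]
    linarith

end adv

/-- **Strips.** A surface whose triangles have all or exactly one side in `E`, with short sides in
`E`, has a strip through every dart outside `E`. -/
theorem exists_strip (Y : Surf) {E : Set (Fin Y.n × Fin 3)} (hE : OneE (ofSurf Y) E) {l a : ℝ}
    (hl0 : 0 ≤ l) (hl : ∀ h ∈ E, ‖Y.vec h‖ ≤ l) (h0 : Fin Y.n × Fin 3) (hh0 : h0 ∉ E)
    (ha : a ≤ Pool.Agent.Helper58.TF.ar (ofSurf Y) h0)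
    (hla : 5 * (Fintype.card (Fin Y.n × Fin 3) * l) ^ 2 < a) :
    ∃ X : StripD Y, ‖X.w‖ ≤ Fintype.card (Fin Y.n × Fin 3) * l ∧
      (a - 5 * (Fintype.card (Fin Y.n × Fin 3) * l) ^ 2) / 2 ≤ X.hi - X.lo := by
  classical
  set T := ofSurf Y with hT
  set N := Fintype.card (Fin Y.n × Fin 3) with hN
  set x0 : {h : Fin Y.n × Fin 3 // h ∉ E} := ⟨h0, hh0⟩ with hx0
  set m := Function.minimalPeriod (advS hE) x0 with hm
  have hm0 : 0 < m := Function.minimalPeriod_pos_of_mem_periodicPts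
    ((advS_inj hE).mem_periodicPts x0)
  have hmN : m ≤ N := by
    have h1 : m ≤ Fintype.card {h : Fin Y.n × Fin 3 // h ∉ E} := Function.minimalPeriod_le_card
    exact h1.trans (Fintype.card_subtype_le _)
  have hmN' : (m : ℝ) ≤ N := by exact_mod_cast hmN
  have hper : (advS hE)^[m] x0 = x0 := Function.iterate_minimalPeriod
  have hdm : dd0 hE x0 m = dd0 hE x0 0 := by unfold dd0; rw [hper]; rfl
  have hd0 : dd0 hE x0 0 = h0 := rfl
  have hl' : ∀ h ∈ E, ‖T.vec h‖ ≤ l := hl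
  set w := pp0 hE x0 m with hw
  set v0 := T.vec (dd0 hE x0 0) with hv0
  have hml : (m : ℝ) * l ≤ N * l := mul_le_mul_of_nonneg_right hmN' hl0
  have hwl : ‖w‖ ≤ N * l := ((pp0_le hE hl' x0 m).1).trans hml
  have hNl : 0 ≤ (N : ℝ) * l := by positivity
  -- lower bound of `cr w v0`
  have hcr : a - (N * l) ^ 2 ≤ 2 * cr w v0 := by
    have h1 := area0 hE hl0 hl' x0 m
    rw [hdm, ← hw, ← hv0] at h1
    have e1 : cr (w + (w + v0 - v0)) v0 = 2 * cr w v0 := by
      simp only [cr, Complex.add_re, Complex.add_im, Complex.sub_re, Complex.sub_im]; ring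
    rw [e1] at h1
    have h2 : a ≤ ∑ j ∈ Finset.range m, Pool.Agent.Helper58.TF.ar T (dd0 hE x0 (j + 1)) := by
      have h3 : Pool.Agent.Helper58.TF.ar T (dd0 hE x0 (m - 1 + 1)) ≤
          ∑ j ∈ Finset.range m, Pool.Agent.Helper58.TF.ar T (dd0 hE x0 (j + 1)) :=
        Finset.single_le_sum (f := fun j => Pool.Agent.Helper58.TF.ar T (dd0 hE x0 (j + 1)))
          (fun j _ => (ar_pos _).le) (Finset.mem_range.mpr (by omega))
      have h4 : m - 1 + 1 = m := by omega
      rw [h4, hdm, hd0] at h3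
      exact ha.trans h3
    have h5 : (m : ℝ) ^ 2 * l ^ 2 ≤ (N * l) ^ 2 := by
      rw [← mul_pow]
      exact pow_le_pow_left₀ (by positivity) hml 2
    linarith
  have hcr2 : 2 * (N * l) ^ 2 < cr w v0 := by linarith
  -- the sequences on `ℤ`
  have hmz : (0 : ℤ) < m := by exact_mod_cast hm0
  set D : ℤ → Fin Y.n × Fin 3 := fun i => dd0 hE x0 (i % m).toNat with hD
  set P : ℤ → ℂ := fun i => pp0 hE x0 (i % m).toNat + (i / m : ℤ) * w with hP
  have hmod : ∀ (r : ℕ) (q : ℤ), r < m → ((r : ℤ) + q * m) % m = r ∧ ((r : ℤ) + q * m) / m = q := by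
    intro r q hr
    have hr' : (r : ℤ) < m := by exact_mod_cast hr
    constructor
    · rw [Int.add_mul_emod_self_right]
      exact Int.emod_eq_of_lt (by positivity) hr'
    · rw [Int.add_mul_ediv_right _ _ hmz.ne', Int.ediv_eq_zero_of_lt (by positivity) hr', zero_add]
  have hDr : ∀ (r : ℕ) (q : ℤ), r ≤ m → D ((r : ℤ) + q * m) = dd0 hE x0 r ∧
      P ((r : ℤ) + q * m) = pp0 hE x0 r + q * w := by
    intro r q hr
    rcases hr.lt_or_eq with hr | hr
    · obtain ⟨h1, h2⟩ := hmod r q hr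
      exact ⟨by simp only [hD, h1, Int.toNat_natCast], by simp only [hP, h1, h2, Int.toNat_natCast]⟩
    · subst hr
      obtain ⟨h1, h2⟩ := hmod 0 (q + 1) hm0
      have e : ((m : ℕ) : ℤ) + q * m = ((0 : ℕ) : ℤ) + (q + 1) * m := by push_cast; ring
      simp only [hD, hP, e, h1, h2, Int.toNat_natCast]
      refine ⟨hdm.symm, ?_⟩
      rw [← hw]
      simp only [pp0, Finset.range_zero, Finset.sum_empty]
      push_cast; ring
  have hdecomp : ∀ i : ℤ, ∃ (r : ℕ) (q : ℤ), r < m ∧ i = (r : ℤ) + q * m := by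
    intro i
    refine ⟨(i % m).toNat, i / m, ?_, ?_⟩
    · have h1 := Int.emod_nonneg i hmz.ne'
      have h2 := Int.emod_lt_of_pos i hmz
      omega
    · rw [Int.toNat_of_nonneg (Int.emod_nonneg i hmz.ne')]
      have := Int.emod_add_mul_ediv i m
      linarith [mul_comm (i / (m : ℤ)) (m : ℤ)]
  -- heights
  have hbot : ∀ r : ℕ, r ≤ m → cr w (pp0 hE x0 r) ≤ (N * l) ^ 2 := by
    intro r hr
    refine (le_abs_self _).trans ((abs_cr_le _ _).trans ?_)
    have h1 := (pp0_le hE hl' x0 r).1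
    have h2 : (r : ℝ) * l ≤ N * l :=
      mul_le_mul_of_nonneg_right ((Nat.cast_le.mpr hr).trans hmN') hl0
    calc ‖w‖ * ‖pp0 hE x0 r‖ ≤ (N * l) * (N * l) :=
          mul_le_mul hwl (h1.trans h2) (norm_nonneg _) hNl
      _ = (N * l) ^ 2 := by ring
  have htop : ∀ r : ℕ, r ≤ m → cr w v0 - (N * l) ^ 2 ≤
      cr w (pp0 hE x0 r + T.vec (dd0 hE x0 r)) := by
    intro r hr
    have h1 := (pp0_le hE hl' x0 r).2
    have h2 : (r : ℝ) * l ≤ N * l :=
      mul_le_mul_of_nonneg_right ((Nat.cast_le.mpr hr).trans hmN') hl0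
    have h3 : cr w (pp0 hE x0 r + T.vec (dd0 hE x0 r)) = cr w v0 +
        cr w (pp0 hE x0 r + T.vec (dd0 hE x0 r) - v0) := by
      rw [← cr_add_right]; congr 1; ring
    have h4 : |cr w (pp0 hE x0 r + T.vec (dd0 hE x0 r) - v0)| ≤ (N * l) ^ 2 := by
      refine (abs_cr_le _ _).trans ?_
      calc ‖w‖ * ‖pp0 hE x0 r + T.vec (dd0 hE x0 r) - v0‖ ≤ (N * l) * (N * l) :=
            mul_le_mul hwl (h1.trans h2) (norm_nonneg _) hNl
        _ = (N * l) ^ 2 := by ring
    rw [h3]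
    linarith [(abs_le.mp h4).1]
  -- positivity of the heights of the long vectors
  have hvpos : ∀ r : ℕ, r ≤ m → 0 < cr w (T.vec (dd0 hE x0 r)) := by
    intro r hr
    have h1 := hbot r hr
    have h2 := htop r hr
    rw [cr_add_right] at h2
    linarith
  have hk : ∀ k : Fin 3, k + 1 + 1 = k + 2 := by decide
  refine ⟨{ m := m, hm := hm0, d := D, p := P, w := w, lo := (N * l) ^ 2,
            hi := cr w v0 - (N * l) ^ 2, per_d := ?_, per_p := ?_, step := ?_, hlh := by linarith,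
            hlo := ?_, hhi := ?_, inj := ?_ }, hwl, ?_⟩
  · intro i
    obtain ⟨r, q, hr, rfl⟩ := hdecomp i
    have e : (r : ℤ) + q * m + m = (r : ℤ) + (q + 1) * m := by ring
    rw [e, (hDr r (q + 1) hr.le).1, (hDr r q hr.le).1]
  · intro i
    obtain ⟨r, q, hr, rfl⟩ := hdecomp i
    have e : (r : ℤ) + q * m + m = (r : ℤ) + (q + 1) * m := by ring
    rw [e, (hDr r (q + 1) hr.le).2, (hDr r q hr.le).2]
    push_cast; ring
  · intro i
    obtain ⟨r, q, hr, rfl⟩ := hdecomp i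
    have e : (r : ℤ) + q * m + 1 = ((r + 1 : ℕ) : ℤ) + q * m := by push_cast; ring
    rw [e, (hDr (r + 1) q hr).1, (hDr r q hr.le).1, (hDr (r + 1) q hr).2, (hDr r q hr.le).2,
      dd0_succ, pp0_succ]
    have hn := dd0_not hE x0 r
    rcases adv_cases hE hn with ⟨h1, h2, h3⟩ | ⟨h1, h2, h3⟩
    · left
      rw [h1, h2]
      refine ⟨?_, ?_⟩
      · show ((Y.glue (dd0 hE x0 r)).1, (Y.glue (dd0 hE x0 r)).2 + 1 + 1) = _
        rw [hk]
      · show pp0 hE x0 r + Y.vec ((Y.glue (dd0 hE x0 r)).1, (Y.glue (dd0 hE x0 r)).2 + 1) + q * w = _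
        ring
    · right
      rw [h1, h2]
      exact ⟨rfl, by ring⟩
  · intro i
    obtain ⟨r, q, hr, rfl⟩ := hdecomp i
    rw [(hDr r q hr.le).2]
    have : ((q : ℤ) : ℂ) = ((q : ℝ) : ℂ) := by push_cast; rfl
    rw [this, cr_add_right, cr_mul_right, cr_self, mul_zero, add_zero]
    exact hbot r hr.le
  · intro i
    obtain ⟨r, q, hr, rfl⟩ := hdecomp i
    rw [(hDr r q hr.le).2, (hDr r q hr.le).1]
    have e : pp0 hE x0 r + (q : ℂ) * w + Y.vec (dd0 hE x0 r) =
        (pp0 hE x0 r + T.vec (dd0 hE x0 r)) + ((q : ℝ) : ℂ) * w := by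
      have : T.vec (dd0 hE x0 r) = Y.vec (dd0 hE x0 r) := rfl
      rw [this]; push_cast; ring
    rw [e, cr_add_right _ _ (((q : ℝ) : ℂ) * w), cr_mul_right, cr_self, mul_zero, add_zero]
    exact htop r hr.le
  · intro r s _ hr _ hs hij
    have hDr0 := (hDr r 0 hr.le).1
    have hDs0 := (hDr s 0 hs.le).1
    rw [zero_mul, add_zero] at hDr0 hDs0
    rw [hDr0, hDs0] at hij
    have hr_n := dd0_not hE x0 r
    have hs_n := dd0_not hE x0 s
    -- equal darts or different darts of the same triangle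
    by_cases hds : dd0 hE x0 r = dd0 hE x0 s
    · have : (advS hE)^[r] x0 = (advS hE)^[s] x0 := Subtype.ext hds
      have := Function.iterate_injOn_Iio_minimalPeriod (f := advS hE) (x := x0)
        (Set.mem_Iio.mpr hr) (Set.mem_Iio.mpr hs) this
      exact this
    · exfalso
      -- the incoming dart of the triangle of `dd0 r`
      obtain ⟨r', hr', hrr⟩ : ∃ r' : ℕ, r' < m ∧ dd0 hE x0 r = adv T E (dd0 hE x0 r') := by
        rcases Nat.eq_zero_or_pos r with h | h
        · refine ⟨m - 1, by omega, ?_⟩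
          rw [← dd0_succ, h]
          have : m - 1 + 1 = m := by omega
          rw [this, hdm]
        · refine ⟨r - 1, by omega, ?_⟩
          rw [← dd0_succ]
          congr 1; omega
      have hr'_n := dd0_not hE x0 r'
      have ho := adv_opp hE hr'_n
      rw [← hrr] at ho
      have hsame : dd0 hE x0 r = T.next (dd0 hE x0 s) ∨ dd0 hE x0 r = T.prev (dd0 hE x0 s) := by
        have hall : ∀ k k' : Fin 3, k' = k ∨ k' = k + 1 ∨ k' = k + 1 + 1 := by decide
        rcases hall (dd0 hE x0 s).2 (dd0 hE x0 r).2 with h | h | h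
        · exact absurd (Prod.ext hij h) hds
        · left; exact Prod.ext hij h
        · right; exact Prod.ext hij h
      have heq := other_unique hE hr_n (opp_not hE hr'_n) hs_n ho hsame
      have h1 := hvpos s hs.le
      rw [← heq, T.vec_opp] at h1
      have h2 := hvpos r' hr'.le
      have h3 : cr w (-T.vec (dd0 hE x0 r')) = -cr w (T.vec (dd0 hE x0 r')) := by
        simp only [cr, Complex.neg_re, Complex.neg_im]; ring
      rw [h3] at h1
      linarith
  · show (a - 5 * (N * l) ^ 2) / 2 ≤ cr w v0 - (N * l) ^ 2 - (N * l) ^ 2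
    linarith

end Pool.Agent.Helper58.TF
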