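import Pool.Agent.Helper58.TF.Min
import Pool.Agent.Helper86.TF.Assem
import Pool.Agent.Helper72.TF.BI

/-!
# MP_e98778_an (full), module G: the inputs `pos` and `tame` of helper86's `Inputs`
-/

set_option autoImplicit false

open MeasureTheory Set Pool.Agent.Helper87.LS Pool.Agent.Helper79.G Pool.Agent.Helper72.TF
  Pool.Agent.Helper86.TF

namespace Pool.Agent.Helper58.TF

/-- The systole is positive. -/
theorem sys_pos {H : Type} [Finite H] [Nonempty H] (T : Tri H) : 0 < sys T := by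
  obtain ⟨ε, hε, h⟩ := reach_lower T
  exact hε.trans_le (le_sys fun T' g hT' => h ∅ T' hT' g)

theorem pos_input (S : Surf) : 0 < sys (ofSurf S) := by
  have : Nonempty (Fin S.n × Fin 3) := ⟨(⟨0, S.pos⟩, 0)⟩
  exact sys_pos _

/-- The sum of the doubled areas is invariant under maps of determinant one. -/
theorem ar_act' {H : Type} (T : Tri H) (A : ℂ ≃ₗ[ℝ] ℂ) (hA : LinearMap.det (A : ℂ →ₗ[ℝ] ℂ) = 1)
    (h : H) : Pool.Agent.Helper58.TF.ar (act T A hA) h = Pool.Agent.Helper58.TF.ar T h := by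
  show cr (A (T.vec h)) (A (T.vec (T.next h))) = cr (T.vec h) (T.vec (T.next h))
  rw [cr_map, hA, one_mul]

theorem tame_input (S : Surf) (hS : Connected S) : ∃ c p : ℝ, 0 < c ∧ 0 < p ∧
    ∀ s u κ : ℝ, 0 < κ → κ ≤ 1 → κ ≤ sys (lev (ofSurf S) s u) → TameAt S (c * κ ^ (-p)) s u := by
  classical
  set N : ℕ := Fintype.card (Fin S.n × Fin 3) with hN
  set A : ℝ := ∑ k, Pool.Agent.Helper58.TF.ar (ofSurf S) k with hA
  have hne : Nonempty (Fin S.n × Fin 3) := ⟨(⟨0, S.pos⟩, 0)⟩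
  have hA0 : 0 < A := Finset.sum_pos (fun k _ => ar_pos k) Finset.univ_nonempty
  set c : ℝ := max (2 * A) (2 * (8 * A ^ 2) ^ N) with hc
  have hc0 : 0 < c := lt_max_of_lt_left (by positivity)
  refine ⟨c, ((4 * N + 2 : ℕ) : ℝ), hc0, by positivity, ?_⟩
  intro s u κ hκ hκ1 hsys
  have hlow : ∀ Z, Reach ∅ (lev (ofSurf S) s u) Z → ∀ h, κ ≤ ‖Z.vec h‖ :=
    fun Z hZ h => hsys.trans (sys_le hZ h)
  obtain ⟨Z, hZ, hb, ha⟩ := exists_tame (lev (ofSurf S) s u) (A := A) hκ hlow (by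
    have : ∑ k, Pool.Agent.Helper58.TF.ar (lev (ofSurf S) s u) k = A := by
      rw [hA]
      apply Finset.sum_congr rfl
      intro k _
      exact ar_act' _ _ _ _
    rw [this]; linarith)
  obtain ⟨T'', hT'', rfl⟩ := reach_act' (gsu s u) (det_gsu s u) hZ
  have hK : c * κ ^ (-((4 * N + 2 : ℕ) : ℝ)) = c / κ ^ (4 * N + 2) := by
    rw [Real.rpow_neg hκ.le, Real.rpow_natCast]; rfl
  rw [hK]
  refine tameAt_of_reach S hS hT'' ?_ ?_
  · intro h
    refine (hb h).trans ?_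
    have h1 : κ ^ (4 * N + 2) ≤ κ := by
      calc κ ^ (4 * N + 2) ≤ κ ^ 1 := pow_le_pow_of_le_one hκ.le hκ1 (by omega)
        _ = κ := pow_one κ
    calc 2 * A / κ ≤ c / κ := by gcongr; exact le_max_left _ _
      _ ≤ c / κ ^ (4 * N + 2) := by gcongr
  · intro h
    have h1 := ha h
    rw [ar_act'] at h1
    refine le_trans ?_ h1
    rw [one_div, inv_div, div_le_iff₀ hc0]
    have h2 : κ ^ 2 / 2 * (κ ^ 4 / (8 * A ^ 2)) ^ N * (2 * (8 * A ^ 2) ^ N) = κ ^ (4 * N + 2) := by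
      rw [div_pow]
      have : (8 * A ^ 2) ^ N ≠ 0 := by positivity
      field_simp
      ring
    rw [← h2]
    apply mul_le_mul_of_nonneg_left (le_max_right _ _)
    positivity

end Pool.Agent.Helper58.TF
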